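import Pool.Agent.N412.LB.Stm

set_option autoImplicit false

open Finset

namespace Pool.Agent.N412.LB

open Pool.Agent.W297.LP

namespace BalAux

lemma df_succ_sub (m t : ℕ) (ht : 1 ≤ t) :
    (m + 1).descFactorial t = m.descFactorial t + t * m.descFactorial (t - 1) := by
  obtain ⟨s, rfl⟩ : ∃ s, t = s + 1 := ⟨t - 1, by omega⟩
  simp only [Nat.add_sub_cancel]
  by_cases h : s ≤ m
  · rw [Nat.succ_descFactorial_succ, Nat.descFactorial_succ, ← Nat.add_mul]
    congr 1
    omega
  · push Not at h
    have h1 : (m + 1).descFactorial (s + 1) = 0 := by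
      rw [Nat.descFactorial_eq_zero_iff_lt]; omega
    have h2 : m.descFactorial (s + 1) = 0 := by
      rw [Nat.descFactorial_eq_zero_iff_lt]; omega
    have h3 : m.descFactorial s = 0 := by
      rw [Nat.descFactorial_eq_zero_iff_lt]; omega
    rw [h1, h2, h3]; simp

lemma df_lt (b : ℕ) (s : ℕ) (hs : 1 ≤ s) (hb : s ≤ b + 1) :
    b.descFactorial s < (b + 1).descFactorial s := by
  rw [df_succ_sub b s hs]
  have : 0 < b.descFactorial (s - 1) := by
    rw [Nat.pos_iff_ne_zero, Ne, Nat.descFactorial_eq_zero_iff_lt]; omega
  have := Nat.mul_pos (show 0 < s by omega) this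
  omega

lemma df_mono (b a : ℕ) (s : ℕ) (h : b ≤ a) : b.descFactorial s ≤ a.descFactorial s :=
  Nat.descFactorial_le s h

end BalAux

open BalAux

theorem bal : SBal := by
  classical
  intro k t hk ht
  have hk' : (0:ℝ) < (k:ℝ) - 1 := by
    have : (4:ℝ) ≤ k := by exact_mod_cast hk
    linarith
  have hmu : 0 < mu k := by unfold mu; positivity
  obtain ⟨N, hN⟩ := exists_nat_gt (((t:ℝ) + 1) / (19 / 20 * mu k))
  refine ⟨N, ?_⟩
  intro n hn P hP hopt i j
  by_contra hcon
  push Not at hcon
  have hnN : (N:ℝ) ≤ n := by exact_mod_cast hn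
  have hpos : 0 < 19 / 20 * mu k := by positivity
  have hbig : (t:ℝ) + 1 < 19 / 20 * mu k * n := by
    rw [div_lt_iff₀ hpos] at hN
    nlinarith
  have hlow : ∀ l, t + 1 ≤ (pt P l).card := by
    intro l
    have h1 := (abs_le.mp (hP l)).1
    have h2 : (t:ℝ) + 1 < ((pt P l).card : ℝ) := by nlinarith
    have h3 : t + 1 < (pt P l).card := by exact_mod_cast h2
    omega
  set a := (pt P i).card with ha
  set b := (pt P j).card with hb
  have hij : i ≠ j := by
    intro h; subst h; omega
  have hbt : t + 1 ≤ b := hlow j
  have hne : (pt P i).Nonempty := by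
    rw [← Finset.card_pos]; omega
  obtain ⟨x, hx⟩ := hne
  have hxi : P x = i := by
    simpa [pt] using hx
  let P' : Fin n → Fin (k - 1) := Function.update P x j
  have hpi : pt P' i = (pt P i).erase x := by
    ext y
    simp only [pt, mem_filter, mem_univ, true_and, mem_erase, P']
    by_cases hy : y = x
    · subst hy
      simp [Function.update_self, Ne.symm hij]
    · simp [Function.update_of_ne hy, hy]
  have hpj : pt P' j = insert x (pt P j) := by
    ext y
    simp only [pt, mem_filter, mem_univ, true_and, mem_insert, P']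
    by_cases hy : y = x
    · subst hy
      simp [Function.update_self]
    · simp [Function.update_of_ne hy, hy]
  have hpl : ∀ l, l ≠ i → l ≠ j → pt P' l = pt P l := by
    intro l hli hlj
    ext y
    simp only [pt, mem_filter, mem_univ, true_and, P']
    by_cases hy : y = x
    · subst hy
      rw [Function.update_self]
      constructor
      · intro h; exact absurd h.symm hlj
      · intro h; rw [hxi] at h; exact absurd h.symm hli
    · rw [Function.update_of_ne hy]
  have hci : (pt P' i).card = a - 1 := by
    rw [hpi, Finset.card_erase_of_mem hx]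
  have hxj : x ∉ pt P j := by
    simp only [pt, mem_filter, mem_univ, true_and, hxi]
    exact hij
  have hcj : (pt P' j).card = b + 1 := by
    rw [hpj, Finset.card_insert_of_notMem hxj]
  have hSD : ∀ Q : Fin n → Fin (k - 1), SD t Q =
      ((pt Q i).card).descFactorial t + (((pt Q j).card).descFactorial t +
        ∑ l ∈ (univ.erase i).erase j, ((pt Q l).card).descFactorial t) := by
    intro Q
    unfold SD
    rw [← Finset.add_sum_erase univ (fun l => ((pt Q l).card).descFactorial t) (mem_univ i),
      ← Finset.add_sum_erase (univ.erase i) (fun l => ((pt Q l).card).descFactorial t)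
        (show j ∈ univ.erase i by simp [Ne.symm hij])]
  have hrest : ∑ l ∈ (univ.erase i).erase j, ((pt P' l).card).descFactorial t =
      ∑ l ∈ (univ.erase i).erase j, ((pt P l).card).descFactorial t := by
    apply Finset.sum_congr rfl
    intro l hl
    simp only [mem_erase, mem_univ, and_true] at hl
    rw [hpl l hl.2 hl.1]
  have h0 := hopt P'
  rw [hSD P, hSD P', hrest, hci, hcj] at h0
  have h1 : a.descFactorial t = (a - 1).descFactorial t + t * (a - 1).descFactorial (t - 1) := by
    have := df_succ_sub (a - 1) t (by omega)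
    rwa [show a - 1 + 1 = a by omega] at this
  have h2 := df_succ_sub b t (by omega)
  have h3 : b.descFactorial (t - 1) < (a - 1).descFactorial (t - 1) :=
    lt_of_lt_of_le (df_lt b (t - 1) (by omega) (by omega)) (df_mono (b + 1) (a - 1) (t - 1) (by omega))
  have h4 : t * b.descFactorial (t - 1) < t * (a - 1).descFactorial (t - 1) :=
    Nat.mul_lt_mul_of_pos_left h3 (by omega)
  rw [← ha, ← hb] at h0
  omega

end Pool.Agent.N412.LB
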