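import Pool.Agent.N412.LB.Stm

/-!
Project LB (helper412), part CLONE: the cloning inequality.
-/

set_option autoImplicit false

open Finset

namespace Pool.Agent.N412.LB

namespace CloneAux

/-- monochromatic copy -/
def Mo {t n : ℕ} (H : SimpleGraph (Fin t)) (G : SimpleGraph (Fin n)) (f : Fin t ↪ Fin n) : Prop :=
  (∀ u v, H.Adj u v → G.Adj (f u) (f v)) ∨ (∀ u v, H.Adj u v → Gᶜ.Adj (f u) (f v))

/-- replace `x` by `y` -/
def rpl {n : ℕ} (x y : Fin n) (z : Fin n) : Fin n := if z = x then y else z

open Classical in
lemma card_two {t n : ℕ} (x y : Fin n) (u v : Fin t) (huv : u ≠ v) :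
    ((univ : Finset (Fin t ↪ Fin n)).filter (fun f => f u = x ∧ f v = y)).card ≤ n ^ (t - 2) := by
  have hc : Fintype.card {w : Fin t // w ≠ u ∧ w ≠ v} = t - 2 := by
    rw [Fintype.card_subtype]
    have : (univ.filter (fun w : Fin t => w ≠ u ∧ w ≠ v)) = (univ.erase u).erase v := by
      ext w; simp [and_comm]
    rw [this, card_erase_of_mem (by simp [huv.symm]), card_erase_of_mem (mem_univ _), card_univ,
      Fintype.card_fin]
    omega
  have h1 : ((univ : Finset (Fin t ↪ Fin n)).filter (fun f => f u = x ∧ f v = y)).card ≤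
      (univ : Finset ({w : Fin t // w ≠ u ∧ w ≠ v} → Fin n)).card := by
    apply card_le_card_of_injOn (fun f w => f w.1)
    · intro f _; simp
    · intro f hf g hg h
      rw [mem_coe, mem_filter] at hf hg
      apply DFunLike.ext
      intro w
      by_cases h1 : w = u
      · rw [h1, hf.2.1, hg.2.1]
      by_cases h2 : w = v
      · rw [h2, hf.2.2, hg.2.2]
      exact congrFun h ⟨w, h1, h2⟩
  rw [card_univ, Fintype.card_fun, Fintype.card_fin, hc] at h1
  exact h1

open Classical in
lemma step {t n : ℕ} (H : SimpleGraph (Fin t)) (G : SimpleGraph (Fin n)) (hO : Opt H G)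
    (x y : Fin n) : cx H G x ≤ cx H G y + t ^ 2 * n ^ (t - 2) := by
  by_cases hxy : x = y
  · rw [hxy]; exact Nat.le_add_right _ _
  set G' : SimpleGraph (Fin n) := G.comap (rpl x y) with hG'
  have hadj : ∀ a b, G'.Adj a b ↔ G.Adj (rpl x y a) (rpl x y b) := fun a b => Iff.rfl
  have hopt : MC H G ≤ MC H G' := hO G'
  set CG := (univ : Finset (Fin t ↪ Fin n)).filter (fun f => Mo H G f) with hCG
  set CG' := (univ : Finset (Fin t ↪ Fin n)).filter (fun f => Mo H G' f) with hCG'
  have e1 : MC H G = CG.card := by rw [hCG]; unfold MC; congr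
  have e2 : MC H G' = CG'.card := by rw [hCG']; unfold MC; congr
  -- decomposition of the copies in `G`
  have e3 : CG.card = (CG.filter (fun f => ∃ v, f v = x)).card +
      (CG.filter (fun f => ¬ ∃ v, f v = x)).card :=
    (card_filter_add_card_filter_not _).symm
  have e4 : cx H G x = (CG.filter (fun f => ∃ v, f v = x)).card := by
    rw [hCG, filter_filter]; unfold cx; congr
  have e4y : cx H G y = (CG.filter (fun f => ∃ v, f v = y)).card := by
    rw [hCG, filter_filter]; unfold cx; congr
  have e5 : CG'.card = (CG'.filter (fun f => ∃ v, f v = x)).card +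
      (CG'.filter (fun f => ¬ ∃ v, f v = x)).card :=
    (card_filter_add_card_filter_not _).symm
  have e6 : (CG'.filter (fun f => ∃ v, f v = x)).card =
      ((CG'.filter (fun f => ∃ v, f v = x)).filter (fun f => ∃ v, f v = y)).card +
      ((CG'.filter (fun f => ∃ v, f v = x)).filter (fun f => ¬ ∃ v, f v = y)).card :=
    (card_filter_add_card_filter_not _).symm
  -- copies avoiding `x`
  have i1 : (CG'.filter (fun f => ¬ ∃ v, f v = x)).card ≤
      (CG.filter (fun f => ¬ ∃ v, f v = x)).card := by
    apply card_le_card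
    intro f hf
    rw [mem_filter, hCG', mem_filter] at hf
    rw [mem_filter, hCG, mem_filter]
    refine ⟨⟨mem_univ _, ?_⟩, hf.2⟩
    have hs : ∀ v, rpl x y (f v) = f v := by
      intro v
      unfold rpl
      rw [if_neg (fun h => hf.2 ⟨v, h⟩)]
    rcases hf.1.2 with h | h
    · left
      intro u v huv
      have := (hadj _ _).1 (h u v huv)
      rwa [hs, hs] at this
    · right
      intro u v huv
      have := h u v huv
      rw [SimpleGraph.compl_adj] at this ⊢
      refine ⟨this.1, fun h' => this.2 ?_⟩
      rw [hadj, hs, hs]; exact h'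
  -- copies containing `x`, not `y`
  have i2 : ((CG'.filter (fun f => ∃ v, f v = x)).filter (fun f => ¬ ∃ v, f v = y)).card ≤
      (CG.filter (fun f => ∃ v, f v = y)).card := by
    have hinj : ∀ f : Fin t ↪ Fin n, (¬ ∃ v, f v = y) → Function.Injective (fun v => rpl x y (f v)) := by
      intro f hf u v huv
      simp only [rpl] at huv
      by_cases h1 : f u = x <;> by_cases h2 : f v = x
      · exact f.injective (h1.trans h2.symm)
      · rw [if_pos h1, if_neg h2] at huv
        exact absurd ⟨v, huv.symm⟩ hf
      · rw [if_neg h1, if_pos h2] at huv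
        exact absurd ⟨u, huv⟩ hf
      · rw [if_neg h1, if_neg h2] at huv
        exact f.injective huv
    apply card_le_card_of_injOn (fun f => if hf : (¬ ∃ v, f v = y) then
      ⟨fun v => rpl x y (f v), hinj f hf⟩ else f)
    · intro f hf
      rw [mem_coe, mem_filter, mem_filter, hCG', mem_filter] at hf
      obtain ⟨⟨⟨-, hm⟩, ⟨w, hw⟩⟩, hy⟩ := hf
      simp only [dif_pos hy]
      rw [mem_coe, mem_filter, hCG, mem_filter]
      refine ⟨⟨mem_univ _, ?_⟩, ⟨w, by simp [rpl, hw]⟩⟩
      rcases hm with h | h
      · left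
        intro u v huv
        exact (hadj _ _).1 (h u v huv)
      · right
        intro u v huv
        have := h u v huv
        rw [SimpleGraph.compl_adj] at this ⊢
        refine ⟨fun h' => this.1 ?_, fun h' => this.2 ((hadj _ _).2 h')⟩
        have huv' : u = v := hinj f hy h'
        rw [huv']
    · intro f hf g hg h
      rw [mem_coe, mem_filter] at hf hg
      simp only [dif_pos hf.2, dif_pos hg.2] at h
      apply DFunLike.ext
      intro w
      have h1 : rpl x y (f w) = rpl x y (g w) := by
        have := DFunLike.congr_fun h w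
        exact this
      unfold rpl at h1
      by_cases h2 : f w = x <;> by_cases h3 : g w = x
      · rw [h2, h3]
      · rw [if_pos h2, if_neg h3] at h1
        exact absurd ⟨w, h1.symm⟩ hg.2
      · rw [if_neg h2, if_pos h3] at h1
        exact absurd ⟨w, h1⟩ hf.2
      · rwa [if_neg h2, if_neg h3] at h1
  -- copies containing both
  have i3 : ((CG'.filter (fun f => ∃ v, f v = x)).filter (fun f => ∃ v, f v = y)).card ≤
      t ^ 2 * n ^ (t - 2) := by
    have hsub : (CG'.filter (fun f => ∃ v, f v = x)).filter (fun f => ∃ v, f v = y) ⊆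
        (univ : Finset (Fin t × Fin t)).biUnion (fun p =>
          (univ : Finset (Fin t ↪ Fin n)).filter (fun f => f p.1 = x ∧ f p.2 = y)) := by
      intro f hf
      rw [mem_filter, mem_filter] at hf
      obtain ⟨⟨-, ⟨u, hu⟩⟩, ⟨v, hv⟩⟩ := hf
      rw [mem_biUnion]
      exact ⟨(u, v), mem_univ _, by rw [mem_filter]; exact ⟨mem_univ _, hu, hv⟩⟩
    calc _ ≤ _ := card_le_card hsub
      _ ≤ ∑ p : Fin t × Fin t,
          ((univ : Finset (Fin t ↪ Fin n)).filter (fun f => f p.1 = x ∧ f p.2 = y)).card :=
          card_biUnion_le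
      _ ≤ ∑ p : Fin t × Fin t, n ^ (t - 2) := by
          apply sum_le_sum
          intro p _
          by_cases hp : p.1 = p.2
          · have : (univ : Finset (Fin t ↪ Fin n)).filter (fun f => f p.1 = x ∧ f p.2 = y) = ∅ := by
              apply filter_eq_empty_iff.2
              rintro f - ⟨h1, h2⟩
              rw [hp, h2] at h1
              exact hxy h1.symm
            rw [this, card_empty]; exact Nat.zero_le _
          · exact card_two x y p.1 p.2 hp
      _ = t ^ 2 * n ^ (t - 2) := by
          rw [sum_const, card_univ, Fintype.card_prod, Fintype.card_fin, smul_eq_mul, sq]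
  rw [e4, e4y]
  rw [e1, e2] at hopt
  omega

open Classical in
lemma sum_cx {t n : ℕ} (H : SimpleGraph (Fin t)) (G : SimpleGraph (Fin n)) :
    ∑ y, cx H G y ≤ t * MC H G := by
  set CG := (univ : Finset (Fin t ↪ Fin n)).filter (fun f => Mo H G f) with hCG
  have e1 : MC H G = CG.card := by rw [hCG]; unfold MC; congr
  have e4 : ∀ x, cx H G x = (CG.filter (fun f => ∃ v, f v = x)).card := by
    intro x; rw [hCG, filter_filter]; unfold cx; congr
  calc ∑ y, cx H G y = ∑ y, ∑ f ∈ CG, (if ∃ v, f v = y then 1 else 0) := by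
        apply sum_congr rfl
        intro y _
        rw [e4, card_filter]
    _ = ∑ f ∈ CG, ∑ y, (if ∃ v, f v = y then 1 else 0) := sum_comm
    _ ≤ ∑ f ∈ CG, t := by
        apply sum_le_sum
        intro f _
        rw [← card_filter]
        calc (univ.filter (fun y => ∃ v, f v = y)).card ≤ (univ.image f).card := by
              apply card_le_card
              intro y hy
              rw [mem_filter] at hy
              rw [mem_image]
              obtain ⟨v, hv⟩ := hy.2
              exact ⟨v, mem_univ _, hv⟩
          _ ≤ (univ : Finset (Fin t)).card := card_image_le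
          _ = t := by rw [card_univ, Fintype.card_fin]
    _ = t * MC H G := by rw [sum_const, smul_eq_mul, e1, mul_comm]

end CloneAux

theorem clone : SClone := by
  intro t n H G ht hO x
  have h1 : ∑ y : Fin n, cx H G x ≤ ∑ y : Fin n, (cx H G y + t ^ 2 * n ^ (t - 2)) :=
    sum_le_sum fun y _ => CloneAux.step H G hO x y
  rw [sum_const, card_univ, Fintype.card_fin, smul_eq_mul, sum_add_distrib, sum_const, card_univ,
    Fintype.card_fin, smul_eq_mul] at h1
  have h2 := CloneAux.sum_cx H G
  have h3 : n * (t ^ 2 * n ^ (t - 2)) = t ^ 2 * n ^ (t - 1) := by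
    obtain ⟨s, rfl⟩ : ∃ s, t = s + 2 := ⟨t - 2, by omega⟩
    have : s + 2 - 1 = (s + 2 - 2) + 1 := by omega
    rw [this, pow_succ]; ring
  have h4 : n * cx H G x ≤ t * MC H G + t ^ 2 * n ^ (t - 1) := by
    rw [h3] at h1
    exact h1.trans (Nat.add_le_add_right h2 _)
  exact_mod_cast h4

end Pool.Agent.N412.LB
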