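import Pool.Agent.N412.LB.Stm

/-!
Project LB (helper412): CNTB, blue copies through a clique vertex.
-/

set_option autoImplicit false

open Finset

namespace Pool.Agent.N412.LB

open Pool.Agent.W297.LP

namespace CntBAux

open Classical in
/-- greedy construction: lower bound for the number of assignments -/
theorem greedy {V : Type} [Fintype V] (Good : (m : ℕ) → (Fin m → V) → Prop) (c : ℕ → ℝ)
    (hc : ∀ m, 0 ≤ c m) (t : ℕ) (h0 : Good 0 Fin.elim0)
    (hstep : ∀ m < t, ∀ g : Fin m → V, Good m g →
      c m ≤ ((univ.filter fun v => Good (m + 1) (Fin.snoc (α := fun _ => V) g v)).card : ℝ)) :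
    ∀ m ≤ t, ∏ i ∈ range m, c i ≤ ((univ.filter fun f : Fin m → V => Good m f).card : ℝ) := by
  intro m
  induction m with
  | zero =>
    intro _
    rw [prod_range_zero]
    have h1 : (univ.filter fun f : Fin 0 → V => Good 0 f).Nonempty := ⟨Fin.elim0, by rw [mem_filter]; exact ⟨mem_univ _, h0⟩⟩
    exact_mod_cast h1.card_pos
  | succ m ih =>
    intro hm
    have h1 := ih (by omega)
    set F := univ.filter fun f : Fin m → V => Good m f with hF
    have h2 : (F.sigma fun g => univ.filter fun v =>
        Good (m + 1) (Fin.snoc (α := fun _ => V) g v)).card ≤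
        (univ.filter fun f : Fin (m + 1) → V => Good (m + 1) f).card := by
      apply Finset.card_le_card_of_injOn (fun p => Fin.snoc (α := fun _ => V) p.1 p.2)
      · rintro ⟨g, v⟩ hp
        simp only [coe_sigma, Set.mem_sigma_iff, mem_coe, mem_filter, mem_univ, true_and] at hp ⊢
        exact hp.2
      · rintro ⟨g, v⟩ _ ⟨g', v'⟩ _ h
        simp only at h
        have h3 : g = g' := by
          funext i
          have := congrFun h (Fin.castSucc i)
          simpa using this
        have h4 : v = v' := by
          have := congrFun h (Fin.last m)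
          simpa using this
        rw [h3, h4]
    rw [card_sigma] at h2
    rw [prod_range_succ]
    calc (∏ i ∈ range m, c i) * c m ≤ F.card * c m := mul_le_mul_of_nonneg_right h1 (hc m)
      _ = ∑ g ∈ F, c m := by rw [sum_const, nsmul_eq_mul]
      _ ≤ ∑ g ∈ F, ((univ.filter fun v =>
          Good (m + 1) (Fin.snoc (α := fun _ => V) g v)).card : ℝ) :=
          sum_le_sum fun g hg => hstep m (by omega) g (by simpa [hF] using hg)
      _ ≤ _ := by exact_mod_cast h2

open Classical in
/-- number of red neighbours in the other parts -/
noncomputable def ro {r n : ℕ} (G : SimpleGraph (Fin n)) (P : Fin n → Fin r) (y : Fin n) : ℕ :=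
  (univ.filter fun z => P z ≠ P y ∧ G.Adj y z).card

/-- partial blue copies with typical vertices -/
def Good {r n : ℕ} (k : ℕ) (G : SimpleGraph (Fin n)) (P : Fin n → Fin r) (x : Fin n) (L : ℝ)
    (m : ℕ) (f : Fin m → Fin n) : Prop :=
  Function.Injective f ∧ (∀ i : Fin m, i.val = 0 → f i = x) ∧
  (∀ i : Fin m, 1 ≤ i.val → (ro G P (f i) : ℝ) ≤ L) ∧
  (∀ i : Fin m, 1 ≤ i.val → i.val < k → (P (f i)).val + 1 = i.val) ∧
  (∀ i j : Fin m, i.val < j.val → (j.val < k ∨ (j.val = i.val + 1 ∧ k ≤ j.val)) →
    ¬ G.Adj (f i) (f j))

theorem good_snoc {r n : ℕ} (k : ℕ) (G : SimpleGraph (Fin n)) (P : Fin n → Fin r) (x : Fin n)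
    (L : ℝ) (m : ℕ) (g : Fin m → Fin n) (hg : Good k G P x L m g) (v : Fin n)
    (h1 : ∀ i, g i ≠ v) (h2 : m = 0 → v = x) (h3 : 1 ≤ m → (ro G P v : ℝ) ≤ L)
    (h4 : 1 ≤ m → m < k → (P v).val + 1 = m)
    (h5 : ∀ i : Fin m, (m < k ∨ (m = i.val + 1 ∧ k ≤ m)) → ¬ G.Adj (g i) v) :
    Good k G P x L (m + 1) (Fin.snoc (α := fun _ => Fin n) g v) := by
  obtain ⟨g1, g2, g3, g4, g5⟩ := hg
  refine ⟨?_, ?_, ?_, ?_, ?_⟩
  · intro i j
    refine Fin.lastCases ?_ (fun i => ?_) i <;> refine Fin.lastCases ?_ (fun j => ?_) j
    · intro _; rfl
    · intro h; simp only [Fin.snoc_last, Fin.snoc_castSucc] at h; exact absurd h.symm (h1 j)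
    · intro h; simp only [Fin.snoc_last, Fin.snoc_castSucc] at h; exact absurd h (h1 i)
    · intro h; simp only [Fin.snoc_castSucc] at h; rw [g1 h]
  · intro i
    refine Fin.lastCases ?_ (fun i => ?_) i
    · intro h; simp only [Fin.val_last] at h; simp only [Fin.snoc_last]; exact h2 h
    · intro h; simp only [Fin.val_castSucc] at h; simp only [Fin.snoc_castSucc]; exact g2 i h
  · intro i
    refine Fin.lastCases ?_ (fun i => ?_) i
    · intro h; simp only [Fin.val_last] at h; simp only [Fin.snoc_last]; exact h3 h
    · intro h; simp only [Fin.val_castSucc] at h; simp only [Fin.snoc_castSucc]; exact g3 i h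
  · intro i
    refine Fin.lastCases ?_ (fun i => ?_) i
    · intro h; simp only [Fin.val_last] at h ⊢; simp only [Fin.snoc_last]; exact h4 h
    · intro h; simp only [Fin.val_castSucc] at h ⊢; simp only [Fin.snoc_castSucc]; exact g4 i h
  · intro i j
    refine Fin.lastCases ?_ (fun j => ?_) j
    · refine Fin.lastCases ?_ (fun i => ?_) i
      · intro h; exact absurd h (lt_irrefl _)
      · intro _ h
        simp only [Fin.val_last, Fin.val_castSucc] at h
        simp only [Fin.snoc_last, Fin.snoc_castSucc]
        exact h5 i h
    · refine Fin.lastCases ?_ (fun i => ?_) i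
      · intro h _
        simp only [Fin.val_last, Fin.val_castSucc] at h
        exact absurd j.isLt (by omega)
      · intro h h'
        simp only [Fin.val_castSucc] at h h'
        simp only [Fin.snoc_castSucc]
        exact g5 i j h h'

open Classical in
/-- few atypical vertices -/
theorem atyp {k n : ℕ} (G : SimpleGraph (Fin n)) (P : Fin n → Fin (k - 1)) (η : ℝ) (hη : 0 < η)
    (hn : 0 < n) (hP : NearP k (η ^ 2) G P) :
    ((univ.filter fun y => ¬ ((ro G P y : ℝ) ≤ η * n)).card : ℝ) ≤ η * n := by
  have h1 := hP.2
  have hn' : (0 : ℝ) < n := by exact_mod_cast hn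
  have h2 : ∀ y, (ro G P y : ℝ) ≤ ∑ z, (if P y = P z then 1 - ad G y z else ad G y z) := by
    intro y
    unfold ro
    rw [card_filter]
    push_cast
    apply sum_le_sum
    intro z _
    unfold ad
    by_cases h3 : P y = P z
    · rw [if_pos h3, if_neg (fun h => h.1 h3.symm)]
      split_ifs <;> norm_num
    · rw [if_neg h3]
      by_cases h4 : G.Adj y z
      · rw [if_pos h4, if_pos ⟨fun h => h3 h.symm, h4⟩]
      · rw [if_neg h4, if_neg (fun h => h4 h.2)]
  set A := univ.filter fun y => ¬ ((ro G P y : ℝ) ≤ η * n) with hA
  have h3 : (A.card : ℝ) * (η * n) ≤ η ^ 2 * (n : ℝ) ^ 2 := by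
    calc (A.card : ℝ) * (η * n) = ∑ y ∈ A, η * n := by rw [sum_const, nsmul_eq_mul]
      _ ≤ ∑ y ∈ A, (ro G P y : ℝ) := by
          apply sum_le_sum
          intro y hy
          rw [hA, mem_filter] at hy
          exact (not_le.1 hy.2).le
      _ ≤ ∑ y, (ro G P y : ℝ) :=
          sum_le_sum_of_subset_of_nonneg (subset_univ _) fun _ _ _ => Nat.cast_nonneg _
      _ ≤ _ := (sum_le_sum fun y _ => h2 y).trans h1
  have h4 : 0 < η * n := by positivity
  by_contra h5
  push Not at h5
  nlinarith

end CntBAux

open CntBAux in
open Classical in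
theorem cntB : SCntB := by
  intro k t hk hkt ε hε hε3
  have hk' : (4 : ℝ) ≤ k := by exact_mod_cast hk
  set η : ℝ := ε / (4 * (k + 1)) with hη
  have hη0 : 0 < η := by positivity
  have hη1 : ((k : ℝ) + 1) * η = ε / 4 := by rw [hη]; field_simp
  have hη2 : η ≤ ε / 20 := by nlinarith
  have hη3 : η ^ 2 ≤ η := by nlinarith
  refine ⟨η ^ 2, ⌈2 * (t : ℝ) / ε⌉₊ + 1, by positivity, ?_⟩
  intro n hn G P hP x hx
  have hn0 : 0 < n := by omega
  have hn' : (0 : ℝ) < n := by exact_mod_cast hn0
  have hnt : 2 * (t : ℝ) ≤ ε * n := by
    have h1 : 2 * (t : ℝ) / ε ≤ n := by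
      refine (Nat.le_ceil _).trans ?_
      exact_mod_cast (by omega : ⌈2 * (t : ℝ) / ε⌉₊ ≤ n)
    rw [div_le_iff₀ hε] at h1
    linarith
  have hmu : mu k ≤ 1 / 3 := by
    unfold mu
    apply one_div_le_one_div_of_le (by norm_num)
    linarith
  have hat := atyp G P η hη0 hn0 hP
  set A := univ.filter fun y => ¬ ((ro G P y : ℝ) ≤ η * n) with hA
  set c : ℕ → ℝ := fun m => if m = 0 then 1 else
    if h : m - 1 < k - 1 then (bp G P ⟨m - 1, h⟩ x : ℝ) - ε * n else (1 - mu k - ε) * n with hc
  have hc0 : ∀ m, 0 ≤ c m := by
    intro m
    simp only [hc]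
    split_ifs with h1 h2
    · norm_num
    · have := hx ⟨m - 1, h2⟩
      linarith
    · have : 0 ≤ 1 - mu k - ε := by linarith
      positivity
  have hstep : ∀ m < t, ∀ g : Fin m → Fin n, Good k G P x (η * n) m g →
      c m ≤ ((univ.filter fun v => Good k G P x (η * n) (m + 1)
        (Fin.snoc (α := fun _ => Fin n) g v)).card : ℝ) := by
    intro m hm g hg
    set S := univ.filter fun v => Good k G P x (η * n) (m + 1)
        (Fin.snoc (α := fun _ => Fin n) g v) with hS
    rcases Nat.eq_zero_or_pos m with h0 | h0
    · -- the first vertex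
      subst h0
      have h1 : c 0 = 1 := by simp [hc]
      rw [h1]
      have h2 : x ∈ S := by
        rw [hS, mem_filter]
        refine ⟨mem_univ _, ?_⟩
        apply good_snoc k G P x (η * n) 0 g hg x
        · intro i; exact i.elim0
        · intro _; rfl
        · intro h; omega
        · intro h; omega
        · intro i; exact i.elim0
      exact_mod_cast card_pos.2 ⟨x, h2⟩
    · have hm0 : m ≠ 0 := by omega
      by_cases h1 : m - 1 < k - 1
      · -- vertices of the clique
        have hcm : c m = (bp G P ⟨m - 1, h1⟩ x : ℝ) - ε * n := by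
          simp only [hc]
          rw [if_neg hm0, dif_pos h1]
        rw [hcm]
        set B := univ.filter fun y => P y = ⟨m - 1, h1⟩ ∧ y ≠ x ∧ ¬ G.Adj x y with hB
        set C := (univ.filter fun i : Fin m => 1 ≤ i.val).biUnion
          (fun i => univ.filter fun z => P z ≠ P (g i) ∧ G.Adj (g i) z) with hC
        have hCc : (C.card : ℝ) ≤ k * (η * n) := by
          calc (C.card : ℝ) ≤ ∑ i ∈ (univ.filter fun i : Fin m => 1 ≤ i.val),
                ((univ.filter fun z => P z ≠ P (g i) ∧ G.Adj (g i) z).card : ℝ) := by
                exact_mod_cast card_biUnion_le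
            _ ≤ ∑ i ∈ (univ.filter fun i : Fin m => 1 ≤ i.val), η * n := by
                apply sum_le_sum
                intro i hi
                rw [mem_filter] at hi
                exact hg.2.2.1 i hi.2
            _ = ((univ.filter fun i : Fin m => 1 ≤ i.val).card : ℝ) * (η * n) := by
                rw [sum_const, nsmul_eq_mul]
            _ ≤ k * (η * n) := by
                apply mul_le_mul_of_nonneg_right _ (by positivity)
                have h2 : (univ.filter fun i : Fin m => 1 ≤ i.val).card ≤ m := by
                  refine (card_le_univ _).trans ?_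
                  rw [Fintype.card_fin]
                exact_mod_cast h2.trans (by omega)
        have hsub : B \ (A ∪ C) ⊆ S := by
          intro v hv
          rw [mem_sdiff, mem_union, not_or, hB, mem_filter] at hv
          obtain ⟨⟨-, hv1, hv2, hv3⟩, hv4, hv5⟩ := hv
          have hv6 : ∀ i : Fin m, 1 ≤ i.val → ¬ G.Adj (g i) v := by
            intro i hi hadj
            apply hv5
            rw [hC, mem_biUnion]
            refine ⟨i, by rw [mem_filter]; exact ⟨mem_univ _, hi⟩, ?_⟩
            rw [mem_filter]
            refine ⟨mem_univ _, ?_, hadj⟩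
            intro h2
            have h3 := hg.2.2.2.1 i hi (by have := i.isLt; omega)
            rw [← h2, hv1] at h3
            simp only at h3
            have := i.isLt
            omega
          have hv7 : ∀ i : Fin m, 1 ≤ i.val → g i ≠ v := by
            intro i hi h2
            have h3 := hg.2.2.2.1 i hi (by have := i.isLt; omega)
            rw [h2, hv1] at h3
            simp only at h3
            have := i.isLt
            omega
          rw [hS, mem_filter]
          refine ⟨mem_univ _, ?_⟩
          apply good_snoc k G P x (η * n) m g hg v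
          · intro i
            rcases Nat.eq_zero_or_pos i.val with h2 | h2
            · rw [hg.2.1 i h2]; exact hv2.symm
            · exact hv7 i h2
          · intro h2; omega
          · intro _
            rw [hA, mem_filter] at hv4
            push Not at hv4
            exact hv4 (mem_univ _)
          · intro _ _
            rw [hv1]
            simp only
            omega
          · intro i _
            rcases Nat.eq_zero_or_pos i.val with h2 | h2
            · rw [hg.2.1 i h2]; exact hv3
            · exact hv6 i h2
        have hcard : (B.card : ℝ) ≤ S.card + (A.card + C.card) := by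
          have h2 := card_le_card_sdiff_add_card (s := B) (t := A ∪ C)
          have h3 := card_le_card hsub
          have h4 := card_union_le A C
          exact_mod_cast (by omega : B.card ≤ S.card + (A.card + C.card))
        have hBc : (B.card : ℝ) = bp G P ⟨m - 1, h1⟩ x := rfl
        rw [hBc] at hcard
        have h5 : η * n + k * (η * n) ≤ ε * n := by
          have : η * n + k * (η * n) = ((k + 1) * η) * n := by ring
          rw [this, hη1]
          nlinarith
        linarith
      · -- vertices of the path
        have hcm : c m = (1 - mu k - ε) * n := by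
          simp only [hc]
          rw [if_neg hm0, dif_neg h1]
        rw [hcm]
        have hkm : k ≤ m := by omega
        set u := g ⟨m - 1, by omega⟩ with hu
        have hut : (ro G P u : ℝ) ≤ η * n := hg.2.2.1 ⟨m - 1, by omega⟩ (by simp only; omega)
        set B := univ.filter fun y => ¬ P y = P u with hB
        set C := univ.filter fun z => P z ≠ P u ∧ G.Adj u z with hC
        set I := univ.image g with hI
        have hIc : I.card ≤ m := by
          refine card_image_le.trans ?_
          rw [card_univ, Fintype.card_fin]
        have hsub : B \ (A ∪ C ∪ I) ⊆ S := by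
          intro v hv
          rw [mem_sdiff, mem_union, mem_union, not_or, not_or, hB, mem_filter] at hv
          obtain ⟨⟨-, hv1⟩, ⟨hv2, hv3⟩, hv4⟩ := hv
          rw [hS, mem_filter]
          refine ⟨mem_univ _, ?_⟩
          apply good_snoc k G P x (η * n) m g hg v
          · intro i h2
            apply hv4
            rw [hI, mem_image]
            exact ⟨i, mem_univ _, h2⟩
          · intro h2; omega
          · intro _
            rw [hA, mem_filter] at hv2
            push Not at hv2
            exact hv2 (mem_univ _)
          · intro _ h2; omega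
          · intro i h2 hadj
            rcases h2 with h2 | h2
            · omega
            · apply hv3
              rw [hC, mem_filter]
              have h3 : g i = u := by
                rw [hu]
                congr 1
                apply Fin.ext
                simp only
                omega
              rw [h3] at hadj
              exact ⟨mem_univ _, hv1, hadj⟩
        have hcard : (B.card : ℝ) ≤ S.card + (A.card + C.card + m) := by
          have h2 := card_le_card_sdiff_add_card (s := B) (t := A ∪ C ∪ I)
          have h3 := card_le_card hsub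
          have h4 := card_union_le (A ∪ C) I
          have h5 := card_union_le A C
          exact_mod_cast (by omega : B.card ≤ S.card + (A.card + C.card + m))
        have hCc : (C.card : ℝ) ≤ η * n := hut
        have hBc : (B.card : ℝ) = n - ((pt P (P u)).card : ℝ) := by
          have h2 := card_filter_add_card_filter_not (s := (univ : Finset (Fin n)))
            (fun y => P y = P u)
          rw [card_univ, Fintype.card_fin] at h2
          have h3 : (pt P (P u)).card + B.card = n := h2
          have h4 : ((pt P (P u)).card : ℝ) + B.card = n := by exact_mod_cast h3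
          linarith
        have hpc := (abs_le.1 (hP.1 (P u))).2
        rw [hBc] at hcard
        have hmt : (m : ℝ) ≤ t := by exact_mod_cast hm.le
        have h6 : η ^ 2 * n ≤ η * n := mul_le_mul_of_nonneg_right hη3 hn'.le
        have h7 : η * n ≤ ε / 20 * n := mul_le_mul_of_nonneg_right hη2 hn'.le
        have h8 : (1 - mu k - ε) * n = n - mu k * n - ε * n := by ring
        have h9 : 0 < ε * n := by positivity
        have h10 : ε / 20 * n = ε * n / 20 := by ring
        rw [h8]
        rw [h10] at h7
        linarith
  have hmain := greedy (Good k G P x (η * n)) c hc0 t ?_ hstep t le_rfl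
  · have hprod : ∏ i ∈ range t, c i =
        (∏ j, ((bp G P j x : ℝ) - ε * n)) * ((1 - mu k - ε) * n) ^ (t - k) := by
      obtain ⟨s, rfl⟩ : ∃ s, t = k + s := ⟨t - k, by omega⟩
      rw [prod_range_add, Nat.add_sub_cancel_left]
      congr 1
      · obtain ⟨r, hr⟩ : ∃ r, k = r + 1 := ⟨k - 1, by omega⟩
        have h1 : ∏ i ∈ range k, c i = ∏ i ∈ range (k - 1), c (i + 1) := by
          rw [hr, prod_range_succ']
          simp [hc]
        rw [h1, Finset.prod_range]
        apply prod_congr rfl
        intro i _
        simp only [hc]
        rw [if_neg (by omega), dif_pos (by simp)]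
        simp
      · rw [← Finset.card_range s, ← prod_const, Finset.card_range]
        apply prod_congr rfl
        intro i _
        simp only [hc]
        rw [if_neg (by omega), dif_neg (by omega)]
    rw [hprod] at hmain
    refine hmain.trans ?_
    unfold cx
    have h1 : (univ.filter fun f : Fin t → Fin n => Good k G P x (η * n) t f) ⊆
        ((univ : Finset (Fin t ↪ Fin n)).filter
          (fun f => ((∀ u v, (Lp k t).Adj u v → G.Adj (f u) (f v)) ∨
            (∀ u v, (Lp k t).Adj u v → Gᶜ.Adj (f u) (f v))) ∧ ∃ v, f v = x)).image
          (fun f : Fin t ↪ Fin n => (f : Fin t → Fin n)) := by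
      intro f hf
      rw [mem_filter] at hf
      obtain ⟨-, f1, f2, f3, f4, f5⟩ := hf
      rw [mem_image]
      refine ⟨⟨f, f1⟩, ?_, rfl⟩
      rw [mem_filter]
      refine ⟨mem_univ _, Or.inr ?_, ⟨⟨0, by omega⟩, f2 _ rfl⟩⟩
      intro u v huv
      rw [SimpleGraph.compl_adj]
      refine ⟨fun h => huv.ne (f1 h), ?_⟩
      simp only [Function.Embedding.coeFn_mk]
      have key : ∀ i j : Fin t, i.val < j.val → (Lp k t).Adj i j → ¬ G.Adj (f i) (f j) := by
        intro i j hij hadj
        apply f5 i j hij
        rcases hadj with h2 | h2 | h2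
        · exact Or.inl h2.2.2
        · exact Or.inr ⟨h2.1.symm, h2.2⟩
        · omega
      rcases lt_trichotomy u.val v.val with h2 | h2 | h2
      · exact key u v h2 huv
      · exact absurd (Fin.ext h2) huv.ne
      · intro h3
        exact key v u h2 huv.symm h3.symm
    exact_mod_cast (card_le_card h1).trans card_image_le
  · refine ⟨fun i => i.elim0, fun i => i.elim0, fun i => i.elim0, fun i => i.elim0, fun i => i.elim0⟩

end Pool.Agent.N412.LB
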