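import Pool.Agent.N412.LB.Stm

/-!
Subtask BONBON/CNTR (helper359): red copies of the lollipop through a vertex, on the path.
-/

set_option autoImplicit false

open Finset

namespace Pool.Agent.N412.LB

open Pool.Agent.W297.LP

namespace CntRAux

section Greedy

variable {V : Type} [Fintype V]

/-- the constraints of the first `m` steps are satisfied -/
def Ok (A : (j : ℕ) → (Fin j → V) → Finset V) (m : ℕ) (g : Fin m → V) : Prop :=
  ∀ (j : ℕ) (hj : j < m), g ⟨j, hj⟩ ∈ A j (fun i : Fin j => g ⟨i.val, i.isLt.trans hj⟩)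

open Classical in
theorem greedy (A : (j : ℕ) → (Fin j → V) → Finset V) (c : ℕ → ℝ) (hc : ∀ j, 0 ≤ c j) :
    ∀ m : ℕ, (∀ j < m, ∀ g : Fin j → V, Ok A j g → c j ≤ ((A j g).card : ℝ)) →
      ∏ j ∈ range m, c j ≤ (((univ : Finset (Fin m → V)).filter (Ok A m)).card : ℝ) := by
  intro m
  induction m with
  | zero =>
    intro _
    have h0 : (univ : Finset (Fin 0 → V)).filter (Ok A 0) = univ := by
      apply Finset.filter_true_of_mem
      intro g _ j hj
      exact absurd hj (Nat.not_lt_zero j)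
    rw [h0]
    simp
  | succ m ih =>
    intro h
    have ih' := ih (fun j hj => h j (hj.trans (Nat.lt_succ_self m)))
    rw [Finset.prod_range_succ]
    set S := (univ : Finset (Fin m → V)).filter (Ok A m) with hS
    have h1 : (∑ g ∈ S, (A m g).card) ≤
        ((univ : Finset (Fin (m+1) → V)).filter (Ok A (m+1))).card := by
      rw [← Finset.card_sigma]
      apply Finset.card_le_card_of_injOn
        (fun a => (Fin.snoc (α := fun _ => V) a.1 a.2 : Fin (m+1) → V))
      · rintro ⟨g, v⟩ hgv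
        rw [Finset.mem_coe, Finset.mem_sigma, hS, Finset.mem_filter] at hgv
        obtain ⟨⟨-, hg⟩, hv⟩ := hgv
        rw [Finset.mem_coe, Finset.mem_filter]
        refine ⟨Finset.mem_univ _, ?_⟩
        intro j hj
        have hlt : ∀ i (hi : i < m), (Fin.snoc (α := fun _ => V) g v : Fin (m+1) → V)
            ⟨i, hi.trans (Nat.lt_succ_self m)⟩ = g ⟨i, hi⟩ := by
          intro i hi
          exact Fin.snoc_castSucc (α := fun _ => V) v g ⟨i, hi⟩
        rcases Nat.lt_succ_iff_lt_or_eq.1 hj with hj' | hj'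
        · have e1 := hg j hj'
          have e2 : (fun i : Fin j => (Fin.snoc (α := fun _ => V) g v : Fin (m+1) → V)
              ⟨i.val, i.isLt.trans hj⟩) = fun i : Fin j => g ⟨i.val, i.isLt.trans hj'⟩ := by
            funext i
            exact hlt i.val (i.isLt.trans hj')
          show (Fin.snoc (α := fun _ => V) g v : Fin (m+1) → V) ⟨j, hj⟩ ∈ A j _
          rw [e2, hlt j hj']
          exact e1
        · subst hj'
          have e2 : (fun i : Fin j => (Fin.snoc (α := fun _ => V) g v : Fin (j+1) → V)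
              ⟨i.val, i.isLt.trans hj⟩) = g := by
            funext i
            exact hlt i.val i.isLt
          have e3 : (Fin.snoc (α := fun _ => V) g v : Fin (j+1) → V) ⟨j, hj⟩ = v :=
            Fin.snoc_last (α := fun _ => V) v g
          show (Fin.snoc (α := fun _ => V) g v : Fin (j+1) → V) ⟨j, hj⟩ ∈ A j _
          rw [e2, e3]
          exact hv
      · rintro ⟨g, v⟩ _ ⟨g', v'⟩ _ heq
        have heq' : (Fin.snoc (α := fun _ => V) g v : Fin (m+1) → V) =
          Fin.snoc (α := fun _ => V) g' v' := heq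
        have e1 : g = g' := by
          have := congrArg (Fin.init (α := fun _ => V)) heq'
          rwa [Fin.init_snoc, Fin.init_snoc] at this
        have e2 : v = v' := by
          have := congrFun heq' (Fin.last m)
          rwa [Fin.snoc_last, Fin.snoc_last] at this
        rw [e1, e2]
    have h2 : (S.card : ℝ) * c m ≤ ∑ g ∈ S, ((A m g).card : ℝ) := by
      rw [← nsmul_eq_mul, ← Finset.sum_const]
      apply Finset.sum_le_sum
      intro g hg
      rw [hS, Finset.mem_filter] at hg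
      exact h m (Nat.lt_succ_self m) g hg.2
    calc (∏ j ∈ range m, c j) * c m ≤ S.card * c m := mul_le_mul_of_nonneg_right ih' (hc m)
      _ ≤ ∑ g ∈ S, ((A m g).card : ℝ) := h2
      _ = ((∑ g ∈ S, (A m g).card : ℕ) : ℝ) := by push_cast; rfl
      _ ≤ _ := by exact_mod_cast h1

end Greedy

/-- adjacency in the lollipop, on natural numbers -/
def LA (k i j : ℕ) : Prop :=
  (i ≠ j ∧ i < k ∧ j < k) ∨ (i + 1 = j ∧ k ≤ j) ∨ (j + 1 = i ∧ k ≤ i)

theorem lp_adj {k t : ℕ} (i j : Fin t) : (Lp k t).Adj i j ↔ LA k i.val j.val := by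
  unfold Lp LA
  constructor
  · rintro (h | h | h)
    · exact Or.inl ⟨fun e => h.1 (Fin.ext e), h.2⟩
    · exact Or.inr (Or.inl h)
    · exact Or.inr (Or.inr h)
  · rintro (h | h | h)
    · exact Or.inl ⟨fun e => h.1 (congrArg Fin.val e), h.2⟩
    · exact Or.inr (Or.inl h)
    · exact Or.inr (Or.inr h)

/-- the order of the steps: `p, p-1, p+1, p+2, …, t-1, p-2, …, 0` -/
def od (t p j : ℕ) : ℕ :=
  if j = 0 then p else if j = 1 then p - 1 else if j ≤ t - p then p + j - 1 else t - 1 - j

/-- its inverse -/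
def ix (t p q : ℕ) : ℕ :=
  if q = p then 0 else if q + 1 = p then 1 else if p < q then q - p + 1 else t - 1 - q

theorem od_ix {t p q : ℕ} (h1 : 1 ≤ p) (h2 : p + 2 ≤ t) (hq : q < t) :
    od t p (ix t p q) = q := by
  unfold ix
  split_ifs with a b c
  · unfold od
    rw [if_pos rfl]
    omega
  · unfold od
    rw [if_neg (by omega), if_pos rfl]
    omega
  · unfold od
    rw [if_neg (by omega), if_neg (by omega), if_pos (by omega)]
    omega
  · unfold od
    rw [if_neg (by omega), if_neg (by omega), if_neg (by omega)]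
    omega

theorem ix_od {t p j : ℕ} (h1 : 1 ≤ p) (h2 : p + 2 ≤ t) (hj : j < t) :
    ix t p (od t p j) = j := by
  unfold ix od
  split_ifs <;> omega

theorem ix_lt {t p q : ℕ} (h1 : 1 ≤ p) (h2 : p + 2 ≤ t) (hq : q < t) : ix t p q < t := by
  unfold ix
  split_ifs <;> omega

theorem od_inj {t p i j : ℕ} (h1 : 1 ≤ p) (h2 : p + 2 ≤ t) (hi : i < t) (hj : j < t)
    (h : od t p i = od t p j) : i = j := by
  rw [← ix_od h1 h2 hi, ← ix_od h1 h2 hj, h]

/-- the neighbours chosen before the step `j ≥ 3` are on the same side -/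
theorem side {k t p i j : ℕ} (hk : 4 ≤ k) (h1 : k ≤ p) (h2 : p + 2 ≤ t) (hj3 : 3 ≤ j)
    (hij : i < j) (hj : j < t) (h : LA k (od t p i) (od t p j)) :
    1 ≤ i ∧ (od t p j < p → od t p i < p) ∧ (p < od t p j → p < od t p i) := by
  unfold LA od at *
  split_ifs at * <;> omega

theorem od_ne {t p j : ℕ} (h1 : 1 ≤ p) (h2 : p + 2 ≤ t) (hj3 : 1 ≤ j) (hj : j < t) :
    od t p j < p ∨ p < od t p j := by
  unfold od
  split_ifs <;> omega

theorem la_sub {k q q' : ℕ} (h : LA k q' q) : q' ∈ range k ∪ {q - 1, q + 1} := by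
  simp only [Finset.mem_union, Finset.mem_range, Finset.mem_insert, Finset.mem_singleton]
  unfold LA at h
  omega

section Main

variable {n k : ℕ}

open Classical in
/-- the admissible choices in the step `j` -/
noncomputable def AA (t p : ℕ) (G : SimpleGraph (Fin n)) (P : Fin n → Fin (k - 1)) (s : ℝ)
    (x : Fin n) (j : ℕ) (h : Fin j → Fin n) : Finset (Fin n) :=
  if j = 0 then {x} else
    univ.filter (fun v => (bp G P (P v) v : ℝ) ≤ s * n ∧ (∀ i : Fin j, h i ≠ v) ∧
      (∀ i : Fin j, LA k (od t p i) (od t p j) → G.Adj (h i) v) ∧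
      (∀ i : Fin j, i.val = 1 → od t p j < p → P v = P (h i)) ∧
      (∀ i : Fin j, i.val = 2 → p < od t p j → P v = P (h i)))

open Classical in
theorem mem_AA {t p : ℕ} {G : SimpleGraph (Fin n)} {P : Fin n → Fin (k - 1)} {s : ℝ}
    {x : Fin n} {j : ℕ} {h : Fin j → Fin n} {v : Fin n} (hj : j ≠ 0) :
    v ∈ AA t p G P s x j h ↔ (bp G P (P v) v : ℝ) ≤ s * n ∧ (∀ i : Fin j, h i ≠ v) ∧
      (∀ i : Fin j, LA k (od t p i) (od t p j) → G.Adj (h i) v) ∧
      (∀ i : Fin j, i.val = 1 → od t p j < p → P v = P (h i)) ∧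
      (∀ i : Fin j, i.val = 2 → p < od t p j → P v = P (h i)) := by
  unfold AA
  rw [if_neg hj, Finset.mem_filter]
  exact ⟨fun a => a.2, fun a => ⟨Finset.mem_univ _, a⟩⟩

open Classical in
theorem ok_zero {t p m : ℕ} {G : SimpleGraph (Fin n)} {P : Fin n → Fin (k - 1)} {s : ℝ}
    {x : Fin n} {g : Fin m → Fin n} (hg : Ok (AA t p G P s x) m g) (hm : 0 < m) :
    g ⟨0, hm⟩ = x := by
  have := hg 0 hm
  unfold AA at this
  rw [if_pos rfl, Finset.mem_singleton] at this
  exact this

theorem ok_step {t p m : ℕ} {G : SimpleGraph (Fin n)} {P : Fin n → Fin (k - 1)} {s : ℝ}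
    {x : Fin n} {g : Fin m → Fin n} (hg : Ok (AA t p G P s x) m g) (j : ℕ) (hj : j < m)
    (hj0 : j ≠ 0) :
    (bp G P (P (g ⟨j, hj⟩)) (g ⟨j, hj⟩) : ℝ) ≤ s * n ∧
    (∀ i (hi : i < j), g ⟨i, hi.trans hj⟩ ≠ g ⟨j, hj⟩) ∧
    (∀ i (hi : i < j), LA k (od t p i) (od t p j) → G.Adj (g ⟨i, hi.trans hj⟩) (g ⟨j, hj⟩)) ∧
    (∀ (hi : 1 < j), od t p j < p → P (g ⟨j, hj⟩) = P (g ⟨1, hi.trans hj⟩)) ∧
    (∀ (hi : 2 < j), p < od t p j → P (g ⟨j, hj⟩) = P (g ⟨2, hi.trans hj⟩)) := by
  have := hg j hj
  rw [mem_AA hj0] at this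
  obtain ⟨a1, a2, a3, a4, a5⟩ := this
  exact ⟨a1, fun i hi => a2 ⟨i, hi⟩, fun i hi => a3 ⟨i, hi⟩, fun hi => a4 ⟨1, hi⟩ rfl,
    fun hi => a5 ⟨2, hi⟩ rfl⟩

open Classical in
/-- few atypical vertices -/
theorem atyp {G : SimpleGraph (Fin n)} {P : Fin n → Fin (k - 1)} {s δ : ℝ} (hs : 0 < s)
    (hδ : δ ≤ s ^ 2) (hn : 0 < n) (h : NearP k δ G P) :
    ((univ.filter (fun y => ¬ (bp G P (P y) y : ℝ) ≤ s * n)).card : ℝ) ≤ s * n := by
  have hn' : (0 : ℝ) < n := by exact_mod_cast hn
  have h1 : ∀ x, (bp G P (P x) x : ℝ) ≤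
      ∑ y, (if P x = P y then 1 - ad G x y else ad G x y) := by
    intro x
    unfold bp
    rw [Finset.card_filter]
    push_cast
    apply Finset.sum_le_sum
    intro y _
    unfold ad
    by_cases c1 : P y = P x
    · rw [if_pos c1.symm]
      by_cases c2 : G.Adj x y
      · rw [if_neg (fun e => e.2.2 c2), if_pos c2]
        norm_num
      · rw [if_neg c2]
        split_ifs <;> norm_num
    · rw [if_neg (fun e => c1 e.1), if_neg (fun e => c1 e.symm)]
      split_ifs <;> norm_num
  set B := univ.filter (fun y => ¬ (bp G P (P y) y : ℝ) ≤ s * n) with hB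
  have h2 : (B.card : ℝ) * (s * n) ≤ ∑ y ∈ B, (bp G P (P y) y : ℝ) := by
    rw [← nsmul_eq_mul, ← Finset.sum_const]
    apply Finset.sum_le_sum
    intro y hy
    rw [hB, Finset.mem_filter] at hy
    exact (not_le.1 hy.2).le
  have h3 : ∑ y ∈ B, (bp G P (P y) y : ℝ) ≤ ∑ y, (bp G P (P y) y : ℝ) := by
    apply Finset.sum_le_sum_of_subset_of_nonneg (Finset.subset_univ _)
    intro i _ _
    positivity
  have h4 : ∑ y, (bp G P (P y) y : ℝ) ≤ δ * (n : ℝ) ^ 2 :=
    (Finset.sum_le_sum (fun x _ => h1 x)).trans h.2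
  have h5 : (B.card : ℝ) * (s * n) ≤ (s * n) * (s * n) := by
    have : δ * (n : ℝ) ^ 2 ≤ s ^ 2 * (n : ℝ) ^ 2 := mul_le_mul_of_nonneg_right hδ (by positivity)
    nlinarith
  exact le_of_mul_le_mul_right h5 (by positivity)

open Classical in
/-- the number of choices in the first two steps -/
theorem step_first {t p j : ℕ} {G : SimpleGraph (Fin n)} {P : Fin n → Fin (k - 1)} {s δ : ℝ}
    {x : Fin n} (hs : 0 < s) (hδ : δ ≤ s ^ 2) (hn : 0 < n) (h : NearP k δ G P) (hk : 4 ≤ k)
    (h1 : k ≤ p) (h2 : p + 2 ≤ t) (hj1 : 1 ≤ j) (hj2 : j ≤ 2) {g : Fin j → Fin n}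
    (hg : Ok (AA t p G P s x) j g) :
    (rd G x : ℝ) ≤ ((AA t p G P s x j g).card : ℝ) + s * n + 1 := by
  have ha := atyp hs hδ hn h
  set B := univ.filter (fun y => ¬ (bp G P (P y) y : ℝ) ≤ s * n) with hB
  have hx : g ⟨0, hj1⟩ = x := ok_zero hg hj1
  set w : Fin n := g ⟨j - 1, by omega⟩ with hw
  have hsub : univ.filter (fun y => G.Adj x y) ⊆ AA t p G P s x j g ∪ B ∪ {w} := by
    intro v hv
    rw [Finset.mem_filter] at hv
    by_cases hvB : v ∈ B
    · exact Finset.mem_union_left _ (Finset.mem_union_right _ hvB)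
    by_cases hvw : v = w
    · exact Finset.mem_union_right _ (Finset.mem_singleton.2 hvw)
    apply Finset.mem_union_left
    apply Finset.mem_union_left
    rw [mem_AA (by omega)]
    refine ⟨?_, ?_, ?_, ?_, ?_⟩
    · by_contra hc
      exact hvB (by rw [hB, Finset.mem_filter]; exact ⟨Finset.mem_univ _, hc⟩)
    · intro i hi
      have hi2 := i.isLt
      rcases Nat.lt_or_ge 0 i.val with h0 | h0
      · have e : i = ⟨j - 1, by omega⟩ := Fin.ext (by show i.val = j - 1; omega)
        rw [e] at hi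
        exact hvw hi.symm
      · have e : i = ⟨0, hj1⟩ := Fin.ext (by show i.val = 0; omega)
        rw [e, hx] at hi
        exact G.ne_of_adj hv.2 hi
    · intro i hLA
      have hi2 := i.isLt
      rcases Nat.lt_or_ge 0 i.val with h0 | h0
      · exfalso
        have e1 : i.val = 1 := by omega
        have e2 : j = 2 := by omega
        rw [e1, e2] at hLA
        unfold LA od at hLA
        split_ifs at hLA <;> omega
      · have e : i = ⟨0, hj1⟩ := Fin.ext (by show i.val = 0; omega)
        rw [e, hx]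
        exact hv.2
    · intro i hi hlt
      exfalso
      have hi2 := i.isLt
      have e2 : j = 2 := by omega
      rw [e2] at hlt
      unfold od at hlt
      split_ifs at hlt <;> omega
    · intro i hi
      have hi2 := i.isLt
      omega
  have hcard := (Finset.card_le_card hsub).trans (Finset.card_union_le _ _)
  have hcard2 := Finset.card_union_le (AA t p G P s x j g) B
  rw [Finset.card_singleton] at hcard
  have hcard3 : (univ.filter (fun y => G.Adj x y)).card ≤ (AA t p G P s x j g).card + B.card + 1 := by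
    omega
  have hcard4 : ((univ.filter (fun y => G.Adj x y)).card : ℝ) ≤
      ((AA t p G P s x j g).card : ℝ) + (B.card : ℝ) + 1 := by exact_mod_cast hcard3
  unfold rd
  linarith

open Classical in
/-- the number of choices in the other steps -/
theorem step_later {t p j : ℕ} {G : SimpleGraph (Fin n)} {P : Fin n → Fin (k - 1)} {s δ : ℝ}
    {x : Fin n} (hs : 0 < s) (hδ : δ ≤ s ^ 2) (hn : 0 < n) (h : NearP k δ G P) (hk : 4 ≤ k)
    (h1 : k ≤ p) (h2 : p + 2 ≤ t) (hj1 : 3 ≤ j) (hj2 : j < t) {g : Fin j → Fin n}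
    (hg : Ok (AA t p G P s x) j g) :
    (mu k - δ) * n ≤ ((AA t p G P s x j g).card : ℝ) + s * n + (k + 2) * (s * n) + t := by
  have ha := atyp hs hδ hn h
  set B := univ.filter (fun y => ¬ (bp G P (P y) y : ℝ) ≤ s * n) with hB
  -- the part
  obtain ⟨w, hw1, hw2⟩ : ∃ w : Fin (k - 1),
      (∀ i : Fin j, LA k (od t p i) (od t p j) → 1 ≤ i.val ∧ P (g i) = w) ∧
      (∀ v, P v = w → (∀ i : Fin j, i.val = 1 → od t p j < p → P v = P (g i)) ∧
        (∀ i : Fin j, i.val = 2 → p < od t p j → P v = P (g i))) := by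
    rcases od_ne (show 1 ≤ p by omega) h2 (show 1 ≤ j by omega) hj2 with hlt | hgt
    · refine ⟨P (g ⟨1, by omega⟩), ?_, ?_⟩
      · intro i hi
        obtain ⟨a1, a2, -⟩ := side hk h1 h2 hj1 i.isLt hj2 hi
        refine ⟨a1, ?_⟩
        rcases Nat.lt_or_ge 1 i.val with h3 | h3
        · exact (ok_step hg i.val i.isLt (by omega)).2.2.2.1 h3 (a2 hlt)
        · congr 2
          exact Fin.ext (by show i.val = 1; omega)
      · intro v hv
        refine ⟨fun i hi _ => ?_, fun i _ hp => absurd hp (by omega)⟩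
        rw [hv]
        congr 2
        exact Fin.ext hi.symm
    · refine ⟨P (g ⟨2, by omega⟩), ?_, ?_⟩
      · intro i hi
        obtain ⟨a1, -, a2⟩ := side hk h1 h2 hj1 i.isLt hj2 hi
        refine ⟨a1, ?_⟩
        rcases Nat.lt_or_ge 2 i.val with h3 | h3
        · exact (ok_step hg i.val i.isLt (by omega)).2.2.2.2 h3 (a2 hgt)
        · congr 2
          apply Fin.ext
          show i.val = 2
          by_contra hne
          have e1 : i.val = 1 := by omega
          have := a2 hgt
          rw [e1] at this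
          unfold od at this
          split_ifs at this <;> omega
      · intro v hv
        refine ⟨fun i _ hp => absurd hp (by omega), fun i hi _ => ?_⟩
        rw [hv]
        congr 2
        exact Fin.ext hi.symm
  set I : Finset (Fin j) := univ.filter (fun i => LA k (od t p i) (od t p j)) with hI
  set U : Finset (Fin n) := I.biUnion (fun i => univ.filter (fun v => P v = w ∧ v ≠ g i ∧
    ¬ G.Adj (g i) v)) with hU
  set X : Finset (Fin n) := univ.image g with hX
  have hIc : I.card ≤ k + 2 := by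
    have e1 : I.card ≤ (range k ∪ {od t p j - 1, od t p j + 1}).card := by
      apply Finset.card_le_card_of_injOn (fun i : Fin j => od t p i)
      · intro i hi
        rw [Finset.mem_coe, hI, Finset.mem_filter] at hi
        exact Finset.mem_coe.2 (la_sub hi.2)
      · intro i _ i' _ hii
        exact Fin.ext (od_inj (by omega) h2 (i.isLt.trans hj2) (i'.isLt.trans hj2) hii)
    have e2 := Finset.card_union_le (range k) {od t p j - 1, od t p j + 1}
    have e3 : ({od t p j - 1, od t p j + 1} : Finset ℕ).card ≤ 2 := Finset.card_le_two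
    rw [Finset.card_range] at e2
    omega
  have hUc : (U.card : ℝ) ≤ (k + 2) * (s * n) := by
    have e1 : U.card ≤ ∑ i ∈ I, (univ.filter (fun v => P v = w ∧ v ≠ g i ∧
      ¬ G.Adj (g i) v)).card := Finset.card_biUnion_le
    have e2 : (U.card : ℝ) ≤ ∑ i ∈ I, ((univ.filter (fun v => P v = w ∧ v ≠ g i ∧
      ¬ G.Adj (g i) v)).card : ℝ) := by exact_mod_cast e1
    have e3 : ∑ i ∈ I, ((univ.filter (fun v => P v = w ∧ v ≠ g i ∧
      ¬ G.Adj (g i) v)).card : ℝ) ≤ ∑ i ∈ I, (s * n) := by
      apply Finset.sum_le_sum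
      intro i hi
      rw [hI, Finset.mem_filter] at hi
      obtain ⟨b1, b2⟩ := hw1 i hi.2
      have b3 := (ok_step hg i.val i.isLt (by omega)).1
      have b4 : (bp G P (P (g i)) (g i) : ℝ) ≤ s * n := b3
      rw [b2] at b4
      exact b4
    rw [Finset.sum_const, nsmul_eq_mul] at e3
    have e4 : (I.card : ℝ) ≤ k + 2 := by exact_mod_cast hIc
    have e5 : (I.card : ℝ) * (s * n) ≤ (k + 2) * (s * n) :=
      mul_le_mul_of_nonneg_right e4 (by positivity)
    linarith
  have hXc : X.card ≤ t := by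
    have e1 : X.card ≤ (univ : Finset (Fin j)).card := Finset.card_image_le
    rw [Finset.card_univ, Fintype.card_fin] at e1
    omega
  have hsub : pt P w ⊆ AA t p G P s x j g ∪ B ∪ U ∪ X := by
    intro v hv
    unfold pt at hv
    rw [Finset.mem_filter] at hv
    by_cases hvB : v ∈ B
    · exact Finset.mem_union_left _ (Finset.mem_union_left _ (Finset.mem_union_right _ hvB))
    by_cases hvU : v ∈ U
    · exact Finset.mem_union_left _ (Finset.mem_union_right _ hvU)
    by_cases hvX : v ∈ X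
    · exact Finset.mem_union_right _ hvX
    apply Finset.mem_union_left
    apply Finset.mem_union_left
    apply Finset.mem_union_left
    have hne : ∀ i : Fin j, g i ≠ v := by
      intro i hi
      exact hvX (by rw [hX, Finset.mem_image]; exact ⟨i, Finset.mem_univ _, hi⟩)
    rw [mem_AA (by omega)]
    refine ⟨?_, hne, ?_, (hw2 v hv.2).1, (hw2 v hv.2).2⟩
    · by_contra hc
      exact hvB (by rw [hB, Finset.mem_filter]; exact ⟨Finset.mem_univ _, hc⟩)
    · intro i hi
      by_contra hc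
      apply hvU
      rw [hU, Finset.mem_biUnion]
      refine ⟨i, by rw [hI, Finset.mem_filter]; exact ⟨Finset.mem_univ _, hi⟩, ?_⟩
      rw [Finset.mem_filter]
      exact ⟨Finset.mem_univ _, hv.2, (hne i).symm, hc⟩
  have c1 := (Finset.card_le_card hsub).trans (Finset.card_union_le _ _)
  have c2 := Finset.card_union_le (AA t p G P s x j g ∪ B) U
  have c3 := Finset.card_union_le (AA t p G P s x j g) B
  have c4 : (pt P w).card ≤ (AA t p G P s x j g).card + B.card + U.card + t := by omega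
  have c5 : ((pt P w).card : ℝ) ≤ ((AA t p G P s x j g).card : ℝ) + B.card + U.card + t := by
    exact_mod_cast c4
  have c6 := h.1 w
  rw [abs_le] at c6
  linarith [c6.1]

open Classical in
/-- the copies with the position `p` at `x` -/
theorem count_pos {t p : ℕ} {G : SimpleGraph (Fin n)} {P : Fin n → Fin (k - 1)} {s δ ε : ℝ}
    {x : Fin n} (hs : 0 < s) (hδ : δ ≤ s ^ 2) (hn : 0 < n) (h : NearP k δ G P) (hk : 4 ≤ k)
    (h1 : k ≤ p) (h2 : p + 2 ≤ t) (hε2 : ε ≤ mu k) (hrd : ε * n ≤ rd G x)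
    (hfirst : s * n + 1 ≤ ε * n)
    (hlater : δ * n + s * n + (k + 2) * (s * n) + t ≤ ε * n) :
    ((rd G x : ℝ) - ε * n) ^ 2 * ((mu k - ε) * n) ^ (t - 3) ≤
      ((univ.filter (fun f : Fin t ↪ Fin n => (∀ u v, (Lp k t).Adj u v → G.Adj (f u) (f v)) ∧
        ∀ q : Fin t, q.val = p → f q = x)).card : ℝ) := by
  have hn' : (0 : ℝ) < n := by exact_mod_cast hn
  set c : ℕ → ℝ := fun j => if j = 0 then 1 else if j ≤ 2 then (rd G x : ℝ) - ε * n else
    (mu k - ε) * n with hc
  have hc0 : ∀ j, 0 ≤ c j := by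
    intro j
    rw [hc]
    dsimp only
    split_ifs
    · norm_num
    · linarith
    · have : 0 ≤ mu k - ε := by linarith
      positivity
  have hgr := greedy (AA t p G P s x) c hc0 t (by
    intro j hj g hg
    rw [hc]
    dsimp only
    split_ifs with c1 c2
    · subst c1
      unfold AA
      rw [if_pos rfl, Finset.card_singleton]
      norm_num
    · have := step_first hs hδ hn h hk h1 h2 (by omega) c2 hg
      linarith
    · have := step_later hs hδ hn h hk h1 h2 (by omega) hj hg
      linarith)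
  have hprod : ∏ j ∈ range t, c j = ((rd G x : ℝ) - ε * n) ^ 2 * ((mu k - ε) * n) ^ (t - 3) := by
    obtain ⟨m, rfl⟩ : ∃ m, t = m + 3 := ⟨t - 3, by omega⟩
    rw [Finset.prod_range_succ', Finset.prod_range_succ', Finset.prod_range_succ']
    have e1 : ∀ i ∈ range m, c (i + 1 + 1 + 1) = (mu k - ε) * n := by
      intro i _
      rw [hc]
      dsimp only
      rw [if_neg (by omega), if_neg (by omega)]
    rw [Finset.prod_congr rfl e1, Finset.prod_const, Finset.card_range]
    have e2 : c (0 + 1 + 1) = (rd G x : ℝ) - ε * n := by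
      rw [hc]; dsimp only; rw [if_neg (by omega), if_pos (by omega)]
    have e3 : c (0 + 1) = (rd G x : ℝ) - ε * n := by
      rw [hc]; dsimp only; rw [if_neg (by omega), if_pos (by omega)]
    have e4 : c 0 = 1 := by
      rw [hc]; dsimp only; rw [if_pos rfl]
    rw [e2, e3, e4, show m + 3 - 3 = m by omega]
    ring
  rw [hprod] at hgr
  refine hgr.trans ?_
  have hp1 : 1 ≤ p := by omega
  norm_cast
  -- the embedding
  have hinj : ∀ g : Fin t → Fin n, Ok (AA t p G P s x) t g → Function.Injective g := by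
    intro g hg a b hab
    by_contra hne
    rcases lt_or_gt_of_ne (fun e => hne (Fin.ext e) : a.val ≠ b.val) with hlt | hgt
    · exact (ok_step hg b.val b.isLt (by omega)).2.1 a.val hlt hab
    · exact (ok_step hg a.val a.isLt (by omega)).2.1 b.val hgt hab.symm
  have hadj : ∀ g : Fin t → Fin n, Ok (AA t p G P s x) t g → ∀ a b : Fin t,
      LA k (od t p a) (od t p b) → G.Adj (g a) (g b) := by
    intro g hg a b hab
    have hne : a.val ≠ b.val := by
      intro e
      rw [e] at hab
      unfold LA at hab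
      omega
    have hsym : LA k (od t p b) (od t p a) := by
      unfold LA at hab ⊢
      omega
    rcases lt_or_gt_of_ne hne with hlt | hgt
    · exact (ok_step hg b.val b.isLt (by omega)).2.2.1 a.val hlt hab
    · exact ((ok_step hg a.val a.isLt (by omega)).2.2.1 b.val hgt hsym).symm
  have hixinj : Function.Injective (fun q : Fin t => (⟨ix t p q, ix_lt hp1 h2 q.isLt⟩ : Fin t)) := by
    intro a b hab
    have e := congrArg Fin.val hab
    have e' : ix t p a = ix t p b := e
    apply Fin.ext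
    rw [← od_ix hp1 h2 a.isLt, ← od_ix hp1 h2 b.isLt, e']
  let F : (Fin t → Fin n) → (Fin t → Fin n) := fun g q => g ⟨ix t p q, ix_lt hp1 h2 q.isLt⟩
  rw [← Finset.card_map (s := univ.filter (fun f : Fin t ↪ Fin n =>
    (∀ u v, (Lp k t).Adj u v → G.Adj (f u) (f v)) ∧ ∀ q : Fin t, q.val = p → f q = x))
    (f := ⟨fun f : Fin t ↪ Fin n => (f : Fin t → Fin n), DFunLike.coe_injective⟩)]
  apply Finset.card_le_card_of_injOn F
  · intro g hg
    rw [Finset.mem_coe, Finset.mem_filter] at hg
    rw [Finset.mem_coe, Finset.mem_map]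
    refine ⟨⟨F g, (hinj g hg.2).comp hixinj⟩, ?_, rfl⟩
    rw [Finset.mem_filter]
    refine ⟨Finset.mem_univ _, ?_, ?_⟩
    · intro u v huv
      rw [lp_adj] at huv
      show G.Adj (g ⟨ix t p u, _⟩) (g ⟨ix t p v, _⟩)
      apply hadj g hg.2
      show LA k (od t p (ix t p u)) (od t p (ix t p v))
      rw [od_ix hp1 h2 u.isLt, od_ix hp1 h2 v.isLt]
      exact huv
    · intro q hq
      show g ⟨ix t p q, _⟩ = x
      have e : ix t p q = 0 := by unfold ix; rw [if_pos hq]
      have e2 : (⟨ix t p q, ix_lt hp1 h2 q.isLt⟩ : Fin t) = ⟨0, by omega⟩ := Fin.ext e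
      rw [e2]
      exact ok_zero hg.2 (by omega)
  · intro g _ g' _ hgg
    funext j
    have hj : od t p j < t := by
      have := j.isLt
      unfold od
      split_ifs <;> omega
    have e := congrFun hgg ⟨od t p j, hj⟩
    have e2 : (⟨ix t p (od t p j), ix_lt hp1 h2 hj⟩ : Fin t) = j := Fin.ext (ix_od hp1 h2 j.isLt)
    have e3 : g ⟨ix t p (od t p j), ix_lt hp1 h2 hj⟩ = g' ⟨ix t p (od t p j), ix_lt hp1 h2 hj⟩ := e
    rw [e2] at e3
    exact e3

end Main

end CntRAux

open CntRAux

open Classical in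
theorem cntR : SCntR := by
  intro k t hk ht ε hε hε2
  have hk' : (4 : ℝ) ≤ k := by exact_mod_cast hk
  have hmu : mu k ≤ 1 / 3 := by
    unfold mu
    rw [div_le_div_iff₀ (by linarith) (by norm_num)]
    linarith
  set s : ℝ := ε / (4 * (k + 4)) with hs
  have hs0 : 0 < s := by positivity
  have hs1 : (k + 4) * s = ε / 4 := by
    rw [hs]
    field_simp
  have hs2 : s ≤ 1 := by nlinarith
  refine ⟨s ^ 2, ⌈(2 * t) / ε⌉₊ + 1, by positivity, ?_⟩
  intro n hn G P hP x hrd
  have hn0 : 0 < n := by omega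
  have hn' : (0 : ℝ) < n := by exact_mod_cast hn0
  have hnt : 2 * (t : ℝ) ≤ ε * n := by
    have e1 : (2 * (t : ℝ)) / ε ≤ n := by
      have := Nat.le_ceil ((2 * (t : ℝ)) / ε)
      have e2 : ((⌈(2 * (t : ℝ)) / ε⌉₊ : ℕ) : ℝ) ≤ n := by
        have : ⌈(2 * (t : ℝ)) / ε⌉₊ ≤ n := by omega
        exact_mod_cast this
      linarith
    rw [div_le_iff₀ hε] at e1
    linarith
  have ht' : (6 : ℝ) ≤ t := by
    have : 6 ≤ t := by omega
    exact_mod_cast this
  have hsn : s * n ≤ ε * n / 4 := by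
    have : s ≤ ε / 4 := by nlinarith
    nlinarith
  have hfirst : s * n + 1 ≤ ε * n := by nlinarith
  have hlater : s ^ 2 * n + s * n + (k + 2) * (s * n) + t ≤ ε * n := by
    have e1 : s ^ 2 ≤ s := by nlinarith
    have e2 : s ^ 2 * n ≤ s * n := mul_le_mul_of_nonneg_right e1 hn'.le
    have e3 : (k + 4) * s * n = ε / 4 * n := by rw [hs1]
    nlinarith
  have hcount : ∀ p ∈ Finset.Ico k (t - 1),
      ((rd G x : ℝ) - ε * n) ^ 2 * ((mu k - ε) * n) ^ (t - 3) ≤
      ((univ.filter (fun f : Fin t ↪ Fin n => (∀ u v, (Lp k t).Adj u v → G.Adj (f u) (f v)) ∧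
        ∀ q : Fin t, q.val = p → f q = x)).card : ℝ) := by
    intro p hp
    rw [Finset.mem_Ico] at hp
    exact count_pos hs0 le_rfl hn0 hP hk hp.1 (by omega) hε2 hrd hfirst hlater
  have hsum : ((t : ℝ) - k - 1) * ((rd G x : ℝ) - ε * n) ^ 2 * ((mu k - ε) * n) ^ (t - 3) ≤
      ∑ p ∈ Finset.Ico k (t - 1), ((univ.filter (fun f : Fin t ↪ Fin n =>
        (∀ u v, (Lp k t).Adj u v → G.Adj (f u) (f v)) ∧
        ∀ q : Fin t, q.val = p → f q = x)).card : ℝ) := by
    have e1 := Finset.card_nsmul_le_sum (Finset.Ico k (t - 1)) _ _ hcount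
    rw [nsmul_eq_mul, Nat.card_Ico] at e1
    have e2 : ((t - 1 - k : ℕ) : ℝ) = (t : ℝ) - k - 1 := by
      rw [Nat.cast_sub (by omega), Nat.cast_sub (by omega)]
      push_cast
      ring
    rw [e2] at e1
    calc _ = ((t : ℝ) - k - 1) * (((rd G x : ℝ) - ε * n) ^ 2 * ((mu k - ε) * n) ^ (t - 3)) := by
          ring
      _ ≤ _ := e1
  refine hsum.trans ?_
  have hbi : ∑ p ∈ Finset.Ico k (t - 1), (univ.filter (fun f : Fin t ↪ Fin n =>
        (∀ u v, (Lp k t).Adj u v → G.Adj (f u) (f v)) ∧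
        ∀ q : Fin t, q.val = p → f q = x)).card ≤ cx (Lp k t) G x := by
    rw [← Finset.card_biUnion]
    · unfold cx
      apply Finset.card_le_card
      intro f hf
      rw [Finset.mem_biUnion] at hf
      obtain ⟨p, hp, hf⟩ := hf
      rw [Finset.mem_Ico] at hp
      rw [Finset.mem_filter] at hf ⊢
      refine ⟨Finset.mem_univ _, Or.inl hf.2.1, ⟨p, by omega⟩, hf.2.2 ⟨p, by omega⟩ rfl⟩
    · intro p hp p' hp' hne
      rw [Finset.mem_coe, Finset.mem_Ico] at hp hp'
      rw [Function.onFun, Finset.disjoint_left]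
      intro f hf hf'
      rw [Finset.mem_filter] at hf hf'
      have e1 := hf.2.2 ⟨p, by omega⟩ rfl
      have e2 := hf'.2.2 ⟨p', by omega⟩ rfl
      have e3 := f.injective (e1.trans e2.symm)
      exact hne (congrArg Fin.val e3)
  have : ((∑ p ∈ Finset.Ico k (t - 1), (univ.filter (fun f : Fin t ↪ Fin n =>
        (∀ u v, (Lp k t).Adj u v → G.Adj (f u) (f v)) ∧
        ∀ q : Fin t, q.val = p → f q = x)).card : ℕ) : ℝ) ≤ (cx (Lp k t) G x : ℝ) := by
    exact_mod_cast hbi
  push_cast at this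
  exact this

end Pool.Agent.N412.LB
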