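import Pool.Agent.N412.LB.Stm

/-!
Project LB, COMP: comparison with the completed colouring.
-/

set_option autoImplicit false

open Finset

namespace Pool.Agent.N412.LB

open Pool.Agent.W297.LP

namespace CompAux

theorem mu_pos (k : ℕ) (hk : 4 ≤ k) : 0 < mu k := by
  have h1 : (4 : ℝ) ≤ k := by exact_mod_cast hk
  unfold mu
  apply div_pos one_pos
  linarith

theorem mu_le (k : ℕ) (hk : 4 ≤ k) : mu k ≤ 1 / 3 := by
  have h1 : (4 : ℝ) ≤ k := by exact_mod_cast hk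
  unfold mu
  rw [div_le_div_iff₀ (by linarith) (by norm_num)]
  linarith

theorem mc_eq (k t n : ℕ) (hk : 4 ≤ k) (hkt : k < t) (G : SimpleGraph (Fin n)) :
    MC (Lp k t) G = ER (Lp k t) G + ER (Lp k t) Gᶜ := by
  classical
  unfold MC ER
  rw [Finset.filter_or]
  have hd : Disjoint
      ((univ : Finset (Fin t ↪ Fin n)).filter (fun f => ∀ u v, (Lp k t).Adj u v → G.Adj (f u) (f v)))
      ((univ : Finset (Fin t ↪ Fin n)).filter
        (fun f => ∀ u v, (Lp k t).Adj u v → Gᶜ.Adj (f u) (f v))) := by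
    rw [Finset.disjoint_left]
    intro f h1 h2
    rw [mem_filter] at h1 h2
    have h3 : (Lp k t).Adj ⟨0, by omega⟩ ⟨1, by omega⟩ := by
      refine Or.inl ⟨?_, ?_, ?_⟩
      · intro h
        simp at h
      · change 0 < k; omega
      · change 1 < k; omega
    have h4 := h1.2 _ _ h3
    have h5 := h2.2 _ _ h3
    rw [SimpleGraph.compl_adj] at h5
    exact h5.2 h4
  have h6 := Finset.card_union_of_disjoint hd
  convert h6

theorem const_lt (k : ℕ) (hk : 4 ≤ k) : ∃ M : ℕ, k < M ∧ ∀ t : ℕ, M ≤ t →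
    (t : ℝ) ^ 2 * (21 / 20 * mu k) ^ (t - 2) < (mu k / 2) ^ (k - 2) * (1 - 5 / 4 * mu k) ^ (t - k) := by
  have hm := mu_pos k hk
  have hm' := mu_le k hk
  have h1 := tendsto_pow_const_mul_const_pow_of_lt_one 2 (r := (3 / 5 : ℝ)) (by norm_num)
    (by norm_num)
  have h2 : (0 : ℝ) < (3 / 5) ^ k * (1 / (21 / 10)) ^ (k - 2) := by positivity
  obtain ⟨M, hM⟩ := Filter.eventually_atTop.1 (h1.eventually (gt_mem_nhds h2))
  refine ⟨max M (k + 1), by omega, fun t ht => ?_⟩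
  have h3 := hM t (le_trans (le_max_left _ _) ht)
  have h4 : k < t := lt_of_lt_of_le (Nat.lt_succ_self k) (le_trans (le_max_right _ _) ht)
  obtain ⟨s, rfl⟩ : ∃ s, t = s + k := ⟨t - k, by omega⟩
  have e1 : s + k - 2 = s + (k - 2) := by omega
  have e2 : s + k - k = s := by omega
  rw [e1, e2, pow_add (21 / 20 * mu k)]
  have hq : (0 : ℝ) < 1 - 5 / 4 * mu k := by linarith
  have h5 : (21 / 20 * mu k) ^ s ≤ (3 / 5 * (1 - 5 / 4 * mu k)) ^ s :=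
    pow_le_pow_left₀ (by positivity) (by linarith) s
  rw [mul_pow (3 / 5 : ℝ)] at h5
  have h6 : (21 / 20 * mu k) ^ (k - 2) = (21 / 10) ^ (k - 2) * (mu k / 2) ^ (k - 2) := by
    rw [← mul_pow]; congr 1; ring
  rw [h6]
  have h7 : ((s + k : ℕ) : ℝ) ^ 2 * (3 / 5) ^ s * (21 / 10) ^ (k - 2) < 1 := by
    rw [pow_add (3 / 5 : ℝ)] at h3
    have h8 : (0 : ℝ) < (3 / 5) ^ k := by positivity
    have h9 : (0 : ℝ) < (21 / 10) ^ (k - 2) := by positivity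
    have h10 : (1 / (21 / 10) : ℝ) ^ (k - 2) = ((21 / 10 : ℝ) ^ (k - 2))⁻¹ := by
      rw [one_div, inv_pow]
    rw [h10] at h3
    have h11 : ((s + k : ℕ) : ℝ) ^ 2 * (3 / 5) ^ s < ((21 / 10 : ℝ) ^ (k - 2))⁻¹ := by
      have : ((s + k : ℕ) : ℝ) ^ 2 * (3 / 5) ^ s * (3 / 5) ^ k <
          ((21 / 10 : ℝ) ^ (k - 2))⁻¹ * (3 / 5) ^ k := by
        calc ((s + k : ℕ) : ℝ) ^ 2 * (3 / 5) ^ s * (3 / 5) ^ k
            = ((s + k : ℕ) : ℝ) ^ 2 * ((3 / 5) ^ s * (3 / 5) ^ k) := by ring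
          _ < (3 / 5) ^ k * ((21 / 10 : ℝ) ^ (k - 2))⁻¹ := h3
          _ = ((21 / 10 : ℝ) ^ (k - 2))⁻¹ * (3 / 5) ^ k := by ring
      exact lt_of_mul_lt_mul_right this h8.le
    calc ((s + k : ℕ) : ℝ) ^ 2 * (3 / 5) ^ s * (21 / 10) ^ (k - 2)
        < ((21 / 10 : ℝ) ^ (k - 2))⁻¹ * (21 / 10) ^ (k - 2) :=
          mul_lt_mul_of_pos_right h11 h9
      _ = 1 := inv_mul_cancel₀ h9.ne'
  have h12 : (0 : ℝ) < (mu k / 2) ^ (k - 2) * (1 - 5 / 4 * mu k) ^ s := by positivity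
  calc ((s + k : ℕ) : ℝ) ^ 2 * ((21 / 20 * mu k) ^ s * ((21 / 10) ^ (k - 2) * (mu k / 2) ^ (k - 2)))
      ≤ ((s + k : ℕ) : ℝ) ^ 2 * (((3 / 5) ^ s * (1 - 5 / 4 * mu k) ^ s) *
          ((21 / 10) ^ (k - 2) * (mu k / 2) ^ (k - 2))) := by
        apply mul_le_mul_of_nonneg_left _ (by positivity)
        apply mul_le_mul_of_nonneg_right h5 (by positivity)
    _ = (((s + k : ℕ) : ℝ) ^ 2 * (3 / 5) ^ s * (21 / 10) ^ (k - 2)) *
          ((mu k / 2) ^ (k - 2) * (1 - 5 / 4 * mu k) ^ s) := by ring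
    _ < 1 * ((mu k / 2) ^ (k - 2) * (1 - 5 / 4 * mu k) ^ s) := mul_lt_mul_of_pos_right h7 h12
    _ = (mu k / 2) ^ (k - 2) * (1 - 5 / 4 * mu k) ^ s := one_mul _

theorem of_zero {n r : ℕ} (G : SimpleGraph (Fin n)) (P : Fin n → Fin r) (ha : na G P = 0)
    (hb : nb G P = 0) : ∀ x y, x ≠ y → (G.Adj x y ↔ P x = P y) := by
  classical
  intro x y hxy
  unfold na at ha
  unfold nb at hb
  rw [Finset.card_eq_zero, Finset.filter_eq_empty_iff] at ha hb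
  constructor
  · intro h
    by_contra h'
    exact hb (x := (x, y)) (mem_univ _) ⟨h', h⟩
  · intro h
    by_contra h'
    exact ha (x := (x, y)) (mem_univ _) ⟨hxy, h, h'⟩

end CompAux

open CompAux in
theorem comp (h1 : SCompR) (h2 : SCompB) : SComp := by
  intro k hk
  obtain ⟨M, hkM, hM⟩ := const_lt k hk
  refine ⟨M, fun t ht => ?_⟩
  have hkt : k < t := lt_of_lt_of_le hkM ht
  obtain ⟨N1, hN1⟩ := h1 k t hk hkt
  obtain ⟨N2, hN2⟩ := h2 k t hk hkt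
  have hc := hM t ht
  refine ⟨max (max N1 N2) 1, fun n hn G P hG => ?_⟩
  have hn1 : N1 ≤ n := le_trans (le_trans (le_max_left _ _) (le_max_left _ _)) hn
  have hn2 : N2 ≤ n := le_trans (le_trans (le_max_right _ _) (le_max_left _ _)) hn
  have hn3 : 1 ≤ n := le_trans (le_max_right _ _) hn
  have e1 := hN1 n hn1 G P hG
  have e2 := hN2 n hn2 G P hG
  have e3 : (MC (Lp k t) G : ℝ) = ER (Lp k t) G + ER (Lp k t) Gᶜ := by
    rw [mc_eq k t n hk hkt G]; push_cast; ring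
  have hnp : (0 : ℝ) < (n : ℝ) ^ (t - 2) := by
    have : (0 : ℝ) < n := by exact_mod_cast hn3
    positivity
  have e4 : (21 / 20 * mu k * (n : ℝ)) ^ (t - 2) = (21 / 20 * mu k) ^ (t - 2) * (n : ℝ) ^ (t - 2) :=
    mul_pow _ _ _
  have e5 : (mu k / 2 * (n : ℝ)) ^ (k - 2) * ((1 - 5 / 4 * mu k) * (n : ℝ)) ^ (t - k) =
      (mu k / 2) ^ (k - 2) * (1 - 5 / 4 * mu k) ^ (t - k) * (n : ℝ) ^ (t - 2) := by
    have : t - 2 = (k - 2) + (t - k) := by omega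
    rw [this, mul_pow, mul_pow, pow_add]; ring
  rw [e4] at e1
  rw [mul_assoc, e5] at e2
  have hna : (0 : ℝ) ≤ na G P := Nat.cast_nonneg _
  have hnb : (0 : ℝ) ≤ nb G P := Nat.cast_nonneg _
  have e6 : (SD t P : ℝ) + nb G P + na G P * (((mu k / 2) ^ (k - 2) * (1 - 5 / 4 * mu k) ^ (t - k) -
      (t : ℝ) ^ 2 * (21 / 20 * mu k) ^ (t - 2)) * (n : ℝ) ^ (t - 2)) ≤ MC (Lp k t) G := by
    rw [e3]
    nlinarith [e1, e2]
  have e7 : 0 < ((mu k / 2) ^ (k - 2) * (1 - 5 / 4 * mu k) ^ (t - k) -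
      (t : ℝ) ^ 2 * (21 / 20 * mu k) ^ (t - 2)) * (n : ℝ) ^ (t - 2) :=
    mul_pos (sub_pos.2 hc) hnp
  generalize ((mu k / 2) ^ (k - 2) * (1 - 5 / 4 * mu k) ^ (t - k) -
      (t : ℝ) ^ 2 * (21 / 20 * mu k) ^ (t - 2)) * (n : ℝ) ^ (t - 2) = c at e6 e7
  have e8 : 0 ≤ (na G P : ℝ) * c := mul_nonneg hna e7.le
  refine ⟨?_, fun hle => ?_⟩
  · have : (SD t P : ℝ) ≤ MC (Lp k t) G := by linarith
    exact_mod_cast this
  · have hle' : (MC (Lp k t) G : ℝ) ≤ SD t P := by exact_mod_cast hle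
    have f1 : (nb G P : ℝ) = 0 := by linarith
    have f2 : (na G P : ℝ) * c = 0 := by linarith
    have f3 : (na G P : ℝ) = 0 := by
      rcases mul_eq_zero.1 f2 with h | h
      · exact h
      · exact absurd h e7.ne'
    exact of_zero G P (by exact_mod_cast f3) (by exact_mod_cast f1)

end Pool.Agent.N412.LB
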