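import Pool.Agent.N412.LB.Stm

/-!
Project BONBON (helper412), COMPB: blue copies in a structured colouring (helper712)
-/

set_option autoImplicit false

open Finset

namespace Pool.Agent.N412.LB

open Pool.Agent.W297.LP

namespace CompBAux

/-- admissible partial assignments -/
structure Q (k : ℕ) {n : ℕ} (G : SimpleGraph (Fin n)) (P : Fin n → Fin (k - 1)) (m : ℕ)
    (g : Fin m → Fin n) : Prop where
  inj : Function.Injective g
  cli : ∀ i j : Fin m, i ≠ j → i.val < k → j.val < k → ¬ G.Adj (g i) (g j)
  pth : ∀ i j : Fin m, i.val + 1 = j.val → k ≤ j.val → ¬ G.Adj (g i) (g j)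
  dif : ∀ i j : Fin m, i.val < j.val → 2 ≤ j.val → j.val < k → P (g i) ≠ P (g j)
  sam : ∀ i j : Fin m, i.val < 2 → j.val < 2 → P (g i) = P (g j)

open Classical in
/-- number of admissible partial assignments -/
noncomputable def cnt (k : ℕ) {n : ℕ} (G : SimpleGraph (Fin n)) (P : Fin n → Fin (k - 1))
    (m : ℕ) : ℕ := (univ.filter (fun g : Fin m → Fin n => Q k G P m g)).card

variable {k n : ℕ} {G : SimpleGraph (Fin n)} {P : Fin n → Fin (k - 1)}

/-- one more vertex -/
def sn {m : ℕ} (g : Fin m → Fin n) (y : Fin n) : Fin (m + 1) → Fin n :=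
  Fin.snoc (α := fun _ => Fin n) g y

lemma sn_c {m : ℕ} (g : Fin m → Fin n) (y : Fin n) (i : Fin m) : sn g y i.castSucc = g i := by
  unfold sn
  exact Fin.snoc_castSucc (α := fun _ => Fin n) _ _ _

lemma sn_l {m : ℕ} (g : Fin m → Fin n) (y : Fin n) : sn g y (Fin.last m) = y := by
  unfold sn
  exact Fin.snoc_last (α := fun _ => Fin n) _ _

lemma sn_inj {m : ℕ} {g g' : Fin m → Fin n} {y y' : Fin n} (h : sn g y = sn g' y') :
    g = g' ∧ y = y' := by
  constructor
  · funext i
    have := congrFun h i.castSucc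
    rwa [sn_c, sn_c] at this
  · have := congrFun h (Fin.last m)
    rwa [sn_l, sn_l] at this

lemma Q_sn {m : ℕ} {g : Fin m → Fin n} (hg : Q k G P m g) {y : Fin n} (hm : 2 ≤ m)
    (h1 : ∀ i, g i ≠ y) (h2 : m < k → ∀ i, ¬ G.Adj (g i) y ∧ P (g i) ≠ P y)
    (h3 : k ≤ m → ∀ i : Fin m, i.val + 1 = m → ¬ G.Adj (g i) y) : Q k G P (m + 1) (sn g y) := by
  refine ⟨?_, ?_, ?_, ?_, ?_⟩
  · intro i j hij
    induction i using Fin.lastCases with
    | last =>
      induction j using Fin.lastCases with
      | last => rfl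
      | cast j =>
        rw [sn_l, sn_c] at hij
        exact absurd hij.symm (h1 j)
    | cast i =>
      induction j using Fin.lastCases with
      | last =>
        rw [sn_l, sn_c] at hij
        exact absurd hij (h1 i)
      | cast j =>
        rw [sn_c, sn_c] at hij
        rw [hg.inj hij]
  · intro i j hij hi hj
    induction i using Fin.lastCases with
    | last =>
      induction j using Fin.lastCases with
      | last => exact absurd rfl hij
      | cast j =>
        rw [sn_l, sn_c]
        have hi' : m < k := by simpa using hi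
        intro h
        exact (h2 hi' j).1 h.symm
    | cast i =>
      induction j using Fin.lastCases with
      | last =>
        rw [sn_l, sn_c]
        have hj' : m < k := by simpa using hj
        exact (h2 hj' i).1
      | cast j =>
        rw [sn_c, sn_c]
        refine hg.cli i j (fun h => hij (by rw [h])) ?_ ?_
        · simpa using hi
        · simpa using hj
  · intro i j hij hj
    induction i using Fin.lastCases with
    | last =>
      exfalso
      have := j.isLt
      rw [Fin.val_last] at hij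
      omega
    | cast i =>
      induction j using Fin.lastCases with
      | last =>
        rw [sn_l, sn_c]
        have e1 : i.val + 1 = m := by simpa using hij
        have e2 : k ≤ m := by simpa using hj
        exact h3 e2 i e1
      | cast j =>
        rw [sn_c, sn_c]
        refine hg.pth i j ?_ ?_
        · simpa using hij
        · simpa using hj
  · intro i j hij hj1 hj2
    induction i using Fin.lastCases with
    | last =>
      exfalso
      have := j.isLt
      rw [Fin.val_last] at hij
      omega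
    | cast i =>
      induction j using Fin.lastCases with
      | last =>
        rw [sn_l, sn_c]
        have e2 : m < k := by simpa using hj2
        exact (h2 e2 i).2
      | cast j =>
        rw [sn_c, sn_c]
        refine hg.dif i j ?_ ?_ ?_
        · simpa using hij
        · simpa using hj1
        · simpa using hj2
  · intro i j hi hj
    induction i using Fin.lastCases with
    | last =>
      exfalso
      rw [Fin.val_last] at hi
      omega
    | cast i =>
      induction j using Fin.lastCases with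
      | last =>
        exfalso
        rw [Fin.val_last] at hj
        omega
      | cast j =>
        rw [sn_c, sn_c]
        refine hg.sam i j ?_ ?_
        · simpa using hi
        · simpa using hj

open Classical in
/-- the greedy step -/
lemma step {m : ℕ} {c : ℝ}
    (h : ∀ g : Fin m → Fin n, Q k G P m g →
      c ≤ ((univ.filter (fun y => Q k G P (m + 1) (sn g y))).card : ℝ)) :
    (cnt k G P m : ℝ) * c ≤ cnt k G P (m + 1) := by
  have h1 : ((univ.filter (fun g : Fin m → Fin n => Q k G P m g)).sigma
      (fun g => univ.filter (fun y => Q k G P (m + 1) (sn g y)))).card ≤ cnt k G P (m + 1) := by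
    unfold cnt
    refine card_le_card_of_injOn (fun p => sn p.1 p.2) ?_ ?_
    · rintro ⟨g, y⟩ hp
      have hp' := mem_sigma.1 (mem_coe.1 hp)
      have h2 := (mem_filter.1 hp'.2).2
      exact mem_coe.2 (mem_filter.2 ⟨mem_univ _, h2⟩)
    · rintro ⟨g, y⟩ _ ⟨g', y'⟩ _ he
      obtain ⟨e1, e2⟩ := sn_inj he
      subst e1
      subst e2
      rfl
  rw [card_sigma] at h1
  have h2 : (cnt k G P m : ℝ) * c ≤ ∑ g ∈ univ.filter (fun g : Fin m → Fin n => Q k G P m g),
      ((univ.filter (fun y => Q k G P (m + 1) (sn g y))).card : ℝ) := by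
    unfold cnt
    rw [← nsmul_eq_mul]
    exact card_nsmul_le_sum _ _ _ fun g hg => h g (mem_filter.1 hg).2
  refine h2.trans ?_
  exact_mod_cast h1

lemma mu_pos (hk : 4 ≤ k) : 0 < mu k := by
  have h : (4 : ℝ) ≤ k := by exact_mod_cast hk
  unfold mu
  apply one_div_pos.2
  linarith

/-- a missing part -/
lemma part {m : ℕ} {g : Fin m → Fin n} (hg : Q k G P m g) (h2 : 2 ≤ m) (hm : m < k) :
    ∃ p : Fin (k - 1), ∀ i, P (g i) ≠ p := by
  classical
  by_contra hcon
  push Not at hcon
  have h1 : (univ : Finset (Fin (k - 1))) ⊆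
      ((univ : Finset (Fin m)).erase ⟨1, by omega⟩).image (fun i => P (g i)) := by
    intro p _
    obtain ⟨i, hi⟩ := hcon p
    by_cases h : i = ⟨1, by omega⟩
    · refine mem_image.2 ⟨⟨0, by omega⟩, mem_erase.2 ⟨?_, mem_univ _⟩, ?_⟩
      · intro h'
        have := congrArg Fin.val h'
        simp at this
      · rw [← hi, h]
        exact hg.sam _ _ (by simp) (by simp)
    · exact mem_image.2 ⟨i, mem_erase.2 ⟨h, mem_univ _⟩, hi⟩
  have h3 := card_le_card h1
  rw [card_univ, Fintype.card_fin] at h3
  have h4 := h3.trans card_image_le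
  rw [card_erase_of_mem (mem_univ _), card_univ, Fintype.card_fin] at h4
  omega

open Classical in
lemma rp_le {S : ℝ} {x : Fin n} {p : Fin (k - 1)} (hp : P x ≠ p)
    (h : ∑ i ∈ univ.erase (P x), (rp G P i x : ℝ) ≤ S) : (rp G P p x : ℝ) ≤ S := by
  refine le_trans ?_ h
  exact single_le_sum (f := fun i => (rp G P i x : ℝ)) (fun i _ => Nat.cast_nonneg _)
    (mem_erase.2 ⟨fun h => hp h.symm, mem_univ _⟩)

open Classical in
/-- choices for a vertex of the clique -/
lemma choA (hk : 4 ≤ k) (hS : Str k G P) {m : ℕ} {g : Fin m → Fin n} (hg : Q k G P m g)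
    (h2 : 2 ≤ m) (hm : m < k) :
    mu k / 2 * n ≤ ((univ.filter (fun y => Q k G P (m + 1) (sn g y))).card : ℝ) := by
  obtain ⟨p, hp⟩ := part hg h2 hm
  have h1 : pt P p ⊆ univ.filter (fun y => Q k G P (m + 1) (sn g y)) ∪
      (univ : Finset (Fin m)).biUnion (fun i => univ.filter (fun y => P y = p ∧ G.Adj (g i) y)) := by
    intro y hy
    have hy' : P y = p := by
      unfold pt at hy
      exact (mem_filter.1 hy).2
    by_cases h : ∃ i, G.Adj (g i) y
    · obtain ⟨i, hi⟩ := h
      exact mem_union_right _ (mem_biUnion.2 ⟨i, mem_univ _, mem_filter.2 ⟨mem_univ _, hy', hi⟩⟩)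
    · push Not at h
      refine mem_union_left _ (mem_filter.2 ⟨mem_univ _, ?_⟩)
      refine Q_sn hg h2 (fun i hi => ?_) (fun _ i => ⟨h i, ?_⟩) (fun h' => by omega)
      · exact hp i (by rw [hi, hy'])
      · rw [hy']
        exact hp i
  have h3 : (pt P p).card ≤ (univ.filter (fun y => Q k G P (m + 1) (sn g y))).card +
      ∑ i : Fin m, rp G P p (g i) :=
    (card_le_card h1).trans ((card_union_le _ _).trans (Nat.add_le_add_left card_biUnion_le _))
  have h4 : ((pt P p).card : ℝ) ≤
      ((univ.filter (fun y => Q k G P (m + 1) (sn g y))).card : ℝ) +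
      ∑ i : Fin m, (rp G P p (g i) : ℝ) := by exact_mod_cast h3
  have h5 : ∑ i : Fin m, (rp G P p (g i) : ℝ) ≤ m * (mu k / (16 * k) * n) := by
    have h6 : ∑ i : Fin m, (rp G P p (g i) : ℝ) ≤ ∑ i : Fin m, (mu k / (16 * k) * n) :=
      sum_le_sum fun i _ => rp_le (hp i) (hS.2.2 (g i))
    rw [sum_const, card_univ, Fintype.card_fin, nsmul_eq_mul] at h6
    exact h6
  have hmu := mu_pos hk
  have hk0 : (0 : ℝ) < k := by
    have : 0 < k := by omega
    exact_mod_cast this
  have h7 : (m : ℝ) * (mu k / (16 * k) * n) ≤ mu k / 16 * n := by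
    have h8 : (m : ℝ) ≤ k := by exact_mod_cast hm.le
    have h9 : (m : ℝ) * (mu k / (16 * k) * n) ≤ k * (mu k / (16 * k) * n) :=
      mul_le_mul_of_nonneg_right h8 (by positivity)
    refine h9.trans (le_of_eq ?_)
    field_simp
  have h8 := (abs_le.1 (hS.1 p)).1
  have hn : (0 : ℝ) ≤ n := Nat.cast_nonneg n
  have h9 : 0 ≤ mu k * n := by positivity
  nlinarith

open Classical in
/-- choices for a vertex of the path -/
lemma choB (hk : 4 ≤ k) (hS : Str k G P) {m t : ℕ} {g : Fin m → Fin n} (hg : Q k G P m g)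
    (hm : k ≤ m) (hmt : m ≤ t) (hn : (t : ℝ) ≤ mu k / 10 * n) :
    (1 - 5 / 4 * mu k) * n ≤ ((univ.filter (fun y => Q k G P (m + 1) (sn g y))).card : ℝ) := by
  obtain ⟨v, hv⟩ : ∃ v, v = g ⟨m - 1, by omega⟩ := ⟨_, rfl⟩
  have h1 : (univ : Finset (Fin n)) ⊆ ((univ.filter (fun y => Q k G P (m + 1) (sn g y)) ∪
      pt P (P v)) ∪ (univ.erase (P v)).biUnion
        (fun i => univ.filter (fun y => P y = i ∧ G.Adj v y))) ∪ univ.image g := by
    intro y _
    by_cases hy1 : ∃ i, g i = y
    · obtain ⟨i, hi⟩ := hy1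
      exact mem_union_right _ (mem_image.2 ⟨i, mem_univ _, hi⟩)
    push Not at hy1
    by_cases hy2 : P y = P v
    · refine mem_union_left _ (mem_union_left _ (mem_union_right _ ?_))
      unfold pt
      exact mem_filter.2 ⟨mem_univ _, hy2⟩
    by_cases hy3 : G.Adj v y
    · refine mem_union_left _ (mem_union_right _ (mem_biUnion.2 ⟨P y, ?_, ?_⟩))
      · exact mem_erase.2 ⟨hy2, mem_univ _⟩
      · exact mem_filter.2 ⟨mem_univ _, rfl, hy3⟩
    refine mem_union_left _ (mem_union_left _ (mem_union_left _ (mem_filter.2 ⟨mem_univ _, ?_⟩)))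
    refine Q_sn hg (by omega) hy1 (fun h => by omega) (fun _ i hi => ?_)
    have e : g i = v := by
      rw [hv]
      congr 1
      ext
      simp only
      omega
    rw [e]
    exact hy3
  have h2 := card_le_card h1
  rw [card_univ, Fintype.card_fin] at h2
  have h3 : n ≤ (univ.filter (fun y => Q k G P (m + 1) (sn g y))).card + (pt P (P v)).card +
      ∑ i ∈ univ.erase (P v), rp G P i v + m := by
    refine h2.trans ((card_union_le _ _).trans ?_)
    have e1 : (univ.image g).card ≤ m := by
      refine card_image_le.trans ?_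
      rw [card_univ, Fintype.card_fin]
    refine Nat.add_le_add ?_ e1
    refine (card_union_le _ _).trans ?_
    refine Nat.add_le_add (card_union_le _ _) ?_
    exact card_biUnion_le
  have h4 : (n : ℝ) ≤ ((univ.filter (fun y => Q k G P (m + 1) (sn g y))).card : ℝ) +
      ((pt P (P v)).card : ℝ) + ∑ i ∈ univ.erase (P v), (rp G P i v : ℝ) + m := by
    exact_mod_cast h3
  have h5 := hS.2.2 v
  have h6 := (abs_le.1 (hS.1 (P v))).2
  have hmu := mu_pos hk
  have hk0 : (4 : ℝ) ≤ k := by exact_mod_cast hk
  have hn0 : (0 : ℝ) ≤ n := Nat.cast_nonneg n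
  have h7 : mu k / (16 * k) * n ≤ mu k / 64 * n := by
    apply mul_le_mul_of_nonneg_right _ hn0
    apply div_le_div_of_nonneg_left hmu.le (by norm_num)
    linarith
  have h8 : (m : ℝ) ≤ t := by exact_mod_cast hmt
  have h9 : 0 ≤ mu k * n := by positivity
  nlinarith

open Classical in
lemma start (G : SimpleGraph (Fin n)) (P : Fin n → Fin (k - 1)) : na G P ≤ cnt k G P 2 := by
  unfold na cnt
  refine card_le_card_of_injOn (fun p => ![p.1, p.2]) ?_ ?_
  · rintro ⟨a, b⟩ hp
    obtain ⟨h1, h2, h3⟩ := (mem_filter.1 (mem_coe.1 hp)).2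
    refine mem_coe.2 (mem_filter.2 ⟨mem_univ _, ?_, ?_, ?_, ?_, ?_⟩)
    · intro i j hij
      fin_cases i <;> fin_cases j <;> simp_all
    · intro i j hij _ _
      fin_cases i <;> fin_cases j <;> simp_all
      intro h
      exact h3 h.symm
    · intro i j hij hj
      fin_cases i <;> fin_cases j <;> simp_all
    · intro i j _ hj
      fin_cases j <;> simp at hj
    · intro i j _ _
      fin_cases i <;> fin_cases j <;> simp_all
  · rintro ⟨a, b⟩ _ ⟨a', b'⟩ _ he
    have e1 := congrFun he 0
    have e2 := congrFun he 1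
    simp at e1 e2
    rw [e1, e2]

open Classical in
lemma finish (t : ℕ) (B : SimpleGraph (Fin n)) (hB : B = Gᶜ) :
    cnt k G P t ≤ ER (Lp k t) B := by
  unfold cnt ER
  have h1 : univ.filter (fun g : Fin t → Fin n => Q k G P t g) ⊆
      ((Finset.univ : Finset (Fin t ↪ Fin n)).filter
        (fun f => ∀ u v, (Lp k t).Adj u v → B.Adj (f u) (f v))).image
        (fun f : Fin t ↪ Fin n => (⇑f : Fin t → Fin n)) := by
    intro g hg
    have hq := (mem_filter.1 hg).2
    refine mem_image.2 ⟨⟨g, hq.inj⟩, mem_filter.2 ⟨mem_univ _, ?_⟩, rfl⟩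
    intro u v huv
    rw [hB, SimpleGraph.compl_adj]
    have hne : u ≠ v := huv.ne
    refine ⟨fun h => hne (hq.inj h), ?_⟩
    rcases huv with h | h | h
    · exact hq.cli u v h.1 h.2.1 h.2.2
    · exact hq.pth u v h.1 h.2
    · intro h'
      exact hq.pth v u h.1 h.2 h'.symm
  exact Nat.le_trans (card_le_card h1) Finset.card_image_le

end CompBAux

open CompBAux in
theorem compB : SCompB := by
  intro k t hk hkt
  refine ⟨10 * t * k, fun n hn G P hS => ?_⟩
  have hmu := mu_pos hk
  have hk0 : (4 : ℝ) ≤ k := by exact_mod_cast hk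
  have hn' : (t : ℝ) ≤ mu k / 10 * n := by
    have h1 : (10 * t * k : ℝ) ≤ n := by exact_mod_cast hn
    have h2 : mu k * (k - 1) = 1 := by
      unfold mu
      field_simp
      rw [div_self]
      linarith
    have h3 : 1 ≤ mu k * k := by nlinarith
    have h4 : mu k / 10 * (10 * t * k) ≤ mu k / 10 * n :=
      mul_le_mul_of_nonneg_left h1 (by positivity)
    have h5 : (0 : ℝ) ≤ t := Nat.cast_nonneg t
    nlinarith
  have hmu3 : mu k ≤ 1 / 3 := by
    unfold mu
    apply one_div_le_one_div_of_le (by norm_num)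
    linarith
  have hn0 : (0 : ℝ) ≤ n := Nat.cast_nonneg n
  have hA : 0 ≤ mu k / 2 * n := by positivity
  have hB : 0 ≤ (1 - 5 / 4 * mu k) * n := mul_nonneg (by linarith) hn0
  have s1 : ∀ s : ℕ, s ≤ k - 2 → (na G P : ℝ) * ((mu k / 2) * n) ^ s ≤ cnt k G P (s + 2) := by
    intro s
    induction s with
    | zero =>
      intro _
      rw [pow_zero, mul_one]
      exact_mod_cast start G P
    | succ s ih =>
      intro hs
      have h1 := ih (by omega)
      have h2 := step (k := k) (G := G) (P := P) (m := s + 2) (c := mu k / 2 * n)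
        (fun g hg => choA hk hS hg (by omega) (by omega))
      have h3 : (na G P : ℝ) * (mu k / 2 * n) ^ (s + 1) =
          ((na G P : ℝ) * (mu k / 2 * n) ^ s) * (mu k / 2 * n) := by ring
      rw [h3]
      refine (mul_le_mul_of_nonneg_right h1 hA).trans ?_
      have e : s + 1 + 2 = s + 2 + 1 := by omega
      rw [e]
      exact h2
  have s2 : ∀ s : ℕ, s ≤ t - k → (na G P : ℝ) * ((mu k / 2) * n) ^ (k - 2) *
      ((1 - 5 / 4 * mu k) * n) ^ s ≤ cnt k G P (k + s) := by
    intro s
    induction s with
    | zero =>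
      intro _
      rw [pow_zero, mul_one]
      have h1 := s1 (k - 2) le_rfl
      have e : k - 2 + 2 = k + 0 := by omega
      rw [e] at h1
      exact h1
    | succ s ih =>
      intro hs
      have h1 := ih (by omega)
      have h2 := step (k := k) (G := G) (P := P) (m := k + s) (c := (1 - 5 / 4 * mu k) * n)
        (fun g hg => choB (t := t) hk hS hg (by omega) (by omega) hn')
      have h3 : (na G P : ℝ) * (mu k / 2 * n) ^ (k - 2) * ((1 - 5 / 4 * mu k) * n) ^ (s + 1) =
          ((na G P : ℝ) * (mu k / 2 * n) ^ (k - 2) * ((1 - 5 / 4 * mu k) * n) ^ s) *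
            ((1 - 5 / 4 * mu k) * n) := by ring
      rw [h3]
      refine (mul_le_mul_of_nonneg_right h1 hB).trans ?_
      exact h2
  have h1 := s2 (t - k) le_rfl
  have e : k + (t - k) = t := by omega
  rw [e] at h1
  refine h1.trans ?_
  exact_mod_cast finish (k := k) (G := G) (P := P) t Gᶜ rfl

end Pool.Agent.N412.LB
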