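import Pool.Agent.N412.LB.Stm

/-!
Project LB (helper412), problem MP_f2e3c0_co: COMPR, red copies in a structured colouring.
-/

set_option autoImplicit false

open Finset

namespace Pool.Agent.N412.LB

open Pool.Agent.W297.LP

namespace CompRAux

open Classical in
/-- the embeddings with all values in one part -/
theorem card_A {t n r : ℕ} (ht : 0 < t) (P : Fin n → Fin r) :
    SD t P ≤ ((univ : Finset (Fin t ↪ Fin n)).filter
      (fun f => ∀ u v, P (f u) = P (f v))).card := by
  unfold SD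
  have h1 : ∑ i, ((pt P i).card).descFactorial t =
      Fintype.card (Σ i : Fin r, (Fin t ↪ {x // x ∈ pt P i})) := by
    rw [Fintype.card_sigma]
    refine Finset.sum_congr rfl fun i _ => ?_
    rw [Fintype.card_embedding_eq, Fintype.card_fin, Fintype.card_coe]
  have hm : ∀ (p : Σ i : Fin r, (Fin t ↪ {x // x ∈ pt P i})) (u : Fin t),
      P (p.2 u : Fin n) = p.1 := fun p u => (Finset.mem_filter.1 (p.2 u).2).2
  rw [h1, ← Finset.card_univ]
  refine Finset.card_le_card_of_injOn
    (fun p => (p.2.trans (Function.Embedding.subtype _) : Fin t ↪ Fin n)) ?_ ?_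
  · intro p _
    rw [Finset.mem_coe, Finset.mem_filter]
    refine ⟨Finset.mem_univ _, fun u v => ?_⟩
    show P (p.2 u : Fin n) = P (p.2 v : Fin n)
    rw [hm, hm]
  · rintro ⟨i, e⟩ _ ⟨j, e'⟩ _ h
    have h0 : ∀ u, ((e u : {x // x ∈ pt P i}) : Fin n) = (e' u : {x // x ∈ pt P j}) :=
      fun u => congrArg (fun f : Fin t ↪ Fin n => f u) h
    have hij : i = j := by
      have h2 := hm ⟨i, e⟩ ⟨0, ht⟩
      have h3 := hm ⟨j, e'⟩ ⟨0, ht⟩
      exact h2.symm.trans ((congrArg P (h0 _)).trans h3)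
    subst hij
    congr 1
    ext u
    exact congrArg Fin.val (h0 u)

open Classical in
/-- the embeddings in one part with two given values -/
theorem card_two {t n r : ℕ} (P : Fin n → Fin r) (M : ℕ) (hM : ∀ i, (pt P i).card ≤ M)
    (u v : Fin t) (a b : Fin n) :
    ((univ : Finset (Fin t ↪ Fin n)).filter
      (fun f => u ≠ v ∧ f u = a ∧ f v = b ∧ ∀ w, P (f w) = P a)).card ≤ M ^ (t - 2) := by
  by_cases huv : u = v
  · rw [Finset.filter_false_of_mem fun f _ h => h.1 huv]
    exact Nat.zero_le _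
  have hcard : Fintype.card {w : Fin t // w ≠ u ∧ w ≠ v} = t - 2 := by
    rw [Fintype.card_subtype]
    have : (univ.filter fun w : Fin t => w ≠ u ∧ w ≠ v) = (univ \ {u, v} : Finset (Fin t)) := by
      ext w
      simp
    rw [this, Finset.card_sdiff_of_subset (Finset.subset_univ _), Finset.card_univ,
      Fintype.card_fin, Finset.card_pair huv]
  have h1 : (Fintype.piFinset fun _ : {w : Fin t // w ≠ u ∧ w ≠ v} => pt P (P a)).card
      ≤ M ^ (t - 2) := by
    rw [Fintype.card_piFinset, Finset.prod_const, Finset.card_univ, hcard]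
    exact Nat.pow_le_pow_left (hM _) _
  refine le_trans ?_ h1
  refine Finset.card_le_card_of_injOn
    (fun (f : Fin t ↪ Fin n) (w : {w : Fin t // w ≠ u ∧ w ≠ v}) => f w.1) ?_ ?_
  · intro f hf
    rw [Finset.mem_coe, Finset.mem_filter] at hf
    rw [Finset.mem_coe, Fintype.mem_piFinset]
    intro w
    exact Finset.mem_filter.2 ⟨Finset.mem_univ _, hf.2.2.2.2 w.1⟩
  · intro f hf f' hf' h
    rw [Finset.mem_coe, Finset.mem_filter] at hf hf'
    ext w
    by_cases hu : w = u
    · rw [hu, hf.2.2.1, hf'.2.2.1]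
    · by_cases hv : w = v
      · rw [hv, hf.2.2.2.1, hf'.2.2.2.1]
      · exact congrArg Fin.val (congrFun h ⟨w, hu, hv⟩)

open Classical in
/-- the embeddings in one part which are not red -/
theorem card_AB {t n r : ℕ} (H : SimpleGraph (Fin t)) (G : SimpleGraph (Fin n))
    (P : Fin n → Fin r) (M : ℕ) (hM : ∀ i, (pt P i).card ≤ M) :
    ((univ : Finset (Fin t ↪ Fin n)).filter (fun f => (∀ u v, P (f u) = P (f v)) ∧
      ¬ ∀ u v, H.Adj u v → G.Adj (f u) (f v))).card ≤ t ^ 2 * na G P * M ^ (t - 2) := by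
  have hcov : ((univ : Finset (Fin t ↪ Fin n)).filter (fun f => (∀ u v, P (f u) = P (f v)) ∧
      ¬ ∀ u v, H.Adj u v → G.Adj (f u) (f v))) ⊆
      ((univ : Finset (Fin t × Fin t)) ×ˢ (univ.filter (fun p : Fin n × Fin n => p.1 ≠ p.2 ∧
        P p.1 = P p.2 ∧ ¬ G.Adj p.1 p.2))).biUnion (fun q =>
          (univ : Finset (Fin t ↪ Fin n)).filter (fun f => q.1.1 ≠ q.1.2 ∧ f q.1.1 = q.2.1 ∧
            f q.1.2 = q.2.2 ∧ ∀ w, P (f w) = P q.2.1)) := by
    intro f hf
    obtain ⟨-, hf1, hf2⟩ := Finset.mem_filter.1 hf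
    push Not at hf2
    obtain ⟨u, v, huv, hnadj⟩ := hf2
    rw [Finset.mem_biUnion]
    refine ⟨((u, v), (f u, f v)), ?_, ?_⟩
    · rw [Finset.mem_product, Finset.mem_filter]
      exact ⟨Finset.mem_univ _, Finset.mem_univ _, fun h => huv.ne (f.injective h), hf1 u v,
        hnadj⟩
    · rw [Finset.mem_filter]
      exact ⟨Finset.mem_univ _, huv.ne, rfl, rfl, fun w => hf1 w u⟩
  refine (Finset.card_le_card hcov).trans ((Finset.card_biUnion_le_card_mul _ _ _
    fun q _ => card_two P M hM q.1.1 q.1.2 q.2.1 q.2.2).trans ?_)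
  rw [Finset.card_product, Finset.card_univ, Fintype.card_prod, Fintype.card_fin, sq]
  exact le_rfl

/-- one greedy step -/
theorem step {k n : ℕ} (t : ℕ) (hk : 4 ≤ k) (G : SimpleGraph (Fin n)) (P : Fin n → Fin (k - 1))
    (hS : Str k G P) (hn : (2 * t * (k - 1) : ℝ) < n) (U V : Finset (Fin n)) (hU : U.card ≤ t)
    (hV : V.card ≤ k) (i : Fin (k - 1)) (hVi : ∀ v ∈ V, P v = i) :
    ∃ c, P c = i ∧ c ∉ U ∧ ∀ v ∈ V, v ≠ c → G.Adj v c := by
  classical
  by_contra hno
  push Not at hno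
  have hk1 : (0 : ℝ) < (k : ℝ) - 1 := by
    have : (4 : ℝ) ≤ k := by exact_mod_cast hk
    linarith
  have hmu : 0 < mu k := by
    unfold mu
    positivity
  have hkpos : (0 : ℝ) < k := by linarith
  have hsub : pt P i ⊆ U ∪ V.biUnion fun v =>
      univ.filter (fun y => P y = P v ∧ y ≠ v ∧ ¬ G.Adj v y) := by
    intro c hc
    have hci : P c = i := (Finset.mem_filter.1 hc).2
    rw [Finset.mem_union]
    by_cases hcU : c ∈ U
    · exact Or.inl hcU
    · right
      obtain ⟨v, hv, hvc, hadj⟩ := hno c hci hcU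
      rw [Finset.mem_biUnion]
      refine ⟨v, hv, ?_⟩
      rw [Finset.mem_filter]
      exact ⟨Finset.mem_univ _, by rw [hci, hVi v hv], fun h => hvc h.symm, hadj⟩
  have h1 : ((pt P i).card : ℝ) ≤ t + k * (mu k / (16 * k) * n) := by
    have h2 := (Finset.card_le_card hsub).trans (Finset.card_union_le _ _)
    have h3 : ((V.biUnion fun v =>
        univ.filter (fun y => P y = P v ∧ y ≠ v ∧ ¬ G.Adj v y)).card : ℝ) ≤
        k * (mu k / (16 * k) * n) := by
      calc ((V.biUnion fun v =>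
          univ.filter (fun y => P y = P v ∧ y ≠ v ∧ ¬ G.Adj v y)).card : ℝ)
          ≤ ∑ v ∈ V, ((univ.filter (fun y => P y = P v ∧ y ≠ v ∧ ¬ G.Adj v y)).card : ℝ) := by
            exact_mod_cast Finset.card_biUnion_le
        _ ≤ ∑ _v ∈ V, (mu k / (16 * k) * n) := by
            refine Finset.sum_le_sum fun v _ => ?_
            have h4 := hS.2.1 v
            unfold bp at h4
            convert h4
        _ = V.card * (mu k / (16 * k) * n) := by rw [Finset.sum_const, nsmul_eq_mul]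
        _ ≤ _ := by
            apply mul_le_mul_of_nonneg_right
            · exact_mod_cast hV
            · positivity
    have h5 : ((pt P i).card : ℝ) ≤ (U.card : ℝ) + ((V.biUnion fun v =>
        univ.filter (fun y => P y = P v ∧ y ≠ v ∧ ¬ G.Adj v y)).card : ℝ) := by
      exact_mod_cast h2
    have h6 : (U.card : ℝ) ≤ t := by exact_mod_cast hU
    linarith
  have h7 := (abs_le.1 (hS.1 i)).1
  have h8 : k * (mu k / (16 * k) * n) = mu k * n / 16 := by
    field_simp
  have h9 : 2 * (t : ℝ) < mu k * n := by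
    unfold mu
    rw [one_div, inv_mul_eq_div, lt_div_iff₀ hk1]
    exact hn
  have ht0 : (0 : ℝ) ≤ t := Nat.cast_nonneg t
  rw [h8] at h1
  nlinarith

/-- the greedy construction -/
theorem greedy {k n : ℕ} (t : ℕ) (hk : 4 ≤ k) (hkt : k < t) (G : SimpleGraph (Fin n))
    (P : Fin n → Fin (k - 1)) (hS : Str k G P) (hn : (2 * t * (k - 1) : ℝ) < n) (a b : Fin n)
    (hP : P a ≠ P b) (hab : G.Adj a b) : ∀ j m : ℕ, m + j = t - 2 →
    ∃ g : ℕ → Fin n, g (t - 1) = b ∧ g (t - 2) = a ∧ (∀ i, m ≤ i → i ≤ t - 2 → P (g i) = P a) ∧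
      (∀ i i', m ≤ i → i < i' → i' ≤ t - 1 → g i ≠ g i') ∧
      ∀ i i', m ≤ i → i < i' → i' ≤ t - 1 → (i' < k ∨ (i + 1 = i' ∧ k ≤ i')) →
        G.Adj (g i) (g i') := by
  classical
  intro j
  induction j with
  | zero =>
    intro m hm
    refine ⟨fun i => if i = t - 1 then b else a, if_pos rfl, if_neg (by omega), ?_, ?_, ?_⟩
    · intro i h1 h2
      show P (if i = t - 1 then b else a) = P a
      rw [if_neg (by omega)]
    · intro i i' h1 h2 h3
      show (if i = t - 1 then b else a) ≠ (if i' = t - 1 then b else a)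
      rw [if_neg (by omega), if_pos (by omega)]
      exact hab.ne
    · intro i i' h1 h2 h3 _
      show G.Adj (if i = t - 1 then b else a) (if i' = t - 1 then b else a)
      rw [if_neg (by omega), if_pos (by omega)]
      exact hab
  | succ j ih =>
    intro m hm
    obtain ⟨g, hg1, hg2, hg3, hg4, hg5⟩ := ih (m + 1) (by omega)
    obtain ⟨c, hc1, hc2, hc3⟩ := step t hk G P hS hn ((Finset.Icc (m + 1) (t - 1)).image g)
      ((insert (m + 1) (Finset.Ico (m + 1) k)).image g)
      (Finset.card_image_le.trans (by rw [Nat.card_Icc]; omega))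
      (Finset.card_image_le.trans ((Finset.card_insert_le _ _).trans (by
        rw [Nat.card_Ico]; omega))) (P a) (by
        intro v hv
        obtain ⟨i, hi, rfl⟩ := Finset.mem_image.1 hv
        rw [Finset.mem_insert, Finset.mem_Ico] at hi
        exact hg3 i (by omega) (by omega))
    have hcne : ∀ i, m < i → i ≤ t - 1 → c ≠ g i := by
      rintro i h1 h2 rfl
      exact hc2 (Finset.mem_image_of_mem _ (Finset.mem_Icc.2 ⟨h1, h2⟩))
    have hne : ∀ i, m < i → Function.update g m c i = g i := fun i h =>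
      Function.update_of_ne (by omega) _ _
    refine ⟨Function.update g m c, ?_, ?_, ?_, ?_, ?_⟩
    · rw [hne _ (by omega), hg1]
    · rw [hne _ (by omega), hg2]
    · intro i h1 h2
      rcases Nat.eq_or_lt_of_le h1 with rfl | h
      · rw [Function.update_self, hc1]
      · rw [hne i h]
        exact hg3 i h h2
    · intro i i' h1 h2 h3
      rw [hne i' (by omega)]
      rcases Nat.eq_or_lt_of_le h1 with rfl | h
      · rw [Function.update_self]
        exact hcne i' h2 h3
      · rw [hne i h]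
        exact hg4 i i' h h2 h3
    · intro i i' h1 h2 h3 h4
      rw [hne i' (by omega)]
      rcases Nat.eq_or_lt_of_le h1 with rfl | h
      · rw [Function.update_self]
        refine (hc3 (g i') ?_ ?_).symm
        · refine Finset.mem_image_of_mem _ ?_
          rw [Finset.mem_insert, Finset.mem_Ico]
          rcases h4 with h4 | h4
          · exact Or.inr ⟨h2, h4⟩
          · exact Or.inl h4.1.symm
        · exact (hcne i' h2 h3).symm
      · rw [hne i h]
        exact hg5 i i' h h2 h3 h4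

/-- a red copy through a given red pair between two parts -/
theorem exists_copy {k n : ℕ} (t : ℕ) (hk : 4 ≤ k) (hkt : k < t) (G : SimpleGraph (Fin n))
    (P : Fin n → Fin (k - 1)) (hS : Str k G P) (hn : (2 * t * (k - 1) : ℝ) < n) (a b : Fin n)
    (hP : P a ≠ P b) (hab : G.Adj a b) :
    ∃ f : Fin t ↪ Fin n, (∀ u v, (Lp k t).Adj u v → G.Adj (f u) (f v)) ∧
      f ⟨t - 2, by omega⟩ = a ∧ f ⟨t - 1, by omega⟩ = b := by
  obtain ⟨g, hg1, hg2, -, hg4, hg5⟩ := greedy t hk hkt G P hS hn a b hP hab (t - 2) 0 (by omega)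
  have hlt : ∀ u v : Fin t, u.val < v.val → (Lp k t).Adj u v → G.Adj (g u) (g v) := by
    intro u v huv h
    refine hg5 u v (Nat.zero_le _) huv (by omega) ?_
    rcases h with h | h | h
    · exact Or.inl h.2.2
    · exact Or.inr h
    · omega
  refine ⟨⟨fun u => g u, ?_⟩, ?_, hg2, hg1⟩
  · intro u v h
    by_contra hne
    rcases lt_or_gt_of_ne (fun h' => hne (Fin.ext h') : u.val ≠ v.val) with h' | h'
    · exact hg4 u v (Nat.zero_le _) h' (by omega) h
    · exact hg4 v u (Nat.zero_le _) h' (by omega) h.symm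
  · intro u v h
    show G.Adj (g u) (g v)
    rcases lt_or_gt_of_ne (fun h' => h.ne (Fin.ext h') : u.val ≠ v.val) with h' | h'
    · exact hlt u v h' h
    · exact (hlt v u h' h.symm).symm

open Classical in
/-- red copies which are not inside one part -/
theorem card_B {k n : ℕ} (t : ℕ) (hk : 4 ≤ k) (hkt : k < t) (G : SimpleGraph (Fin n))
    (P : Fin n → Fin (k - 1)) (hS : Str k G P) (hn : (2 * t * (k - 1) : ℝ) < n) :
    nb G P ≤ ((univ : Finset (Fin t ↪ Fin n)).filter (fun f => (¬ ∀ u v, P (f u) = P (f v)) ∧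
      ∀ u v, (Lp k t).Adj u v → G.Adj (f u) (f v))).card := by
  have hsub : (univ.filter (fun p : Fin n × Fin n => P p.1 ≠ P p.2 ∧ G.Adj p.1 p.2)) ⊆
      ((univ : Finset (Fin t ↪ Fin n)).filter (fun f => (¬ ∀ u v, P (f u) = P (f v)) ∧
      ∀ u v, (Lp k t).Adj u v → G.Adj (f u) (f v))).image
        (fun f => (f ⟨t - 2, by omega⟩, f ⟨t - 1, by omega⟩)) := by
    rintro ⟨a, b⟩ hp
    obtain ⟨-, hP, hab⟩ := Finset.mem_filter.1 hp
    obtain ⟨f, hf1, hf2, hf3⟩ := exists_copy t hk hkt G P hS hn a b hP hab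
    refine Finset.mem_image.2 ⟨f, Finset.mem_filter.2 ⟨Finset.mem_univ _, ?_, hf1⟩, ?_⟩
    · intro h
      have := h ⟨t - 2, by omega⟩ ⟨t - 1, by omega⟩
      rw [hf2, hf3] at this
      exact hP this
    · rw [hf2, hf3]
  exact (Finset.card_le_card hsub).trans Finset.card_image_le

end CompRAux

open CompRAux in
theorem compR : SCompR := by
  classical
  intro k t hk hkt
  refine ⟨2 * t * k + 1, fun n hn G P hS => ?_⟩
  have hk4 : (4 : ℝ) ≤ k := by exact_mod_cast hk
  have hmu : 0 < mu k := by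
    unfold mu
    have : (0 : ℝ) < (k : ℝ) - 1 := by linarith
    positivity
  have hn' : (2 * t * (k - 1) : ℝ) < n := by
    have h1 : (2 * t * k + 1 : ℝ) ≤ n := by exact_mod_cast hn
    have h2 : (0 : ℝ) ≤ t := Nat.cast_nonneg t
    nlinarith
  obtain ⟨B, hB⟩ : ∃ B : ℝ, B = (21 / 20 * mu k) * n := ⟨_, rfl⟩
  have hB0 : 0 ≤ B := by rw [hB]; positivity
  have hM : ∀ i, (pt P i).card ≤ ⌊B⌋₊ := by
    intro i
    apply Nat.le_floor
    have h1 := (abs_le.1 (hS.1 i)).2
    rw [hB]
    linarith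
  have h1 := card_A (by omega : 0 < t) P
  have h2 := card_AB (Lp k t) G P ⌊B⌋₊ hM
  have h3 := card_B t hk hkt G P hS hn'
  have h4 : (((univ : Finset (Fin t ↪ Fin n)).filter (fun f => ∀ u v, P (f u) = P (f v))).card) +
      ((univ : Finset (Fin t ↪ Fin n)).filter (fun f => (¬ ∀ u v, P (f u) = P (f v)) ∧
        ∀ u v, (Lp k t).Adj u v → G.Adj (f u) (f v))).card =
      ER (Lp k t) G +
      ((univ : Finset (Fin t ↪ Fin n)).filter (fun f => (∀ u v, P (f u) = P (f v)) ∧
        ¬ ∀ u v, (Lp k t).Adj u v → G.Adj (f u) (f v))).card := by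
    unfold ER
    rw [← Finset.card_filter_add_card_filter_not (s := (univ : Finset (Fin t ↪ Fin n)).filter
      (fun f => ∀ u v, P (f u) = P (f v))) (fun f => ∀ u v, (Lp k t).Adj u v → G.Adj (f u) (f v)),
      ← Finset.card_filter_add_card_filter_not (s := (univ : Finset (Fin t ↪ Fin n)).filter
      (fun f => ∀ u v, (Lp k t).Adj u v → G.Adj (f u) (f v))) (fun f => ∀ u v, P (f u) = P (f v)),
      Finset.filter_filter, Finset.filter_filter, Finset.filter_filter, Finset.filter_filter]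
    have e1 : ((univ : Finset (Fin t ↪ Fin n)).filter (fun f => (∀ u v, P (f u) = P (f v)) ∧
        ∀ u v, (Lp k t).Adj u v → G.Adj (f u) (f v))) =
        ((univ : Finset (Fin t ↪ Fin n)).filter (fun f =>
        (∀ u v, (Lp k t).Adj u v → G.Adj (f u) (f v)) ∧ ∀ u v, P (f u) = P (f v))) :=
      Finset.filter_congr fun f _ => and_comm
    have e2 : ((univ : Finset (Fin t ↪ Fin n)).filter (fun f => (¬ ∀ u v, P (f u) = P (f v)) ∧
        ∀ u v, (Lp k t).Adj u v → G.Adj (f u) (f v))) =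
        ((univ : Finset (Fin t ↪ Fin n)).filter (fun f =>
        (∀ u v, (Lp k t).Adj u v → G.Adj (f u) (f v)) ∧ ¬ ∀ u v, P (f u) = P (f v))) :=
      Finset.filter_congr fun f _ => and_comm
    rw [e1, e2]
    omega
  have h5 : SD t P + nb G P ≤ ER (Lp k t) G + t ^ 2 * na G P * ⌊B⌋₊ ^ (t - 2) := by
    omega
  have h6 : ((SD t P : ℕ) : ℝ) + ((nb G P : ℕ) : ℝ) ≤
      (ER (Lp k t) G : ℝ) + (t : ℝ) ^ 2 * na G P * (⌊B⌋₊ : ℝ) ^ (t - 2) := by
    exact_mod_cast h5
  have h7 : (⌊B⌋₊ : ℝ) ^ (t - 2) ≤ B ^ (t - 2) :=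
    pow_le_pow_left₀ (Nat.cast_nonneg _) (Nat.floor_le hB0) _
  have h8 : (t : ℝ) ^ 2 * na G P * (⌊B⌋₊ : ℝ) ^ (t - 2) ≤
      (t : ℝ) ^ 2 * na G P * B ^ (t - 2) :=
    mul_le_mul_of_nonneg_left h7 (by positivity)
  rw [← hB]
  linarith

end Pool.Agent.N412.LB
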