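import Pool.Agent.N412.LB.Stm

/-!
Project LB (helper412), part EMBP (helper53): copies in disjoint red cliques.
-/

set_option autoImplicit false

open Finset

namespace Pool.Agent.N412.LB

open Pool.Agent.W297.LP

namespace EmbPAux

/-- embeddings with values in a finite set -/
lemma card_emb {t n : ℕ} (S : Finset (Fin n)) (F : Finset (Fin t ↪ Fin n))
    (hF : ∀ f : Fin t ↪ Fin n, f ∈ F ↔ ∀ i, f i ∈ S) : F.card = S.card.descFactorial t := by
  classical
  have h1 : F = (Finset.univ : Finset (Fin t ↪ {x // x ∈ S})).map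
      ⟨fun g => g.trans (Function.Embedding.subtype _), by
        intro g g' h
        ext i
        have h2 := DFunLike.congr_fun h i
        simp only [Function.Embedding.trans_apply, Function.Embedding.subtype_apply] at h2
        rw [h2]⟩ := by
    ext f
    rw [hF, Finset.mem_map]
    constructor
    · intro h
      refine ⟨⟨fun i => ⟨f i, h i⟩, fun a b hab => f.injective (Subtype.ext_iff.1 hab)⟩,
        Finset.mem_univ _, ?_⟩
      ext i
      rfl
    · rintro ⟨g, -, rfl⟩ i
      exact (g i).2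
  rw [h1, Finset.card_map, Finset.card_univ, Fintype.card_embedding_eq, Fintype.card_fin,
    Fintype.card_coe]

/-- a blue copy of the clique does not exist -/
lemma no_blue {k t n : ℕ} (hk : 4 ≤ k) (ht : k < t) {G : SimpleGraph (Fin n)}
    {P : Fin n → Fin (k - 1)} (hG : ∀ x y, x ≠ y → (G.Adj x y ↔ P x = P y)) (f : Fin t ↪ Fin n)
    (h : ∀ u v, (Lp k t).Adj u v → Gᶜ.Adj (f u) (f v)) : False := by
  have hinj : Function.Injective fun i : Fin k => P (f ⟨i.1, i.2.trans ht⟩) := by
    intro i j hij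
    by_contra hne
    have hne' : (⟨i.1, i.2.trans ht⟩ : Fin t) ≠ ⟨j.1, j.2.trans ht⟩ := by
      intro h1
      exact hne (Fin.ext (Fin.mk.inj_iff.1 h1))
    have h1 := h ⟨i.1, i.2.trans ht⟩ ⟨j.1, j.2.trans ht⟩ (Or.inl ⟨hne', i.2, j.2⟩)
    rw [SimpleGraph.compl_adj] at h1
    exact h1.2 ((hG _ _ h1.1).2 hij)
  have h2 := Fintype.card_le_of_injective _ hinj
  rw [Fintype.card_fin, Fintype.card_fin] at h2
  omega

/-- a red copy is an embedding into one part -/
lemma red_iff {k t n : ℕ} (hk : 4 ≤ k) (ht : k < t) {G : SimpleGraph (Fin n)}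
    {P : Fin n → Fin (k - 1)} (hG : ∀ x y, x ≠ y → (G.Adj x y ↔ P x = P y)) (f : Fin t ↪ Fin n) :
    (∀ u v, (Lp k t).Adj u v → G.Adj (f u) (f v)) ↔
      ∀ i, P (f i) = P (f ⟨0, (Nat.zero_lt_of_lt ht)⟩) := by
  constructor
  · intro h
    have key : ∀ m : ℕ, ∀ hm : m < t, P (f ⟨m, hm⟩) = P (f ⟨0, (Nat.zero_lt_of_lt ht)⟩) := by
      intro m
      induction m with
      | zero => intro _; rfl
      | succ m ih =>
        intro hm
        have hadj : (Lp k t).Adj ⟨m, by omega⟩ ⟨m + 1, hm⟩ := by
          by_cases h1 : m + 1 < k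
          · refine Or.inl ⟨fun h2 => ?_, (show m < k by omega), h1⟩
            have h3 := Fin.mk.inj_iff.1 h2
            omega
          · exact Or.inr (Or.inl ⟨rfl, (show k ≤ m + 1 by omega)⟩)
        have h4 := h _ _ hadj
        rw [← ih (by omega)]
        exact ((hG _ _ h4.ne).1 h4).symm
    intro i
    exact key i.1 i.2
  · intro h u v huv
    exact (hG _ _ (f.injective.ne huv.ne)).2 ((h u).trans (h v).symm)

end EmbPAux

open EmbPAux in
theorem embP : SEmbP := by
  classical
  intro k t n hk ht G P hG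
  unfold MC SD
  set s0 : Fin t := ⟨0, (Nat.zero_lt_of_lt ht)⟩ with hs0
  rw [Finset.card_eq_sum_card_fiberwise (f := fun f : Fin t ↪ Fin n => P (f s0))
    (t := (Finset.univ : Finset (Fin (k - 1)))) (fun _ _ => Finset.mem_coe.2 (Finset.mem_univ _))]
  refine Finset.sum_congr rfl fun c _ => ?_
  refine card_emb (pt P c) _ fun f => ?_
  rw [Finset.mem_filter, Finset.mem_filter]
  constructor
  · rintro ⟨⟨-, h1⟩, h2⟩ i
    rcases h1 with h1 | h1
    · have h3 := (red_iff hk ht hG f).1 h1 i
      unfold pt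
      rw [Finset.mem_filter]
      exact ⟨Finset.mem_univ _, h3.trans h2⟩
    · exact (no_blue hk ht hG f h1).elim
  · intro h
    have h' : ∀ i, P (f i) = c := fun i => by
      have h1 := h i
      unfold pt at h1
      rw [Finset.mem_filter] at h1
      exact h1.2
    exact ⟨⟨Finset.mem_univ _, Or.inl ((red_iff hk ht hG f).2 fun i => (h' i).trans (h' _).symm)⟩,
      h' _⟩

end Pool.Agent.N412.LB
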