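import Pool.Agent.N412.LB.Stm

/-!
BONBON/FIN (helper412): the final assembly from the parts.
-/

set_option autoImplicit false

open Finset

namespace Pool.Agent.N412.LB

open Pool.Agent.W297.LP

namespace FinAux

theorem mu_pos {k : ℕ} (hk : 4 ≤ k) : 0 < mu k := by
  have : (4 : ℝ) ≤ k := by exact_mod_cast hk
  unfold mu
  apply one_div_pos.2
  linarith

theorem ker_ad {n : ℕ} (G : SimpleGraph (Fin n)) : Ker (ad G) where
  symm x y := by
    unfold ad
    by_cases h : G.Adj x y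
    · rw [if_pos h, if_pos h.symm]
    · rw [if_neg h, if_neg fun h' => h h'.symm]
  zo x y := by
    unfold ad
    by_cases h : G.Adj x y
    · rw [if_pos h]; exact Or.inr rfl
    · rw [if_neg h]; exact Or.inl rfl

/-- the completed graph of a partition -/
def cg {n r : ℕ} (P : Fin n → Fin r) : SimpleGraph (Fin n) where
  Adj x y := x ≠ y ∧ P x = P y
  symm := ⟨fun _ _ h => ⟨h.1.symm, h.2.symm⟩⟩
  loopless := ⟨fun _ h => h.1 rfl⟩

theorem opt_compl (hInv : SInv) {t n : ℕ} {H : SimpleGraph (Fin t)} {G : SimpleGraph (Fin n)}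
    (h : Opt H G) : Opt H Gᶜ := by
  intro G'
  rw [(hInv t n H G G').1]
  exact h G'

theorem exists_opt {t n : ℕ} (H : SimpleGraph (Fin t)) : ∃ G : SimpleGraph (Fin n), Opt H G := by
  have hne : (Set.range (fun G : SimpleGraph (Fin n) => MC H G)).Nonempty := ⟨_, ⊥, rfl⟩
  obtain ⟨G, hG⟩ := Nat.sInf_mem hne
  refine ⟨G, fun G' => ?_⟩
  have h1 := Nat.sInf_le (s := Set.range (fun G : SimpleGraph (Fin n) => MC H G)) ⟨G', rfl⟩
  rw [← hG] at h1
  exact h1

/-- the partition from `Near` -/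
theorem nearP_of {k n : ℕ} {d : ℝ} (hn : 0 < n) {G : SimpleGraph (Fin n)}
    (h : Near k d (ad G)) : ∃ P, NearP k d G P := by
  classical
  obtain ⟨P, h1, h2⟩ := h
  have hn' : (0 : ℝ) < (n : ℝ) := by exact_mod_cast hn
  refine ⟨P, fun i => ?_, ?_⟩
  · have h3 := h1 i
    unfold ms at h3
    rw [Fintype.card_fin] at h3
    have e1 : ((pt P i).card : ℝ) - mu k * n =
        (((univ.filter (fun x => P x = i)).card : ℝ) / n - mu k) * n := by
      rw [sub_mul, div_mul_cancel₀ _ hn'.ne']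
      congr 2
    rw [e1, abs_mul, abs_of_pos hn']
    exact mul_le_mul_of_nonneg_right h3 hn'.le
  · rw [Fintype.card_fin] at h2
    convert h2 using 5

theorem nearP_of_co {k n : ℕ} {d : ℝ} (hn : 0 < n) (hd : 1 ≤ d * n) {G : SimpleGraph (Fin n)}
    (h : Near k d (co (ad G))) : ∃ P, NearP k (2 * d) Gᶜ P := by
  classical
  obtain ⟨P, h1, h2⟩ := h
  have hn' : (0 : ℝ) < (n : ℝ) := by exact_mod_cast hn
  refine ⟨P, fun i => ?_, ?_⟩
  · have h3 := h1 i
    unfold ms at h3
    rw [Fintype.card_fin] at h3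
    have e1 : ((pt P i).card : ℝ) - mu k * n =
        (((univ.filter (fun x => P x = i)).card : ℝ) / n - mu k) * n := by
      rw [sub_mul, div_mul_cancel₀ _ hn'.ne']
      congr 2
    rw [e1, abs_mul, abs_of_pos hn']
    refine (mul_le_mul_of_nonneg_right h3 hn'.le).trans ?_
    nlinarith
  · rw [Fintype.card_fin] at h2
    have hpt : ∀ x y, (if P x = P y then 1 - ad Gᶜ x y else ad Gᶜ x y) ≤
        (if P x = P y then 1 - co (ad G) x y else co (ad G) x y) + (if x = y then 1 else 0) := by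
      intro x y
      by_cases hxy : x = y
      · subst hxy
        rw [if_pos rfl, if_pos rfl, if_pos rfl]
        have e1 : ad Gᶜ x x = 0 := by
          unfold ad
          rw [if_neg (SimpleGraph.irrefl _)]
        have e2 : co (ad G) x x = 1 := by
          unfold co ad
          rw [if_neg (SimpleGraph.irrefl _)]
          ring
        rw [e1, e2]
        norm_num
      · rw [if_neg hxy, add_zero]
        have e1 : ad Gᶜ x y = co (ad G) x y := by
          unfold co ad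
          rw [SimpleGraph.compl_adj]
          by_cases h : G.Adj x y
          · rw [if_neg (fun h' => h'.2 h), if_pos h]; ring
          · rw [if_pos ⟨hxy, h⟩, if_neg h]; ring
        rw [e1]
    have hsum := sum_le_sum fun (x : Fin n) (_ : x ∈ univ) =>
      sum_le_sum fun (y : Fin n) (_ : y ∈ univ) => hpt x y
    simp only [sum_add_distrib, sum_ite_eq, mem_univ, if_true, sum_const, card_univ,
      Fintype.card_fin, nsmul_eq_mul, mul_one] at hsum
    have h3 : (∑ x : Fin n, ∑ y : Fin n,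
        (if P x = P y then 1 - co (ad G) x y else co (ad G) x y)) ≤ d * (n : ℝ) ^ 2 := by
      convert h2 using 5
    have h4 : (n : ℝ) ≤ d * (n : ℝ) ^ 2 := by nlinarith
    have h5 : (∑ x : Fin n, ∑ y : Fin n,
        (if P x = P y then 1 - ad Gᶜ x y else ad Gᶜ x y)) ≤ 2 * d * (n : ℝ) ^ 2 := by
      linarith
    convert h5 using 5

end FinAux

open FinAux

theorem mainB (hStab : SStab2) (hLpf : SLpf) (hHomc : SHomc) (hUpb : SUpb) (hPat : SPat)
    (hRep : SRep) (hComp : SComp) (hEmb : SEmbP) (hBal : SBal) (hIso : SIso) (hInv : SInv) :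
    SMainB := by
  intro k hk
  obtain ⟨N0, hStab⟩ := hStab k hk
  obtain ⟨M1, hPat⟩ := hPat k hk
  obtain ⟨δ2, N2, hδ2, hRep⟩ := hRep k hk
  obtain ⟨M2, hComp⟩ := hComp k hk
  refine ⟨max (k + 1) (max (N0 + k) (max M1 M2)), fun t ht => ?_⟩
  have ht1 : k < t := lt_of_lt_of_le (Nat.lt_succ_self k) ((le_max_left _ _).trans ht)
  have ht2 : N0 + k ≤ t := (le_max_left _ _).trans ((le_max_right _ _).trans ht)
  have ht3 : M1 ≤ t := (le_max_left _ _).trans ((le_max_right _ _).trans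
    ((le_max_right _ _).trans ht))
  have ht4 : M2 ≤ t := (le_max_right _ _).trans ((le_max_right _ _).trans
    ((le_max_right _ _).trans ht))
  obtain ⟨hcon, hchr, -⟩ := hLpf k t hk ht1
  refine ⟨hcon, k - 1, ?_, ?_⟩
  · rw [hchr]
    congr 1
    omega
  have hm := mu_pos hk
  obtain ⟨T, hT, hHom⟩ := hHomc k t hk ht1
  obtain ⟨δ1, N1, hδ1, hPat⟩ := hPat t ht3
  obtain ⟨N3, hComp⟩ := hComp t ht4
  obtain ⟨N4, hBal⟩ := hBal k t hk (by omega)
  obtain ⟨δ, hδdef⟩ : ∃ δ : ℝ, δ = min δ1 δ2 / 2 := ⟨_, rfl⟩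
  have hδ : 0 < δ := by rw [hδdef]; exact half_pos (lt_min hδ1 hδ2)
  have hδa : 2 * δ ≤ δ1 := by
    have := min_le_left δ1 δ2
    linarith
  have hδb : 2 * δ ≤ δ2 := by
    have := min_le_right δ1 δ2
    linarith
  obtain ⟨η, n0, hη, hStab⟩ := hStab T (by omega) δ hδ
  obtain ⟨N5, hUpb⟩ := hUpb k t hk ht1 (η / 2) (by linarith)
  -- monotonicity of NearP
  have hmono : ∀ {n : ℕ} {d d' : ℝ} (G : SimpleGraph (Fin n)) (P : Fin n → Fin (k - 1)), d ≤ d' →
      NearP k d G P → NearP k d' G P := by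
    intro n d d' G P hdd h
    refine ⟨fun i => (h.1 i).trans (mul_le_mul_of_nonneg_right hdd (Nat.cast_nonneg _)),
      h.2.trans (mul_le_mul_of_nonneg_right hdd (by positivity))⟩
  obtain ⟨N6, hN6⟩ := exists_nat_ge (4 * (t : ℝ) ^ 2 / η)
  obtain ⟨N7, hN7⟩ := exists_nat_ge (1 / δ)
  refine ⟨max 1 (max n0 (max N1 (max N2 (max N3 (max N4 (max N5 (max N6 N7))))))), fun n hn => ?_⟩
  simp only [max_le_iff] at hn
  obtain ⟨hn1, hn2, hn3, hn4, hn5, hn6, hn7, hn8, hn9⟩ := hn
  have hn' : (0 : ℝ) < (n : ℝ) := by exact_mod_cast hn1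
  -- the structure of optimal colourings close to the Turan colouring
  have key0 : ∀ (G : SimpleGraph (Fin n)) (P : Fin n → Fin (k - 1)), Opt (Lp k t) G →
      NearP k (2 * δ) G P → Nonempty (Gᶜ ≃g SimpleGraph.turanGraph n (k - 1)) := by
    intro G P hopt hP
    have h1 := hPat n hn3 G P hopt (hmono G P hδa hP)
    obtain ⟨P', hP'⟩ := hRep n hn4 G P (hmono G P hδb hP) h1
    obtain ⟨-, h2⟩ := hComp n hn5 G P' hP'
    have hcg : ∀ Q : Fin n → Fin (k - 1), MC (Lp k t) (cg Q) = SD t Q := by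
      intro Q
      exact hEmb k t n hk ht1 (cg Q) Q fun x y hxy => ⟨fun h => h.2, fun h => ⟨hxy, h⟩⟩
    have h3 : ∀ x y, x ≠ y → (G.Adj x y ↔ P' x = P' y) := by
      apply h2
      rw [← hcg P']
      exact hopt _
    have h4 : MC (Lp k t) G = SD t P' := hEmb k t n hk ht1 G P' h3
    have h5 : ∀ i j, (pt P' i).card ≤ (pt P' j).card + 1 := by
      apply hBal n hn6 P' hP'.1
      intro Q
      rw [← h4, ← hcg Q]
      exact hopt _
    exact hIso (k - 1) n (by omega) P' h5 G h3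
  have key : ∀ G : SimpleGraph (Fin n), Opt (Lp k t) G →
      (Nonempty (G ≃g SimpleGraph.turanGraph n (k - 1)) ∨
        Nonempty (Gᶜ ≃g SimpleGraph.turanGraph n (k - 1))) := by
    intro G hopt
    obtain ⟨Gu, hGu⟩ := hUpb n hn7
    have h1 := hHom n hn1 G
    have h2 : (MC (Lp k t) G : ℝ) ≤ MC (Lp k t) Gu := by exact_mod_cast hopt Gu
    have h3 : 2 * (t : ℝ) ^ 2 * (n : ℝ) ^ (t - 1) ≤ η / 2 * (n : ℝ) ^ t := by
      have e1 : (n : ℝ) ^ t = (n : ℝ) ^ (t - 1) * n := by
        rw [← pow_succ]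
        congr 1
        omega
      have e2 : 4 * (t : ℝ) ^ 2 ≤ η * n := by
        have e3 : 4 * (t : ℝ) ^ 2 / η ≤ n := hN6.trans (by exact_mod_cast hn8)
        rw [div_le_iff₀ hη] at e3
        linarith
      have e4 : 0 ≤ (n : ℝ) ^ (t - 1) := by positivity
      rw [e1]
      nlinarith
    have h4 : (lol (ad G) T + lol (co (ad G)) T) * (n : ℝ) ^ t ≤
        (mu k ^ (t - 1) + η) * (n : ℝ) ^ t := by
      have e5 : (mu k ^ (t - 1) + η) * (n : ℝ) ^ t =
        (mu k ^ (t - 1) + η / 2) * (n : ℝ) ^ t + η / 2 * (n : ℝ) ^ t := by ring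
      linarith
    have h5 := le_of_mul_le_mul_right h4 (by positivity)
    have h6 : tot T + (k - 1) = t - 1 := by omega
    rw [← h6] at h5
    rcases hStab (Fin n) (ad G) (ker_ad G) (by rw [Fintype.card_fin]; exact hn2) h5 with hN | hN
    · obtain ⟨P, hP⟩ := nearP_of hn1 hN
      exact Or.inr (key0 G P hopt (hmono G P (by linarith) hP))
    · have h7 : 1 ≤ δ * n := by
        have e3 : 1 / δ ≤ n := hN7.trans (by exact_mod_cast hn9)
        rw [div_le_iff₀ hδ] at e3
        linarith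
      obtain ⟨P, hP⟩ := nearP_of_co hn1 h7 hN
      have h8 := key0 Gᶜ P (opt_compl hInv hopt) hP
      rw [compl_compl] at h8
      exact Or.inl h8
  intro G
  refine ⟨key G, fun h => ?_⟩
  obtain ⟨G0, hG0⟩ := exists_opt (n := n) (Lp k t)
  have e1 : ∀ G1 : SimpleGraph (Fin n), (Nonempty (G1 ≃g SimpleGraph.turanGraph n (k - 1)) ∨
        Nonempty (G1ᶜ ≃g SimpleGraph.turanGraph n (k - 1))) →
      MC (Lp k t) G1 = MC (Lp k t) (SimpleGraph.turanGraph n (k - 1)) := by
    intro G1 h1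
    rcases h1 with h1 | h1
    · exact (hInv t n (Lp k t) G1 _).2 h1
    · rw [← (hInv t n (Lp k t) G1 G1).1]
      exact (hInv t n (Lp k t) G1ᶜ _).2 h1
  intro G'
  rw [e1 G h, ← e1 G0 (key G0 hG0)]
  exact hG0 G'

end Pool.Agent.N412.LB
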