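import Pool.Agent.N412.LB.Stm

/-!
BONBON/GAIN2 (adapted from `Pool.Agent.W806.LP.Gain`).
-/

set_option autoImplicit false

open Finset

namespace Pool.Agent.N412.LB.Gain2Aux

open Pool.Agent.W297.LP

theorem ker_nonneg {V : Type} {W : V → V → ℝ} (h : Ker W) (x y : V) : 0 ≤ W x y := by
  rcases h.zo x y with h | h <;> rw [h]
  exact zero_le_one

theorem ker_le_one {V : Type} {W : V → V → ℝ} (h : Ker W) (x y : V) : W x y ≤ 1 := by
  rcases h.zo x y with h | h <;> rw [h]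
  exact zero_le_one

theorem td_nonneg {V : Type} [Fintype V] {W : V → V → ℝ} (h : Ker W) (T : Tr) :
    ∀ x : V, 0 ≤ td W T x := by
  induction T with
  | pt => intro x; exact zero_le_one
  | br A B iA iB =>
    intro x
    show 0 ≤ td W A x * ((∑ y, W x y * td W B y) / (Fintype.card V : ℝ))
    exact mul_nonneg (iA x) (div_nonneg
      (Finset.sum_nonneg fun y _ => mul_nonneg (ker_nonneg h x y) (iB y)) (Nat.cast_nonneg _))

theorem dg_le_one {V : Type} [Fintype V] {W : V → V → ℝ} (h : Ker W) (hV : 0 < Fintype.card V)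
    (x : V) : dg W x ≤ 1 := by
  unfold dg
  have hn : (0 : ℝ) < (Fintype.card V : ℝ) := by exact_mod_cast hV
  rw [div_le_one hn]
  calc ∑ y, W x y ≤ ∑ _y : V, (1 : ℝ) := Finset.sum_le_sum fun y _ => ker_le_one h x y
    _ = (Fintype.card V : ℝ) := by simp

theorem ms_nonneg {V : Type} [Fintype V] (D : Finset V) : 0 ≤ ms D :=
  div_nonneg (Nat.cast_nonneg _) (Nat.cast_nonneg _)

theorem mu_pos {k : ℕ} (hk : 4 ≤ k) : 0 < mu k := by
  have : (4 : ℝ) ≤ k := by exact_mod_cast hk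
  unfold mu
  apply one_div_pos.2
  linarith

theorem mu_le {k : ℕ} (hk : 4 ≤ k) : mu k ≤ 1 / 3 := by
  have : (4 : ℝ) ≤ k := by exact_mod_cast hk
  unfold mu
  apply one_div_le_one_div_of_le <;> linarith

/-- the lollipop density is positive if there is a clique of vertices of positive degree -/
theorem lol_pos {V : Type} [Fintype V] {k : ℕ} {W : V → V → ℝ} (hW : Ker W)
    (hV : 0 < Fintype.card V) (hWalk : SWalk) (T : Fin k → Tr) (D : Finset V)
    (hcl : 0 < (cl W D k).card) (hdg : ∀ x ∈ D, 0 < dg W x) : 0 < lol W T := by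
  classical
  obtain ⟨x, hx⟩ := Finset.card_pos.1 hcl
  unfold lol
  have hn : (0 : ℝ) < (Fintype.card V : ℝ) := by exact_mod_cast hV
  apply div_pos _ (pow_pos hn _)
  have hx' := hx
  unfold cl at hx'
  rw [Finset.mem_filter] at hx'
  have hmem : x ∈ cl W univ k := by
    unfold cl
    rw [Finset.mem_filter]
    exact ⟨Finset.mem_univ _, fun i => Finset.mem_univ _, hx'.2.2⟩
  apply Finset.sum_pos'
  · intro y _
    exact Finset.prod_nonneg fun i _ => td_nonneg hW _ _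
  · refine ⟨x, hmem, Finset.prod_pos fun i _ => ?_⟩
    exact (hWalk V W hW 1 one_pos (T i) (x i) (hdg _ (hx'.2.1 i))).1

theorem gain (hWalk : SWalk) (hQk : SQk) (hStart : SStart) (hJen : SJen) (hMarg : SMarg)
    (hEnt : SEnt) : SGain2 := by
  intro k hk
  obtain ⟨C, b0, hC, hb0, hM⟩ := hMarg k hk
  obtain ⟨C', b0', hC', hb0', hE⟩ := hEnt k hk
  have hm := mu_pos hk
  have hm3 := mu_le hk
  set m := mu k with hmdef
  have hη : 0 < m ^ 2 / (128 * C) := by positivity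
  obtain ⟨g0, a0, hg0, ha0, hS⟩ := hStart k hk (m ^ 2 / (128 * C)) hη
  have hm2 : 0 < m ^ 2 / 16 := by positivity
  have hm21 : m ^ 2 / 16 ≤ 1 := by nlinarith
  set e : ℝ := min (m ^ 2 / 16) (min (g0 / 2) (m / 8)) with hedef
  set d0 : ℝ := min (m ^ 2 / 16) (min (g0 / 4) (min a0 (min b0 (min b0' (m / 16))))) with hd0def
  have he0 : 0 < e := by
    apply lt_min hm2 (lt_min (by positivity) (by positivity))
  have he1 : e ≤ m ^ 2 / 16 := min_le_left _ _
  have he2 : e ≤ g0 / 2 := (min_le_right _ _).trans (min_le_left _ _)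
  have he3 : e ≤ m / 8 := (min_le_right _ _).trans (min_le_right _ _)
  have hd00 : 0 < d0 := by
    apply lt_min hm2 (lt_min (by positivity) (lt_min ha0 (lt_min hb0 (lt_min hb0' (by positivity)))))
  refine ⟨e, d0, m ^ 2 / 16, ⌈64 * (2 * C' + 1) / m ^ 2⌉₊, he0, he1, hd00, hm2, ?_⟩
  intro d hd hdd V _ _ W Vi A1 A2 hW hV ht hbl hA1 T hT
  have hd1 : d ≤ m ^ 2 / 16 := hdd.trans (min_le_left _ _)
  have hd2 : d ≤ g0 / 4 := hdd.trans ((min_le_right _ _).trans (min_le_left _ _))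
  have hd3 : d ≤ a0 := hdd.trans ((min_le_right _ _).trans ((min_le_right _ _).trans
    (min_le_left _ _)))
  have hd4 : d ≤ b0 := hdd.trans ((min_le_right _ _).trans ((min_le_right _ _).trans
    ((min_le_right _ _).trans (min_le_left _ _))))
  have hd5 : d ≤ b0' := hdd.trans ((min_le_right _ _).trans ((min_le_right _ _).trans
    ((min_le_right _ _).trans ((min_le_right _ _).trans (min_le_left _ _)))))
  have hd6 : d ≤ m / 16 := hdd.trans ((min_le_right _ _).trans ((min_le_right _ _).trans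
    ((min_le_right _ _).trans ((min_le_right _ _).trans (min_le_right _ _)))))
  have hn : (0 : ℝ) < (Fintype.card V : ℝ) := by exact_mod_cast hV
  have hA20 := ms_nonneg A2
  have hsmall := ht.small
  have hA1d : ms A1 ≤ d := by linarith
  have hc3 : m ^ 2 / 16 * ms A1 ≤ ms A1 := by nlinarith
  have hbl1 : bl W Vi ≤ ms A1 := by linarith
  have hbl2 : bl W Vi + ms A2 ≤ ms A1 := by linarith
  set Q := qk W Vi A1 with hQdef
  have hQF : QF k (2 * d + e) W Q Vi A1 A2 := hQk k hk e d he0 he1 hd hd1 V W Vi A1 A2 hW hV ht hbl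
  have hg1 : 2 * d + e ≤ g0 := by linarith
  have hg2 : 2 * d + e ≤ m / 4 := by linarith
  -- degrees on the parts
  have hdgQ : ∀ i, ∀ x ∈ Vi i, 0 < dg Q x := by
    intro i x hx
    have := (abs_le.1 (hQF.dv i x hx)).1
    linarith
  have hdgW : ∀ i, ∀ x ∈ Vi i, 0 < dg W x := by
    intro i x hx
    refine lt_of_lt_of_le (hdgQ i x hx) ?_
    unfold dg
    gcongr with y _
    exact hQF.le x y
  obtain ⟨hcl, hMj⟩ := hM V W Q Vi A1 A2 e d (2 * d + e) hW hV he1 hd1 hg2 ht hQF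
    (hbl1.trans (hA1d.trans hd4))
  have hEn := hE V W Vi A1 A2 e d hW hV hd1 ht (hbl1.trans (hA1d.trans hd5))
  have hSt := hS V W Q Vi A1 A2 e d (2 * d + e) hW hV ht hQF hg1 (hA1d.trans hd3)
  -- the weights
  have hmsV : ∀ i, 0 < ms (Vi i) := by
    intro i
    have := (abs_le.1 (ht.size i)).1
    have h2 : m ^ 2 / 16 < m := by nlinarith
    linarith
  have hk1 : 0 < k - 1 := by omega
  have : Nonempty (Fin (k - 1)) := ⟨⟨0, hk1⟩⟩
  have hden : 0 < ∑ j, (ms (Vi j)) ^ 2 :=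
    Finset.sum_pos (fun j _ => pow_pos (hmsV j) 2) Finset.univ_nonempty
  have hw0 : ∀ i, 0 < ww Vi i := fun i => div_pos (pow_pos (hmsV i) 2) hden
  have hw1 : ∑ i, ww Vi i = 1 := by
    unfold ww
    rw [← Finset.sum_div, div_self hden.ne']
  have hJ := hJen k hk V W Q hW hQF.ker hV hQF.le Vi ht.disj hcl hdgQ m hm T (ww Vi) hw0 hw1
  -- the sum of degrees
  have hD0 : 0 < ∑ i, ∑ x ∈ Vi i, dg Q x := by
    apply Finset.sum_pos _ Finset.univ_nonempty
    intro i _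
    apply Finset.sum_pos (fun x hx => hdgQ i x hx)
    rw [Finset.nonempty_iff_ne_empty]
    intro h
    have := hmsV i
    rw [h] at this
    simp [ms] at this
  have hDn : ∑ i, ∑ x ∈ Vi i, dg Q x ≤ (Fintype.card V : ℝ) := by
    have e1 : ∑ i, ∑ x ∈ Vi i, dg Q x = ∑ x ∈ univ.biUnion Vi, dg Q x := by
      rw [Finset.sum_biUnion]
      intro i _ j _ hij
      exact ht.disj i j hij
    rw [e1]
    have hQ0 : ∀ x, 0 ≤ dg Q x := fun x =>
      div_nonneg (Finset.sum_nonneg fun y _ => ker_nonneg hQF.ker x y) hn.le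
    calc ∑ x ∈ univ.biUnion Vi, dg Q x ≤ ∑ x : V, dg Q x :=
          Finset.sum_le_sum_of_subset_of_nonneg (Finset.subset_univ _) fun x _ _ => hQ0 x
      _ ≤ ∑ _x : V, (1 : ℝ) := Finset.sum_le_sum fun x _ => dg_le_one hQF.ker hV x
      _ = (Fintype.card V : ℝ) := by simp
  -- each tree
  have hterm : ∀ j : Fin k, ((T j).sz : ℝ) * (m ^ 2 / 64) * ms A1 ≤
      ∑ i, ww Vi i * ((∑ x ∈ cl W (Vi i) k, gt Q m (T j) (x j)) /
        ((cl W (Vi i) k).card : ℝ)) := by
    intro j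
    obtain ⟨s1, s2⟩ := hSt (T j)
    have h1 := hMj j (gt Q m (T j)) (m ^ 2 / (128 * C) * ((T j).sz : ℝ)) s2
    have h2 := (abs_le.1 h1).1
    have hsz : (0 : ℝ) ≤ ((T j).sz : ℝ) := Nat.cast_nonneg _
    have h3 : ((T j).sz : ℝ) * (m ^ 2 / 32) * ms A1 ≤
        (∑ i, ∑ x ∈ Vi i, dg Q x * gt Q m (T j) x) / (∑ i, ∑ x ∈ Vi i, dg Q x) := by
      have hN : 0 ≤ (∑ i, ∑ x ∈ Vi i, dg Q x * gt Q m (T j) x) := by
        have h4 : 0 ≤ ((T j).sz : ℝ) * (m ^ 2 / 32) * ms A1 := by positivity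
        have h5 := h4.trans s1
        rw [le_div_iff₀ hn, zero_mul] at h5
        exact h5
      refine s1.trans ?_
      exact div_le_div_of_nonneg_left hN hD0 hDn
    have h4 : C * (bl W Vi + ms A1) * (m ^ 2 / (128 * C) * ((T j).sz : ℝ)) ≤
        ((T j).sz : ℝ) * (m ^ 2 / 64) * ms A1 := by
      have e1 : C * (bl W Vi + ms A1) * (m ^ 2 / (128 * C) * ((T j).sz : ℝ)) =
          (bl W Vi + ms A1) * (m ^ 2 / 128 * ((T j).sz : ℝ)) := by
        field_simp
      rw [e1]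
      calc (bl W Vi + ms A1) * (m ^ 2 / 128 * ((T j).sz : ℝ)) ≤
          (ms A1 + ms A1) * (m ^ 2 / 128 * ((T j).sz : ℝ)) := by gcongr
        _ = ((T j).sz : ℝ) * (m ^ 2 / 64) * ms A1 := by ring
    have h5 : ((T j).sz : ℝ) * (m ^ 2 / 32) * ms A1 =
        ((T j).sz : ℝ) * (m ^ 2 / 64) * ms A1 + ((T j).sz : ℝ) * (m ^ 2 / 64) * ms A1 := by ring
    linarith
  have hsum : ∑ j, ((T j).sz : ℝ) * (m ^ 2 / 64) * ms A1 = (tot T : ℝ) * (m ^ 2 / 64) * ms A1 := by
    unfold tot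
    push_cast
    rw [Finset.sum_mul, Finset.sum_mul]
  have hsum2 := Finset.sum_le_sum fun (j : Fin k) (_ : j ∈ univ) => hterm j
  rw [hsum] at hsum2
  have hsplit : ∑ i, ww Vi i * (Real.log (((cl W (Vi i) k).card : ℝ) /
        ((Fintype.card V : ℝ) ^ k * ww Vi i)) +
        (∑ x ∈ cl W (Vi i) k, ∑ j, gt Q m (T j) (x j)) / ((cl W (Vi i) k).card : ℝ)) =
      ∑ i, ww Vi i * Real.log (((cl W (Vi i) k).card : ℝ) /
        ((Fintype.card V : ℝ) ^ k * ww Vi i)) +
      ∑ j, ∑ i, ww Vi i * ((∑ x ∈ cl W (Vi i) k, gt Q m (T j) (x j)) /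
        ((cl W (Vi i) k).card : ℝ)) := by
    rw [Finset.sum_comm (s := (univ : Finset (Fin k))), ← Finset.sum_add_distrib]
    refine Finset.sum_congr rfl fun i _ => ?_
    rw [mul_add]
    congr 1
    rw [← Finset.mul_sum, ← Finset.sum_div, Finset.sum_comm]
  rw [hsplit] at hJ
  have hpos : 0 < lol W T :=
    lol_pos hW hV hWalk T (Vi ⟨0, hk1⟩) (hcl ⟨0, hk1⟩) (hdgW ⟨0, hk1⟩)
  -- the final estimate
  have hT' : 64 * (2 * C' + 1) / m ^ 2 ≤ (tot T : ℝ) := (Nat.le_ceil _).trans (by exact_mod_cast hT)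
  have hT2 : 2 * C' + 1 ≤ (tot T : ℝ) * (m ^ 2 / 64) := by
    rw [div_le_iff₀ (by positivity)] at hT'
    linarith
  have hT3 : (2 * C' + 1) * ms A1 ≤ (tot T : ℝ) * (m ^ 2 / 64) * ms A1 := by gcongr
  have hE2 : C' * (bl W Vi + ms A1 + ms A2) ≤ 2 * C' * ms A1 := by
    calc C' * (bl W Vi + ms A1 + ms A2) ≤ C' * (ms A1 + ms A1) := by
          apply mul_le_mul_of_nonneg_left _ hC'.le
          linarith
      _ = 2 * C' * ms A1 := by ring
  have hfin : ((tot T : ℝ) + ((k : ℝ) - 1)) * Real.log m + ms A1 ≤ Real.log (lol W T) := by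
    linarith
  have hpow : Real.log (m ^ (tot T + (k - 1))) = ((tot T : ℝ) + ((k : ℝ) - 1)) * Real.log m := by
    rw [Real.log_pow, Nat.cast_add, Nat.cast_sub (by omega), Nat.cast_one]
  rw [← hpow] at hfin
  have hexp := (Real.le_log_iff_exp_le hpos).1 hfin
  rw [Real.exp_add, Real.exp_log (pow_pos hm _)] at hexp
  refine le_trans ?_ hexp
  apply mul_le_mul_of_nonneg_left _ (pow_pos hm _).le
  have := Real.add_one_le_exp (ms A1)
  linarith

end Pool.Agent.N412.LB.Gain2Aux
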