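import Pool.Agent.N412.LB.Stm

/-!
Project LB (helper412), problem MP_f2e3c0_co, part HOMC: weighted homomorphisms against copies.
-/

set_option autoImplicit false

open Finset

namespace Pool.Agent.N412.LB

open Pool.Agent.W297.LP

namespace HomcAux

theorem ker_ad {n : ℕ} (G : SimpleGraph (Fin n)) : Ker (ad G) := by
  refine ⟨fun x y => ?_, fun x y => ?_⟩
  · unfold ad
    by_cases h : G.Adj x y
    · rw [if_pos h, if_pos h.symm]
    · rw [if_neg h, if_neg (fun h' => h h'.symm)]
  · unfold ad
    by_cases h : G.Adj x y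
    · right; simp [h]
    · left; simp [h]

theorem ker_co {n : ℕ} (G : SimpleGraph (Fin n)) : Ker (co (ad G)) := by
  refine ⟨fun x y => ?_, fun x y => ?_⟩
  · unfold co
    rw [(ker_ad G).symm x y]
  · unfold co
    rcases (ker_ad G).zo x y with h | h
    · right; rw [h]; norm_num
    · left; rw [h]; norm_num

theorem ad_one {n : ℕ} (G : SimpleGraph (Fin n)) (x y : Fin n) : ad G x y = 1 ↔ G.Adj x y := by
  unfold ad
  by_cases h : G.Adj x y
  · simp [h]
  · simp [h]

theorem co_one {n : ℕ} (G : SimpleGraph (Fin n)) (x y : Fin n) :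
    co (ad G) x y = 1 ↔ ¬ G.Adj x y := by
  unfold co ad
  by_cases h : G.Adj x y
  · simp [h]
  · simp [h]

open Classical in
/-- maps with two given equal values -/
theorem card_eq_pair {t n : ℕ} (u v : Fin t) (huv : u ≠ v) :
    ((univ : Finset (Fin t → Fin n)).filter (fun f => f u = f v)).card ≤ n ^ (t - 1) := by
  have h1 : Fintype.card ({w : Fin t // w ≠ u} → Fin n) = n ^ (t - 1) := by
    rw [Fintype.card_fun, Fintype.card_fin]
    congr 1
    rw [Fintype.card_subtype_compl, Fintype.card_fin]
    simp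
  rw [← h1, ← Finset.card_univ]
  apply Finset.card_le_card_of_injOn (fun f => fun w : {w : Fin t // w ≠ u} => f w.1)
  · intro f _
    simp
  · intro f hf g hg hfg
    simp only [coe_filter, mem_univ, true_and, Set.mem_ofPred_eq] at hf hg
    have hv : ∀ w, w ≠ u → f w = g w := fun w hw => congrFun hfg ⟨w, hw⟩
    funext w
    by_cases hw : w = u
    · subst hw
      rw [hf, hg]
      exact hv v huv.symm
    · exact hv w hw

open Classical in
theorem card_noninj (t n : ℕ) :
    ((univ : Finset (Fin t → Fin n)).filter (fun f => ¬ Function.Injective f)).card ≤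
      t ^ 2 * n ^ (t - 1) := by
  have hsub : (univ : Finset (Fin t → Fin n)).filter (fun f => ¬ Function.Injective f) ⊆
      ((univ : Finset (Fin t × Fin t)).filter (fun p => p.1 ≠ p.2)).biUnion
        (fun p => (univ : Finset (Fin t → Fin n)).filter (fun f => f p.1 = f p.2)) := by
    intro f hf
    simp only [mem_filter, mem_univ, true_and] at hf
    unfold Function.Injective at hf
    push Not at hf
    obtain ⟨a, b, h1, h2⟩ := hf
    simp only [mem_biUnion, mem_filter, mem_univ, true_and]
    exact ⟨(a, b), h2, h1⟩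
  calc _ ≤ _ := Finset.card_le_card hsub
    _ ≤ ∑ p ∈ (univ : Finset (Fin t × Fin t)).filter (fun p => p.1 ≠ p.2),
        ((univ : Finset (Fin t → Fin n)).filter (fun f => f p.1 = f p.2)).card :=
        Finset.card_biUnion_le
    _ ≤ ∑ p ∈ (univ : Finset (Fin t × Fin t)).filter (fun p => p.1 ≠ p.2), n ^ (t - 1) := by
        apply Finset.sum_le_sum
        intro p hp
        exact card_eq_pair p.1 p.2 (by simpa using hp)
    _ = ((univ : Finset (Fin t × Fin t)).filter (fun p => p.1 ≠ p.2)).card * n ^ (t - 1) := by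
        rw [Finset.sum_const, smul_eq_mul]
    _ ≤ t ^ 2 * n ^ (t - 1) := by
        apply Nat.mul_le_mul_right
        calc _ ≤ (univ : Finset (Fin t × Fin t)).card := Finset.card_filter_le _ _
          _ = t ^ 2 := by
            rw [Finset.card_univ, Fintype.card_prod, Fintype.card_fin]
            ring

open Classical in
/-- maps against embeddings -/
theorem card_map_le {t n : ℕ} (P : (Fin t → Fin n) → Prop) :
    ((univ : Finset (Fin t → Fin n)).filter P).card ≤
      ((univ : Finset (Fin t ↪ Fin n)).filter (fun f : Fin t ↪ Fin n => P ⇑f)).card + t ^ 2 * n ^ (t - 1) := by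
  have hsub : (univ : Finset (Fin t → Fin n)).filter P ⊆
      (((univ : Finset (Fin t ↪ Fin n)).filter (fun f : Fin t ↪ Fin n => P ⇑f)).image
        (fun f : Fin t ↪ Fin n => ⇑f)) ∪
        (univ : Finset (Fin t → Fin n)).filter (fun f => ¬ Function.Injective f) := by
    intro f hf
    simp only [mem_filter, mem_univ, true_and] at hf
    by_cases hi : Function.Injective f
    · apply Finset.mem_union_left
      simp only [mem_image, mem_filter, mem_univ, true_and]
      exact ⟨⟨f, hi⟩, hf, rfl⟩
    · apply Finset.mem_union_right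
      simp only [mem_filter, mem_univ, true_and]
      exact hi
  calc _ ≤ _ := Finset.card_le_card hsub
    _ ≤ _ := Finset.card_union_le _ _
    _ ≤ _ := Nat.add_le_add Finset.card_image_le (card_noninj t n)

open Classical in
/-- red and blue copies are different when there is an edge -/
theorem mc_eq {t n : ℕ} (H : SimpleGraph (Fin t)) (G : SimpleGraph (Fin n)) (a b : Fin t)
    (hab : H.Adj a b) :
    MC H G = ((univ : Finset (Fin t ↪ Fin n)).filter
        (fun f => ∀ u v, H.Adj u v → G.Adj (f u) (f v))).card +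
      ((univ : Finset (Fin t ↪ Fin n)).filter
        (fun f => ∀ u v, H.Adj u v → ¬ G.Adj (f u) (f v))).card := by
  have h1 : (univ : Finset (Fin t ↪ Fin n)).filter
        (fun f => ∀ u v, H.Adj u v → ¬ G.Adj (f u) (f v)) =
      (univ : Finset (Fin t ↪ Fin n)).filter
        (fun f => ∀ u v, H.Adj u v → Gᶜ.Adj (f u) (f v)) := by
    apply Finset.filter_congr
    intro f _
    constructor
    · intro h u v huv
      rw [SimpleGraph.compl_adj]
      exact ⟨fun he => huv.ne (f.injective he), h u v huv⟩
    · intro h u v huv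
      exact ((SimpleGraph.compl_adj _ _ _).mp (h u v huv)).2
  rw [h1, ← Finset.card_union_of_disjoint]
  · unfold MC
    rw [← Finset.filter_or]
  · rw [Finset.disjoint_filter]
    intro f _ hf hg
    exact ((SimpleGraph.compl_adj _ _ _).mp (hg a b hab)).2 (hf a b hab)

end HomcAux

open HomcAux in
theorem homc (h1 : SHom) (h2 : SLpf) : SHomc := by
  classical
  intro k t hk ht
  obtain ⟨hc, -, S, hS, hcl, hcard⟩ := h2 k t hk ht
  obtain ⟨T, hT, hW⟩ := h1 k hk t (Lp k t) ⟨hc, S, hS, hcl, hcard⟩
  refine ⟨T, hT, fun n hn G => ?_⟩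
  have hr := hW (Fin n) (ad G) (ker_ad G)
  have hb := hW (Fin n) (co (ad G)) (ker_co G)
  rw [Fintype.card_fin] at hr hb
  rw [add_mul, ← hr, ← hb]
  have e1 : ((univ : Finset (Fin t → Fin n)).filter
      (fun f => ∀ u v, (Lp k t).Adj u v → ad G (f u) (f v) = 1)) =
      ((univ : Finset (Fin t → Fin n)).filter
      (fun f => ∀ u v, (Lp k t).Adj u v → G.Adj (f u) (f v))) := by
    apply Finset.filter_congr
    intro f _
    simp only [ad_one]
  have e2 : ((univ : Finset (Fin t → Fin n)).filter
      (fun f => ∀ u v, (Lp k t).Adj u v → co (ad G) (f u) (f v) = 1)) =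
      ((univ : Finset (Fin t → Fin n)).filter
      (fun f => ∀ u v, (Lp k t).Adj u v → ¬ G.Adj (f u) (f v))) := by
    apply Finset.filter_congr
    intro f _
    simp only [co_one]
  have hab : (Lp k t).Adj ⟨0, by omega⟩ ⟨1, by omega⟩ := by
    left
    refine ⟨?_, ?_, ?_⟩
    · intro h
      simp at h
    · show 0 < k
      omega
    · show 1 < k
      omega
  obtain ⟨A, hA⟩ : ∃ A, A = ((univ : Finset (Fin t ↪ Fin n)).filter
        (fun f => ∀ u v, (Lp k t).Adj u v → G.Adj (f u) (f v))).card := ⟨_, rfl⟩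
  obtain ⟨B, hB⟩ : ∃ B, B = ((univ : Finset (Fin t ↪ Fin n)).filter
        (fun f => ∀ u v, (Lp k t).Adj u v → ¬ G.Adj (f u) (f v))).card := ⟨_, rfl⟩
  have hmc : MC (Lp k t) G = A + B := by
    rw [hA, hB]
    convert mc_eq (Lp k t) G _ _ hab
  have l1 : ((univ : Finset (Fin t → Fin n)).filter
      (fun f => ∀ u v, (Lp k t).Adj u v → ad G (f u) (f v) = 1)).card ≤
      A + t ^ 2 * n ^ (t - 1) := by
    rw [e1, hA]
    convert card_map_le (t := t) (n := n) (fun f => ∀ u v, (Lp k t).Adj u v → G.Adj (f u) (f v))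
  have l2 : ((univ : Finset (Fin t → Fin n)).filter
      (fun f => ∀ u v, (Lp k t).Adj u v → co (ad G) (f u) (f v) = 1)).card ≤
      B + t ^ 2 * n ^ (t - 1) := by
    rw [e2, hB]
    convert card_map_le (t := t) (n := n)
      (fun f => ∀ u v, (Lp k t).Adj u v → ¬ G.Adj (f u) (f v))
  have key : ((univ : Finset (Fin t → Fin n)).filter
      (fun f => ∀ u v, (Lp k t).Adj u v → ad G (f u) (f v) = 1)).card +
      ((univ : Finset (Fin t → Fin n)).filter
      (fun f => ∀ u v, (Lp k t).Adj u v → co (ad G) (f u) (f v) = 1)).card ≤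
      MC (Lp k t) G + 2 * t ^ 2 * n ^ (t - 1) := by
    rw [hmc]
    nlinarith [l1, l2]
  have key' : ((((univ : Finset (Fin t → Fin n)).filter
      (fun f => ∀ u v, (Lp k t).Adj u v → ad G (f u) (f v) = 1)).card +
      ((univ : Finset (Fin t → Fin n)).filter
      (fun f => ∀ u v, (Lp k t).Adj u v → co (ad G) (f u) (f v) = 1)).card : ℕ) : ℝ) ≤
      ((MC (Lp k t) G + 2 * t ^ 2 * n ^ (t - 1) : ℕ) : ℝ) := by
    exact_mod_cast key
  push_cast at key'
  convert key' using 2

end Pool.Agent.N412.LB
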