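import Pool.Agent.N412.LB.Stm

/-!
Project LB (helper412), part INV: copies are invariant under isomorphism and complement.
-/

set_option autoImplicit false

open Finset

namespace Pool.Agent.N412.LB

namespace InvAux

theorem compl_inv {t n : ℕ} (H : SimpleGraph (Fin t)) (G : SimpleGraph (Fin n)) :
    MC H Gᶜ = MC H G := by
  unfold MC
  congr 1
  ext f
  simp only [Finset.mem_filter, Finset.mem_univ, true_and, compl_compl]
  exact or_comm

theorem le_of_iso {t n : ℕ} (H : SimpleGraph (Fin t)) (G G' : SimpleGraph (Fin n))
    (e : G ≃g G') : MC H G ≤ MC H G' := by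
  classical
  unfold MC
  refine Finset.card_le_card_of_injOn (fun f => f.trans e.toEquiv.toEmbedding) ?_ ?_
  · intro f hf
    simp only [Finset.coe_filter, Finset.mem_univ, true_and, Set.mem_ofPred_eq] at hf ⊢
    rcases hf with hf | hf
    · left
      intro u v huv
      exact e.map_adj_iff.2 (hf u v huv)
    · right
      intro u v huv
      have h := hf u v huv
      rw [SimpleGraph.compl_adj] at h ⊢
      refine ⟨fun hh => h.1 (e.toEquiv.injective hh), fun hh => h.2 ?_⟩
      exact e.map_adj_iff.1 hh
  · intro f _ g _ hfg
    apply Function.Embedding.ext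
    intro u
    have h := DFunLike.congr_fun hfg u
    exact e.toEquiv.injective h

end InvAux

theorem inv : SInv := by
  intro t n H G G'
  refine ⟨InvAux.compl_inv H G, ?_⟩
  rintro ⟨e⟩
  exact le_antisymm (InvAux.le_of_iso H G G' e) (InvAux.le_of_iso H G' G e.symm)

end Pool.Agent.N412.LB
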