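import Pool.Agent.N412.LB.Stm

/-!
Project LB (helper412), part ISO (helper700): balanced partitions give Turan graphs.
-/

set_option autoImplicit false

open Finset

namespace Pool.Agent.N412.LB

namespace IsoAux

theorem empty_case {r n : ℕ} (P : Fin n → Fin r)
    (hbal : ∀ i j, (pt P i).card ≤ (pt P j).card + 1) (hP : ¬ Function.Surjective P)
    (G : SimpleGraph (Fin n)) (hG : ∀ x y, x ≠ y → (G.Adj x y ↔ P x = P y)) :
    Nonempty (Gᶜ ≃g SimpleGraph.turanGraph n r) := by
  classical
  obtain ⟨i0, hi0⟩ := not_forall.1 hP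
  have h0 : (pt P i0).card = 0 := by
    rw [card_eq_zero, eq_empty_iff_forall_notMem]
    intro x hx
    unfold pt at hx
    rw [mem_filter] at hx
    exact hi0 ⟨x, hx.2⟩
  have hinj : Function.Injective P := by
    intro x y hxy
    have h1 := hbal (P x) i0
    rw [h0, zero_add, card_le_one] at h1
    apply h1
    · unfold pt
      rw [mem_filter]
      exact ⟨mem_univ _, rfl⟩
    · unfold pt
      rw [mem_filter]
      exact ⟨mem_univ _, hxy.symm⟩
  have hn : n ≤ r := by
    have := Fintype.card_le_of_injective P hinj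
    simpa using this
  have h1 : SimpleGraph.turanGraph n r = ⊤ := SimpleGraph.turanGraph_eq_top.2 (Or.inr hn)
  have h2 : Gᶜ = ⊤ := by
    ext x y
    rw [SimpleGraph.compl_adj, SimpleGraph.top_adj]
    constructor
    · exact fun h => h.1
    · intro h
      refine ⟨h, fun hadj => h ?_⟩
      exact hinj ((hG x y h).1 hadj)
  rw [h1, h2]
  exact ⟨SimpleGraph.Iso.refl⟩

end IsoAux

theorem iso : SIso := by
  classical
  intro r n hr P hbal G hG
  by_cases hP : Function.Surjective P
  swap
  · exact IsoAux.empty_case P hbal hP G hG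
  -- the partition
  set F : Finpartition (univ : Finset (Fin n)) := Finpartition.ofSetoid (Setoid.ker P) with hF
  have hmem : ∀ a b, b ∈ F.part a ↔ P a = P b := by
    intro a b
    rw [hF, Finpartition.mem_part_ofSetoid_iff_rel]
    exact Iff.rfl
  have hpart : ∀ a, F.part a = pt P (P a) := by
    intro a
    ext b
    rw [hmem]
    unfold pt
    rw [mem_filter]
    constructor
    · intro h
      exact ⟨mem_univ _, h.symm⟩
    · intro h
      exact h.2.symm
  have hparts : F.parts = univ.image (pt P) := by
    ext s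
    rw [mem_image]
    constructor
    · intro hs
      obtain ⟨a, ha⟩ := F.nonempty_of_mem_parts hs
      refine ⟨P a, mem_univ _, ?_⟩
      rw [← hpart a]
      exact F.part_eq_of_mem hs ha
    · rintro ⟨i, _, rfl⟩
      obtain ⟨a, rfl⟩ := hP i
      rw [← hpart a]
      exact F.part_mem.2 (mem_univ a)
  have hinj : Function.Injective (pt P) := by
    intro i j hij
    obtain ⟨a, rfl⟩ := hP i
    have h1 : a ∈ pt P (P a) := by
      unfold pt
      rw [mem_filter]
      exact ⟨mem_univ _, rfl⟩
    rw [hij] at h1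
    unfold pt at h1
    rw [mem_filter] at h1
    exact h1.2
  have hcard : F.parts.card = r := by
    rw [hparts, card_image_of_injective _ hinj, card_univ, Fintype.card_fin]
  have heq : F.IsEquipartition := by
    unfold Finpartition.IsEquipartition
    intro s t hs ht
    rw [hparts, mem_coe, mem_image] at hs ht
    obtain ⟨i, _, rfl⟩ := hs
    obtain ⟨j, _, rfl⟩ := ht
    exact hbal _ _
  obtain ⟨f, hf⟩ := heq.exists_partPreservingEquiv
  have hn : (univ : Finset (Fin n)).card = n := by rw [card_univ, Fintype.card_fin]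
  set e0 : Fin n ≃ (univ : Finset (Fin n)) :=
    (Equiv.subtypeUnivEquiv (p := fun x => x ∈ (univ : Finset (Fin n))) (fun x => mem_univ x)).symm
    with he0
  set e : Fin n ≃ Fin n := (e0.trans f).trans (finCongr hn) with he
  have hval : ∀ x, ((e x : Fin n) : ℕ) = (f (e0 x) : ℕ) := by
    intro x
    rfl
  have hcoe : ∀ x, ((e0 x : (univ : Finset (Fin n))) : Fin n) = x := by
    intro x
    simp [he0]
  refine ⟨⟨e, ?_⟩⟩
  intro x y
  rw [SimpleGraph.turanGraph_adj, SimpleGraph.compl_adj, hval, hval]
  have h1 := hf (e0 x) (e0 y)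
  rw [hcoe, hcoe, hcard] at h1
  have h2 : F.part x = F.part y ↔ P x = P y := by
    rw [hpart, hpart]
    exact hinj.eq_iff
  rw [h2] at h1
  rw [ne_eq, ← h1]
  constructor
  · intro h
    have hxy : x ≠ y := fun hxy => h (by rw [hxy])
    exact ⟨hxy, fun hadj => h ((hG x y hxy).1 hadj)⟩
  · rintro ⟨hxy, hadj⟩ h
    exact hadj ((hG x y hxy).2 h)

end Pool.Agent.N412.LB
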