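import Pool.Agent.N412.LB.Stm

/-!
Project LB (helper412): LPF, basic facts on the lollipop (written by helper865).
-/

set_option autoImplicit false

open Finset

namespace Pool.Agent.N412.LB

namespace LpfAux

/-- the clique of the lollipop -/
def S0 (k t : ℕ) (h : k ≤ t) : Finset (Fin t) := (univ : Finset (Fin k)).map (Fin.castLEEmb h)

lemma mem_S0 {k t : ℕ} (h : k ≤ t) (i : Fin t) : i ∈ S0 k t h ↔ i.val < k := by
  unfold S0
  rw [mem_map]
  constructor
  · rintro ⟨j, -, rfl⟩
    exact j.2
  · intro hi
    exact ⟨⟨i.val, hi⟩, mem_univ _, Fin.ext rfl⟩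

lemma card_S0 {k t : ℕ} (h : k ≤ t) : (S0 k t h).card = k := by
  unfold S0
  rw [card_map, card_univ, Fintype.card_fin]

/-- the path edges -/
def pe (k t : ℕ) (h : k < t) (j : Fin (t - k)) : Sym2 (Fin t) :=
  s(⟨k + j.val - 1, by have := j.2; omega⟩, ⟨k + j.val, by have := j.2; omega⟩)

lemma pe_inj {k t : ℕ} (hk : 4 ≤ k) (h : k < t) : Function.Injective (pe k t h) := by
  intro a b hab
  unfold pe at hab
  rw [Sym2.eq_iff] at hab
  simp only [Fin.mk.injEq] at hab
  apply Fin.ext
  omega

lemma connected {k t : ℕ} (hk : 4 ≤ k) (h : k < t) : (Lp k t).Connected := by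
  rw [SimpleGraph.connected_iff_exists_forall_reachable]
  refine ⟨⟨0, by omega⟩, ?_⟩
  have key : ∀ (m : ℕ) (hm : m < t), (Lp k t).Reachable ⟨0, by omega⟩ ⟨m, hm⟩ := by
    intro m
    induction m using Nat.strong_induction_on with
    | _ m ih =>
      intro hm
      by_cases h0 : m = 0
      · subst h0
        exact SimpleGraph.Reachable.refl _
      · by_cases hmk : m < k
        · apply SimpleGraph.Adj.reachable
          left
          refine ⟨?_, by simp; omega, hmk⟩
          intro h'
          exact h0 (Fin.mk.inj_iff.1 h').symm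
        · refine (ih (m - 1) (by omega) (by omega)).trans (SimpleGraph.Adj.reachable ?_)
          right
          left
          refine ⟨?_, ?_⟩
          · simp only
            omega
          · simp only
            omega
  intro w
  exact key w.1 w.2

lemma clique {k t : ℕ} (h : k < t) : ∀ u ∈ S0 k t h.le, ∀ v ∈ S0 k t h.le, u ≠ v →
    (Lp k t).Adj u v := by
  intro u hu v hv huv
  exact Or.inl ⟨huv, (mem_S0 h.le u).1 hu, (mem_S0 h.le v).1 hv⟩

lemma colorable {k t : ℕ} (hk : 4 ≤ k) : (Lp k t).Colorable k := by
  refine ⟨SimpleGraph.Coloring.mk (fun i => if hi : i.val < k then (⟨i.val, hi⟩ : Fin k) else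
    ⟨(i.val - k) % 2, by omega⟩) ?_⟩
  intro i j hij
  rcases hij with ⟨h1, h2, h3⟩ | ⟨h1, h2⟩ | ⟨h1, h2⟩
  · simp only [h2, h3, dif_pos]
    intro h'
    exact h1 (Fin.ext (Fin.mk.inj_iff.1 h'))
  · have hj : ¬ j.val < k := by omega
    by_cases hi : i.val < k
    · simp only [hi, hj, dif_pos, dif_neg, not_false_eq_true]
      intro h'
      have := Fin.mk.inj_iff.1 h'
      omega
    · simp only [hi, hj, dif_neg, not_false_eq_true]
      intro h'
      have := Fin.mk.inj_iff.1 h'
      omega
  · have hi : ¬ i.val < k := by omega
    by_cases hj : j.val < k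
    · simp only [hi, hj, dif_pos, dif_neg, not_false_eq_true]
      intro h'
      have := Fin.mk.inj_iff.1 h'
      omega
    · simp only [hi, hj, dif_neg, not_false_eq_true]
      intro h'
      have := Fin.mk.inj_iff.1 h'
      omega

lemma chromatic {k t : ℕ} (hk : 4 ≤ k) (h : k < t) : (Lp k t).chromaticNumber = (k : ℕ∞) := by
  apply le_antisymm
  · exact (colorable hk).chromaticNumber_le
  · have h1 : (Lp k t).IsClique (S0 k t h.le : Set (Fin t)) := by
      intro u hu v hv huv
      exact clique h u hu v hv huv
    have h2 := h1.card_le_chromaticNumber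
    rwa [card_S0] at h2

lemma edges {k t : ℕ} (hk : 4 ≤ k) (h : k < t) :
    (Lp k t).edgeSet.ncard = k.choose 2 + (t - k) := by
  classical
  have h1 : (Lp k t).edgeSet = (((S0 k t h.le).offDiag.image (fun p => s(p.1, p.2)) ∪
      univ.image (pe k t h) : Finset (Sym2 (Fin t))) : Set (Sym2 (Fin t))) := by
    ext e
    induction e using Sym2.ind with
    | _ i j =>
      rw [SimpleGraph.mem_edgeSet, Finset.mem_coe, mem_union, mem_image, mem_image]
      constructor
      · rintro (⟨h1, h2, h3⟩ | ⟨h1, h2⟩ | ⟨h1, h2⟩)
        · left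
          exact ⟨(i, j), mem_offDiag.2 ⟨(mem_S0 _ _).2 h2, (mem_S0 _ _).2 h3, h1⟩, rfl⟩
        · right
          refine ⟨⟨j.val - k, by have := j.2; omega⟩, mem_univ _, ?_⟩
          unfold pe
          rw [Sym2.eq_iff]
          left
          constructor
          · apply Fin.ext
            simp only
            omega
          · apply Fin.ext
            simp only
            omega
        · right
          refine ⟨⟨i.val - k, by have := i.2; omega⟩, mem_univ _, ?_⟩
          unfold pe
          rw [Sym2.eq_iff]
          right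
          constructor
          · apply Fin.ext
            simp only
            omega
          · apply Fin.ext
            simp only
            omega
      · rintro (⟨⟨a, b⟩, hab, he⟩ | ⟨a, -, he⟩)
        · rw [mem_offDiag] at hab
          have h4 : (Lp k t).Adj a b := clique h a hab.1 b hab.2.1 hab.2.2
          rw [Sym2.eq_iff] at he
          rcases he with ⟨rfl, rfl⟩ | ⟨rfl, rfl⟩
          · exact h4
          · exact h4.symm
        · unfold pe at he
          have h4 : (Lp k t).Adj ⟨k + a.val - 1, by have := a.2; omega⟩
              ⟨k + a.val, by have := a.2; omega⟩ := by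
            right
            left
            constructor
            · simp only
              omega
            · simp only
              omega
          rw [Sym2.eq_iff] at he
          rcases he with ⟨rfl, rfl⟩ | ⟨rfl, rfl⟩
          · exact h4
          · exact h4.symm
  rw [h1, Set.ncard_coe_finset, card_union_of_disjoint]
  · congr 1
    · have := Sym2.card_image_offDiag (S0 k t h.le)
      rw [card_S0] at this
      exact this
    · rw [card_image_of_injective _ (pe_inj hk h), card_univ, Fintype.card_fin]
  · rw [Finset.disjoint_left]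
    intro e he he'
    rw [mem_image] at he he'
    obtain ⟨⟨a, b⟩, hab, rfl⟩ := he
    obtain ⟨c, -, hc⟩ := he'
    rw [mem_offDiag] at hab
    have ha := (mem_S0 h.le _).1 hab.1
    have hb := (mem_S0 h.le _).1 hab.2.1
    unfold pe at hc
    rw [Sym2.eq_iff] at hc
    simp only [Fin.ext_iff] at hc
    simp only at ha hb
    omega

end LpfAux

theorem lpf : SLpf := by
  intro k t hk h
  exact ⟨LpfAux.connected hk h, LpfAux.chromatic hk h, LpfAux.S0 k t h.le, LpfAux.card_S0 h.le,
    LpfAux.clique h, LpfAux.edges hk h⟩

end Pool.Agent.N412.LB
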