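import Pool.Agent.N412.LB.Stm
import Pool.Agent.W604.LP.Part

/-!
Project LB (helper412), problem MP_f2e3c0_co: part PART2 (helper901): lower bound for the red
lollipops with the red pairs between the parts.
-/

set_option autoImplicit false

open Finset

namespace Pool.Agent.N412.LB

open Pool.Agent.W297.LP

namespace Part2Aux

open Pool.Agent.W604.LP (sd ker_nonneg ker_le_one td_nonneg sd_nonneg sd_le_one td_ge be
  defect one_sub_sum_le sum_one cl_card)

variable {V : Type} [Fintype V]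

lemma td_ge_in {W : V → V → ℝ} (hW : Ker W) (D : Finset V) (hD : 0 < D.card) (A B : Tr) (x : V) :
    (ms D) ^ (Tr.br A B).sz * sd W D (Tr.br A B) x ≤
      td W A x * ((∑ y ∈ D, W x y * td W B y) / (Fintype.card V : ℝ)) := by
  have hn : 0 < Fintype.card V := lt_of_lt_of_le hD (Finset.card_le_univ D)
  have hn' : (0 : ℝ) < (Fintype.card V : ℝ) := by exact_mod_cast hn
  have hD' : (0 : ℝ) < (D.card : ℝ) := by exact_mod_cast hD
  have hv : 0 ≤ ms D := div_nonneg (Nat.cast_nonneg _) (Nat.cast_nonneg _)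
  simp only [sd, Tr.sz]
  have h1 : (ms D) ^ (B.sz + 1) * ((∑ y ∈ D, W x y * sd W D B y) / (D.card : ℝ)) ≤
      (∑ y ∈ D, W x y * td W B y) / (Fintype.card V : ℝ) := by
    have e1 : (ms D) ^ (B.sz + 1) * ((∑ y ∈ D, W x y * sd W D B y) / (D.card : ℝ)) =
        (∑ y ∈ D, W x y * ((ms D) ^ B.sz * sd W D B y)) / (Fintype.card V : ℝ) := by
      have e2 : ∑ y ∈ D, W x y * ((ms D) ^ B.sz * sd W D B y) =
          (ms D) ^ B.sz * ∑ y ∈ D, W x y * sd W D B y := by
        rw [mul_sum]
        apply sum_congr rfl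
        intro y _
        ring
      rw [e2, pow_succ]
      have : ms D = (D.card : ℝ) / (Fintype.card V : ℝ) := rfl
      conv_lhs => rw [show (ms D) ^ B.sz * ms D = (ms D) ^ B.sz * ((D.card : ℝ) / (Fintype.card V : ℝ)) from by rw [← this]]
      field_simp
    rw [e1]
    apply div_le_div_of_nonneg_right _ hn'.le
    apply sum_le_sum
    intro y _
    exact mul_le_mul_of_nonneg_left (td_ge hW D hD B y) (ker_nonneg hW x y)
  have h2 : 0 ≤ (ms D) ^ (B.sz + 1) * ((∑ y ∈ D, W x y * sd W D B y) / (D.card : ℝ)) :=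
    mul_nonneg (pow_nonneg hv _) (div_nonneg
      (sum_nonneg fun y _ => mul_nonneg (ker_nonneg hW x y) (sd_nonneg hW D B y))
      (Nat.cast_nonneg _))
  calc (ms D) ^ (A.sz + B.sz + 1) *
        (sd W D A x * ((∑ y ∈ D, W x y * sd W D B y) / (D.card : ℝ)))
      = ((ms D) ^ A.sz * sd W D A x) *
        ((ms D) ^ (B.sz + 1) * ((∑ y ∈ D, W x y * sd W D B y) / (D.card : ℝ))) := by ring
    _ ≤ td W A x * ((∑ y ∈ D, W x y * td W B y) / (Fintype.card V : ℝ)) :=
        mul_le_mul (td_ge hW D hD A x) h1 h2 (td_nonneg hW A x)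

/-- lower bound of the tree densities on a set with large inner degrees -/
lemma td_low {W : V → V → ℝ} (hW : Ker W) (m : ℝ) (hm : 0 ≤ m) (D : Finset V)
    (hdeg : ∀ x ∈ D, m * (Fintype.card V : ℝ) ≤ ∑ y ∈ D, W x y) (hn : 0 < Fintype.card V)
    (S : Tr) : ∀ x ∈ D, m ^ S.sz ≤ td W S x := by
  have hn' : (0 : ℝ) < (Fintype.card V : ℝ) := by exact_mod_cast hn
  induction S with
  | pt => intro x _; simp [td, Tr.sz]
  | br A B hA hB =>
    intro x hx
    simp only [td, Tr.sz]
    have h1 : m ^ (B.sz + 1) ≤ (∑ y, W x y * td W B y) / (Fintype.card V : ℝ) := by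
      rw [le_div_iff₀ hn']
      calc m ^ (B.sz + 1) * (Fintype.card V : ℝ) = m ^ B.sz * (m * (Fintype.card V : ℝ)) := by ring
        _ ≤ m ^ B.sz * ∑ y ∈ D, W x y :=
            mul_le_mul_of_nonneg_left (hdeg x hx) (pow_nonneg hm _)
        _ = ∑ y ∈ D, W x y * m ^ B.sz := by rw [mul_sum]; exact sum_congr rfl fun y _ => by ring
        _ ≤ ∑ y ∈ D, W x y * td W B y :=
            sum_le_sum fun y hy => mul_le_mul_of_nonneg_left (hB y hy) (ker_nonneg hW x y)
        _ ≤ ∑ y, W x y * td W B y :=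
            sum_le_sum_of_subset_of_nonneg (subset_univ D) fun y _ _ =>
              mul_nonneg (ker_nonneg hW x y) (td_nonneg hW B y)
    calc m ^ (A.sz + B.sz + 1) = m ^ A.sz * m ^ (B.sz + 1) := by rw [← pow_add]; ring_nf
      _ ≤ td W A x * ((∑ y, W x y * td W B y) / (Fintype.card V : ℝ)) :=
          mul_le_mul (hA x hx) h1 (pow_nonneg hm _) (td_nonneg hW A x)

open Classical in
/-- cliques in `D` all of whose entries are joined to `v` -/
noncomputable def cv (W : V → V → ℝ) (D : Finset V) (v : V) (s : ℕ) : Finset (Fin s → V) :=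
  (cl W D s).filter (fun x => ∀ i, W v (x i) = 1)

open Classical in
/-- number of common neighbours -/
lemma common {W : V → V → ℝ} (hW : Ker W) (D : Finset V) (a : ℝ)
    (hco : ∀ x ∈ D, ∑ y ∈ D, co W x y ≤ a) (v : V) (hv : v ∈ D) (s : ℕ) (x : Fin s → V)
    (hx : ∀ i, x i ∈ D) :
    (D.card : ℝ) - ((s : ℝ) + 1) * a ≤
      ((D.filter (fun y => W v y = 1 ∧ ∀ i, W (x i) y = 1)).card : ℝ) := by
  have h1 : (D.card : ℝ) - ((D.filter (fun y => W v y = 1 ∧ ∀ i, W (x i) y = 1)).card : ℝ) ≤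
      ∑ y ∈ D, (co W v y + ∑ i, co W (x i) y) := by
    rw [card_filter]
    push_cast
    rw [← mul_one (D.card : ℝ), ← nsmul_eq_mul, ← sum_const, ← sum_sub_distrib]
    apply sum_le_sum
    intro y _
    have hnn : ∀ a b, 0 ≤ co W a b := fun a b => by
      simp only [co]; linarith [ker_le_one hW a b]
    have hs : 0 ≤ ∑ i, co W (x i) y := sum_nonneg fun i _ => hnn _ _
    by_cases hy : W v y = 1 ∧ ∀ i, W (x i) y = 1
    · rw [if_pos hy]
      linarith [hnn v y]
    · rw [if_neg hy, sub_zero]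
      by_cases h0 : W v y = 1
      · have : ∃ i, W (x i) y ≠ 1 := by
          by_contra hc
          push Not at hc
          exact hy ⟨h0, hc⟩
        obtain ⟨i, hi⟩ := this
        have hz : W (x i) y = 0 := by
          rcases hW.zo (x i) y with h | h
          · exact h
          · exact absurd h hi
        have h2 : co W (x i) y ≤ ∑ i, co W (x i) y :=
          single_le_sum (f := fun i => co W (x i) y) (fun j _ => hnn _ _) (mem_univ i)
        have h3 : co W (x i) y = 1 := by simp [co, hz]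
        linarith [hnn v y]
      · have hz : W v y = 0 := by
          rcases hW.zo v y with h | h
          · exact h
          · exact absurd h h0
        have h3 : co W v y = 1 := by simp [co, hz]
        linarith
  have h2 : ∑ y ∈ D, (co W v y + ∑ i, co W (x i) y) ≤ ((s : ℝ) + 1) * a := by
    rw [sum_add_distrib, sum_comm]
    have h3 : ∑ i : Fin s, ∑ y ∈ D, co W (x i) y ≤ ∑ _i : Fin s, a :=
      sum_le_sum fun i _ => hco (x i) (hx i)
    rw [sum_const, card_univ, Fintype.card_fin, nsmul_eq_mul] at h3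
    linarith [hco v hv]
  linarith

open Classical in
lemma cv_card {W : V → V → ℝ} (hW : Ker W) (D : Finset V) (a b : ℝ) (hb : 0 ≤ b)
    (hco : ∀ x ∈ D, ∑ y ∈ D, co W x y ≤ a) (v : V) (hv : v ∈ D) (r : ℕ)
    (hr : b ≤ (D.card : ℝ) - (r : ℝ) * a) (ha : 0 ≤ a) :
    ∀ s, s ≤ r → b ^ s ≤ ((cv W D v s).card : ℝ) := by
  intro s
  induction s with
  | zero =>
    intro _
    have : cv W D v 0 = univ := by
      ext x
      simp [cv, cl]
    rw [this]
    simp
  | succ s ih =>
    intro hs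
    have h1 := ih (by omega)
    -- the extensions
    have h2 : (((cv W D v s).sigma (fun x => D.filter
        (fun y => W v y = 1 ∧ ∀ i, W (x i) y = 1))).card : ℝ) ≤ ((cv W D v (s + 1)).card : ℝ) := by
      norm_cast
      apply Finset.card_le_card_of_injOn
        (fun p : (Σ _ : (Fin s → V), V) => (Fin.cons p.2 p.1 : Fin (s + 1) → V))
      · rintro ⟨x, y⟩ hp
        simp only [coe_sigma, Set.mem_sigma_iff, mem_coe, mem_filter, cv, cl, mem_univ,
          true_and] at hp
        obtain ⟨⟨⟨hx1, hx2⟩, hx3⟩, hy1, hy2, hy3⟩ := hp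
        simp only [mem_coe, cv, cl, mem_filter, mem_univ, true_and]
        refine ⟨⟨?_, ?_⟩, ?_⟩
        · intro i
          refine Fin.cases ?_ ?_ i
          · simpa using hy1
          · intro j; simpa using hx1 j
        · intro i
          refine Fin.cases ?_ ?_ i
          · intro j
            refine Fin.cases ?_ ?_ j
            · intro h; exact absurd rfl h
            · intro j _
              simp only [Fin.cons_zero, Fin.cons_succ]
              rw [hW.symm]; exact hy3 j
          · intro i' j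
            refine Fin.cases ?_ ?_ j
            · intro _
              simp only [Fin.cons_zero, Fin.cons_succ]
              exact hy3 i'
            · intro j' h
              simp only [Fin.cons_succ]
              exact hx2 i' j' (fun h' => h (by rw [h']))
        · intro i
          refine Fin.cases ?_ ?_ i
          · simpa using hy2
          · intro j; simpa using hx3 j
      · rintro ⟨x, y⟩ _ ⟨x', y'⟩ _ h
        have h' := Fin.cons_inj.mp h
        obtain ⟨ha, hb⟩ := h'
        simp only at ha hb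
        subst ha hb
        rfl
    rw [card_sigma] at h2
    push_cast at h2
    have h3 : ∑ x ∈ cv W D v s, b ≤ ∑ x ∈ cv W D v s, ((D.filter
        (fun y => W v y = 1 ∧ ∀ i, W (x i) y = 1)).card : ℝ) := by
      apply sum_le_sum
      intro x hx
      simp only [cv, cl, mem_filter, mem_univ, true_and] at hx
      have h4 := common hW D a hco v hv s x hx.1.1
      have h5 : ((s : ℝ) + 1) * a ≤ (r : ℝ) * a := by
        apply mul_le_mul_of_nonneg_right _ ha
        exact_mod_cast hs
      linarith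
    rw [sum_const, nsmul_eq_mul] at h3
    calc b ^ (s + 1) = b ^ s * b := by ring
      _ ≤ ((cv W D v s).card : ℝ) * b := mul_le_mul_of_nonneg_right h1 hb
      _ ≤ _ := h3
      _ ≤ _ := h2

open Classical in
/-- the cliques with one given entry -/
noncomputable def fb (W : V → V → ℝ) (D : Finset V) (s : ℕ) (j0 : Fin s) (v : V) :
    Finset (Fin s → V) := (cl W D s).filter (fun x => x j0 = v)

open Classical in
/-- number of cliques with one given entry -/
lemma cl_fib {W : V → V → ℝ} (hW : Ker W) (D : Finset V) (v : V) (hv : v ∈ D) (s : ℕ)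
    (j0 : Fin (s + 1)) :
    ((cv W D v s).card : ℝ) ≤ ((fb W D (s + 1) j0 v).card : ℝ) := by
  rw [fb]
  norm_cast
  apply Finset.card_le_card_of_injOn (fun x => (Fin.insertNth j0 v x : Fin (s + 1) → V))
  · intro x hx
    simp only [mem_coe, cv, cl, mem_filter, mem_univ, true_and] at hx ⊢
    obtain ⟨⟨hx1, hx2⟩, hx3⟩ := hx
    refine ⟨⟨?_, ?_⟩, ?_⟩
    · rw [Fin.forall_iff_succAbove j0]
      refine ⟨?_, ?_⟩
      · rw [Fin.insertNth_apply_same]; exact hv
      · intro i; rw [Fin.insertNth_apply_succAbove]; exact hx1 i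
    · rw [Fin.forall_iff_succAbove j0]
      refine ⟨?_, ?_⟩
      · rw [Fin.forall_iff_succAbove j0]
        refine ⟨fun h => absurd rfl h, ?_⟩
        intro j _
        rw [Fin.insertNth_apply_same, Fin.insertNth_apply_succAbove]
        exact hx3 j
      · intro i
        rw [Fin.forall_iff_succAbove j0]
        refine ⟨?_, ?_⟩
        · intro _
          rw [Fin.insertNth_apply_same, Fin.insertNth_apply_succAbove, hW.symm]
          exact hx3 i
        · intro j h
          rw [Fin.insertNth_apply_succAbove, Fin.insertNth_apply_succAbove]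
          exact hx2 i j (fun h' => h (by rw [h']))
    · rw [Fin.insertNth_apply_same]
  · intro x _ x' _ h
    funext i
    have := congrFun h (j0.succAbove i)
    simpa [Fin.insertNth_apply_succAbove] using this

open Classical in
lemma sum_fib {W : V → V → ℝ} (D : Finset V) (s : ℕ) (j0 : Fin s) (f : V → ℝ) (b : ℝ)
    (hf : ∀ v, 0 ≤ f v)
    (hb : ∀ v ∈ D, b ≤ ((fb W D s j0 v).card : ℝ)) :
    b * ∑ v ∈ D, f v ≤ ∑ x ∈ cl W D s, f (x j0) := by
  have hmaps : ∀ x ∈ cl W D s, x j0 ∈ D := by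
    intro x hx
    simp only [cl, mem_filter] at hx
    exact hx.2.1 j0
  rw [← sum_fiberwise_of_maps_to hmaps (fun x => f (x j0)), mul_sum]
  apply sum_le_sum
  intro v hv
  have h1 : ∑ x ∈ (cl W D s).filter (fun x => x j0 = v), f (x j0) =
      ∑ x ∈ (cl W D s).filter (fun x => x j0 = v), f v := by
    apply sum_congr rfl
    intro x hx
    rw [(mem_filter.mp hx).2]
  rw [h1, sum_const, nsmul_eq_mul]
  exact mul_le_mul_of_nonneg_right (hb v hv) (hf v)

open Classical in
/-- the main term of PART -/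
lemma main_term {k : ℕ} (hk : 4 ≤ k) {W : V → V → ℝ} (hW : Ker W) (D : Finset V)
    (hD : 0 < D.card) (T : Fin k → Tr) :
    (ms D) ^ (tot T + k) - ((k : ℝ) ^ 2 + (tot T : ℝ)) * ee (co W) D D ≤
      ((ms D) ^ (tot T) * ∑ x ∈ cl W D k, ∏ j, sd W D (T j) (x j)) /
        (Fintype.card V : ℝ) ^ k := by
  have hv0 : 0 ≤ ms D := div_nonneg (Nat.cast_nonneg _) (Nat.cast_nonneg _)
  have hn : 0 < Fintype.card V := lt_of_lt_of_le hD (Finset.card_le_univ D)
  have hn' : (0 : ℝ) < (Fintype.card V : ℝ) := by exact_mod_cast hn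
  have hD' : (0 : ℝ) < (D.card : ℝ) := by exact_mod_cast hD
  have hvpos : 0 < ms D := div_pos hD' hn'
  have hv1 : ms D ≤ 1 := by
    rw [ms, div_le_one hn']
    exact_mod_cast Finset.card_le_univ D
  have h1 : (ms D) ^ (tot T) * ∑ x ∈ cl W D k, (1 - ∑ j, (1 - sd W D (T j) (x j))) ≤
      (ms D) ^ (tot T) * ∑ x ∈ cl W D k, ∏ j, sd W D (T j) (x j) := by
    apply mul_le_mul_of_nonneg_left _ (pow_nonneg hv0 _)
    apply sum_le_sum
    intro x _
    exact one_sub_sum_le _ (fun j => sd_nonneg hW D _ _) (fun j => sd_le_one hW D _ _)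
  have hsub : cl W D k ⊆ Fintype.piFinset (fun _ : Fin k => D) := by
    intro x hx
    simp only [cl, mem_filter] at hx
    exact Fintype.mem_piFinset.mpr hx.2.1
  have h2 : ((cl W D k).card : ℝ) - (D.card : ℝ) ^ k * ((tot T : ℝ) * be W D) ≤
      ∑ x ∈ cl W D k, (1 - ∑ j, (1 - sd W D (T j) (x j))) := by
    rw [sum_sub_distrib, sum_const, nsmul_eq_mul, mul_one]
    apply sub_le_sub_left
    calc ∑ x ∈ cl W D k, ∑ j, (1 - sd W D (T j) (x j))
        ≤ ∑ x ∈ Fintype.piFinset (fun _ : Fin k => D), ∑ j, (1 - sd W D (T j) (x j)) := by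
          apply sum_le_sum_of_subset_of_nonneg hsub
          intro x _ _
          exact sum_nonneg fun j _ => by linarith [sd_le_one hW D (T j) (x j)]
      _ = ∑ j, ∑ x ∈ Fintype.piFinset (fun _ : Fin k => D), (1 - sd W D (T j) (x j)) := sum_comm
      _ ≤ ∑ j, (D.card : ℝ) ^ k * (((T j).sz : ℝ) * be W D) := by
          apply sum_le_sum
          intro j _
          have h3 := sum_one D j (fun y => 1 - sd W D (T j) y)
          have h4 := defect hW D hD (T j)
          have h5 : (D.card : ℝ) * ∑ x ∈ Fintype.piFinset (fun _ : Fin k => D),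
              (1 - sd W D (T j) (x j)) ≤
              (D.card : ℝ) * ((D.card : ℝ) ^ k * (((T j).sz : ℝ) * be W D)) := by
            rw [h3]
            calc (D.card : ℝ) ^ k * ∑ a ∈ D, (1 - sd W D (T j) a)
                ≤ (D.card : ℝ) ^ k * (((T j).sz : ℝ) * be W D * (D.card : ℝ)) :=
                  mul_le_mul_of_nonneg_left h4 (by positivity)
              _ = _ := by ring
          exact le_of_mul_le_mul_left h5 hD'
      _ = (D.card : ℝ) ^ k * ((tot T : ℝ) * be W D) := by
          rw [← mul_sum, ← sum_mul]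
          simp only [tot]
          push_cast
          rfl
  have h3 := cl_card (k := k) hW D hD
  have h4 : (ms D) ^ (tot T) * ((D.card : ℝ) ^ k * (1 - ((k : ℝ) ^ 2 + (tot T : ℝ)) * be W D)) ≤
      (ms D) ^ (tot T) * ∑ x ∈ cl W D k, ∏ j, sd W D (T j) (x j) := by
    refine le_trans ?_ h1
    apply mul_le_mul_of_nonneg_left _ (pow_nonneg hv0 _)
    nlinarith [h2, h3]
  rw [le_div_iff₀ (by positivity)]
  refine le_trans ?_ h4
  have hms : ms D = (D.card : ℝ) / (Fintype.card V : ℝ) := rfl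
  have hbe : 0 ≤ be W D := by
    apply div_nonneg _ (by positivity)
    exact sum_nonneg fun x _ => sum_nonneg fun y _ => by
      simp only [co]; linarith [ker_le_one hW x y]
  have hee : ee (co W) D D = be W D * (ms D) ^ 2 := by
    rw [be, ee, hms, div_pow, div_mul_div_comm, mul_comm ((D.card : ℝ) ^ 2)]
    rw [mul_div_mul_right _ _ (pow_ne_zero 2 hD'.ne')]
  have hDn : (D.card : ℝ) = ms D * (Fintype.card V : ℝ) := by
    rw [hms, div_mul_cancel₀ _ hn'.ne']
  obtain ⟨q, hq⟩ : ∃ q, tot T + k = q + 2 := ⟨tot T + k - 2, by omega⟩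
  have hkk : (ms D) ^ (tot T) * (ms D) ^ k = (ms D) ^ (q + 2) := by rw [← pow_add, hq]
  have hq1 : (ms D) ^ q ≤ 1 := pow_le_one₀ hv0 hv1
  have hge : (ms D) ^ (tot T + k) - ((k : ℝ) ^ 2 + (tot T : ℝ)) * ee (co W) D D ≤
      (ms D) ^ (q + 2) - ((k : ℝ) ^ 2 + (tot T : ℝ)) * (be W D * (ms D) ^ 2) * (ms D) ^ q := by
    rw [hee, hq]
    have h5 : 0 ≤ ((k : ℝ) ^ 2 + (tot T : ℝ)) * (be W D * (ms D) ^ 2) := by positivity
    nlinarith
  refine le_trans (mul_le_mul_of_nonneg_right hge (by positivity)) (le_of_eq ?_)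
  calc ((ms D) ^ (q + 2) - ((k : ℝ) ^ 2 + (tot T : ℝ)) * (be W D * (ms D) ^ 2) * (ms D) ^ q) *
        (Fintype.card V : ℝ) ^ k
      = (ms D) ^ (q + 2) * (Fintype.card V : ℝ) ^ k *
        (1 - ((k : ℝ) ^ 2 + (tot T : ℝ)) * be W D) := by ring
    _ = (ms D) ^ (tot T) * (ms D) ^ k * (Fintype.card V : ℝ) ^ k *
        (1 - ((k : ℝ) ^ 2 + (tot T : ℝ)) * be W D) := by rw [hkk]
    _ = (ms D) ^ (tot T) * ((ms D * (Fintype.card V : ℝ)) ^ k *
        (1 - ((k : ℝ) ^ 2 + (tot T : ℝ)) * be W D)) := by ring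
    _ = _ := by rw [← hDn]

open Classical in
/-- one part -/
lemma one_part {k : ℕ} (hk : 4 ≤ k) (T : Fin k → Tr) (j0 : Fin k) (A B : Tr)
    (hj0 : T j0 = Tr.br A B) {W : V → V → ℝ} (hW : Ker W) (hn : 0 < Fintype.card V)
    (Vi : Fin (k - 1) → Finset V) (hdis : ∀ i j, i ≠ j → Disjoint (Vi i) (Vi j))
    (m : ℝ) (hm : 0 < m) (hm1 : m ≤ 1)
    (hdeg : ∀ i, ∀ x ∈ Vi i, m * (Fintype.card V : ℝ) ≤ ∑ y ∈ Vi i, W x y)
    (i : Fin (k - 1)) (hD : 0 < (Vi i).card)
    (hfib : ∀ v ∈ Vi i, (m * (Fintype.card V : ℝ)) ^ (k - 1) ≤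
      ((fb W (Vi i) k j0 v).card : ℝ)) :
    (ms (Vi i)) ^ (tot T + k) - ((k : ℝ) ^ 2 + (tot T : ℝ)) * ee (co W) (Vi i) (Vi i) +
      m ^ (tot T + k) * ∑ j ∈ univ.erase i, ee W (Vi i) (Vi j) ≤
      (∑ x ∈ cl W (Vi i) k, ∏ j, td W (T j) (x j)) / (Fintype.card V : ℝ) ^ k := by
  have hn' : (0 : ℝ) < (Fintype.card V : ℝ) := by exact_mod_cast hn
  have hv0 : 0 ≤ ms (Vi i) := div_nonneg (Nat.cast_nonneg _) (Nat.cast_nonneg _)
  set D := Vi i with hDdef
  set N := (Fintype.card V : ℝ) with hN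
  -- cross degree
  set f : V → ℝ := fun v => ∑ j ∈ univ.erase i, ∑ y ∈ Vi j, W v y with hf
  have hf0 : ∀ v, 0 ≤ f v := fun v =>
    sum_nonneg fun j _ => sum_nonneg fun y _ => ker_nonneg hW v y
  have hrest : tot T = (A.sz + B.sz + 1) + ∑ j ∈ univ.erase j0, (T j).sz := by
    rw [tot, ← add_sum_erase univ _ (mem_univ j0), hj0]
    rfl
  set R := ∑ j ∈ univ.erase j0, (T j).sz with hR
  have hlow := fun (S : Tr) (l : Fin (k - 1)) => td_low hW m hm.le (Vi l) (hdeg l) hn S
  have hpt : ∀ x ∈ cl W D k, (ms D) ^ (tot T) * ∏ j, sd W D (T j) (x j) +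
      m ^ (tot T - 1) * (f (x j0) / N) ≤ ∏ j, td W (T j) (x j) := by
    intro x hx
    simp only [cl, mem_filter, mem_univ, true_and] at hx
    obtain ⟨hxD, _⟩ := hx
    rw [← mul_prod_erase univ (fun j => td W (T j) (x j)) (mem_univ j0),
      ← mul_prod_erase univ (fun j => sd W D (T j) (x j)) (mem_univ j0), hj0]
    set P := ∏ j ∈ univ.erase j0, td W (T j) (x j) with hP
    set Q := ∏ j ∈ univ.erase j0, sd W D (T j) (x j) with hQ
    have hQ0 : 0 ≤ Q := prod_nonneg fun j _ => sd_nonneg hW D _ _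
    have hPQ : (ms D) ^ R * Q ≤ P := by
      rw [hR, ← prod_pow_eq_pow_sum, ← prod_mul_distrib]
      exact prod_le_prod (fun j _ => mul_nonneg (pow_nonneg hv0 _) (sd_nonneg hW D _ _))
        (fun j _ => td_ge hW D hD (T j) (x j))
    have hPm : m ^ R ≤ P := by
      rw [hR, ← prod_pow_eq_pow_sum]
      exact prod_le_prod (fun j _ => pow_nonneg hm.le _)
        (fun j _ => hlow (T j) i (x j) (hxD j))
    have hP0 : 0 ≤ P := le_trans (pow_nonneg hm.le _) hPm
    have hAm : m ^ A.sz ≤ td W A (x j0) := hlow A i (x j0) (hxD j0)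
    -- split
    have hsplit : td W (Tr.br A B) (x j0) =
        td W A (x j0) * ((∑ y ∈ D, W (x j0) y * td W B y) / N) +
        td W A (x j0) * ((∑ y ∈ Dᶜ, W (x j0) y * td W B y) / N) := by
      rw [← mul_add, ← add_div, sum_add_sum_compl]
      rfl
    have hin := td_ge_in hW D hD A B (x j0)
    have hout : m ^ A.sz * (m ^ B.sz * f (x j0) / N) ≤
        td W A (x j0) * ((∑ y ∈ Dᶜ, W (x j0) y * td W B y) / N) := by
      apply mul_le_mul hAm _ _ (td_nonneg hW A _)
      · apply div_le_div_of_nonneg_right _ hn'.le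
        have hbU : ∑ y ∈ (univ.erase i).biUnion Vi, W (x j0) y * td W B y =
            ∑ j ∈ univ.erase i, ∑ y ∈ Vi j, W (x j0) y * td W B y := by
          apply sum_biUnion
          intro a _ b _ hab
          exact hdis a b hab
        calc m ^ B.sz * f (x j0) = ∑ j ∈ univ.erase i, ∑ y ∈ Vi j, W (x j0) y * m ^ B.sz := by
              rw [hf]
              simp only [mul_sum]
              exact sum_congr rfl fun j _ => sum_congr rfl fun y _ => by ring
          _ ≤ ∑ j ∈ univ.erase i, ∑ y ∈ Vi j, W (x j0) y * td W B y :=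
              sum_le_sum fun j _ => sum_le_sum fun y hy =>
                mul_le_mul_of_nonneg_left (hlow B j y hy) (ker_nonneg hW _ _)
          _ = ∑ y ∈ (univ.erase i).biUnion Vi, W (x j0) y * td W B y := hbU.symm
          _ ≤ ∑ y ∈ Dᶜ, W (x j0) y * td W B y := by
              apply sum_le_sum_of_subset_of_nonneg
              · intro y hy
                simp only [mem_biUnion, mem_erase, mem_univ, and_true] at hy
                obtain ⟨j, hj, hyj⟩ := hy
                rw [mem_compl]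
                intro hyD
                exact (Finset.disjoint_left.mp (hdis j i hj)) hyj hyD
              · intro y _ _
                exact mul_nonneg (ker_nonneg hW _ _) (td_nonneg hW B y)
      · exact div_nonneg (mul_nonneg (pow_nonneg hm.le _) (hf0 _)) hn'.le
    have hs0 : 0 ≤ (ms D) ^ (Tr.br A B).sz * sd W D (Tr.br A B) (x j0) :=
      mul_nonneg (pow_nonneg hv0 _) (sd_nonneg hW D _ _)
    have hin0 := le_trans hs0 hin
    have hfN : 0 ≤ f (x j0) / N := div_nonneg (hf0 _) hn'.le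
    have h1 : (ms D) ^ (tot T) * (sd W D (Tr.br A B) (x j0) * Q) =
        ((ms D) ^ (Tr.br A B).sz * sd W D (Tr.br A B) (x j0)) * ((ms D) ^ R * Q) := by
      rw [hrest, pow_add]
      simp only [Tr.sz]
      ring
    have h2 : m ^ (tot T - 1) * (f (x j0) / N) =
        (m ^ A.sz * (m ^ B.sz * f (x j0) / N)) * m ^ R := by
      have h3 : tot T - 1 = A.sz + B.sz + R := by omega
      rw [h3, pow_add, pow_add]
      ring
    rw [h1, h2, hsplit, add_mul]
    apply add_le_add
    · exact mul_le_mul hin hPQ (mul_nonneg (pow_nonneg hv0 _) hQ0) hin0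
    · apply mul_le_mul hout hPm (pow_nonneg hm.le _)
      refine le_trans ?_ hout
      exact mul_nonneg (pow_nonneg hm.le _)
        (div_nonneg (mul_nonneg (pow_nonneg hm.le _) (hf0 _)) hn'.le)
  have hsum := sum_le_sum hpt
  rw [sum_add_distrib, ← mul_sum, ← mul_sum, ← sum_div] at hsum
  have hS := sum_fib (W := W) D k j0 f ((m * N) ^ (k - 1)) hf0 hfib
  have hee : ∑ j ∈ univ.erase i, ee W D (Vi j) = (∑ v ∈ D, f v) / N ^ 2 := by
    simp only [hf, ee]
    rw [← sum_div, sum_comm]
  have hmain := main_term hk hW D hD T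
  have hT1 : 1 ≤ tot T := by omega
  have hfs : 0 ≤ ∑ v ∈ D, f v := sum_nonneg fun v _ => hf0 v
  have h5 : m ^ (tot T + k) * ((∑ v ∈ D, f v) / N ^ 2) ≤
      (m ^ (tot T - 1) * ((∑ x ∈ cl W D k, f (x j0)) / N)) / N ^ k := by
    obtain ⟨k', rfl⟩ : ∃ k', k = k' + 1 := ⟨k - 1, by omega⟩
    have h6 : m ^ (tot T - 1) * (((m * N) ^ k' * ∑ v ∈ D, f v) / N) / N ^ (k' + 1) =
        m ^ (tot T - 1 + k') * ((∑ v ∈ D, f v) / N ^ 2) := by
      rw [mul_pow, pow_add m (tot T - 1) k']
      field_simp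
      ring
    have h7 : m ^ (tot T + (k' + 1)) ≤ m ^ (tot T - 1 + k') :=
      pow_le_pow_of_le_one hm.le hm1 (by omega)
    calc m ^ (tot T + (k' + 1)) * ((∑ v ∈ D, f v) / N ^ 2)
        ≤ m ^ (tot T - 1 + k') * ((∑ v ∈ D, f v) / N ^ 2) :=
          mul_le_mul_of_nonneg_right h7 (div_nonneg hfs (by positivity))
      _ = m ^ (tot T - 1) * (((m * N) ^ k' * ∑ v ∈ D, f v) / N) / N ^ (k' + 1) := h6.symm
      _ ≤ _ := by
          apply div_le_div_of_nonneg_right _ (by positivity)
          apply mul_le_mul_of_nonneg_left _ (pow_nonneg hm.le _)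
          apply div_le_div_of_nonneg_right _ hn'.le
          simpa using hS
  rw [hee]
  calc (ms D) ^ (tot T + k) - ((k : ℝ) ^ 2 + (tot T : ℝ)) * ee (co W) D D +
        m ^ (tot T + k) * ((∑ v ∈ D, f v) / N ^ 2)
      ≤ ((ms D) ^ (tot T) * ∑ x ∈ cl W D k, ∏ j, sd W D (T j) (x j)) / N ^ k +
        (m ^ (tot T - 1) * ((∑ x ∈ cl W D k, f (x j0)) / N)) / N ^ k := add_le_add hmain h5
    _ = ((ms D) ^ (tot T) * ∑ x ∈ cl W D k, ∏ j, sd W D (T j) (x j) +
        m ^ (tot T - 1) * ((∑ x ∈ cl W D k, f (x j0)) / N)) / N ^ k := by rw [add_div]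
    _ ≤ _ := div_le_div_of_nonneg_right hsum (by positivity)

end Part2Aux

open Part2Aux

open Classical in
/-- PART2 -/
theorem part2 : SPart2 := by
  intro k hk T hT
  have hk4 : (4 : ℝ) ≤ (k : ℝ) := by exact_mod_cast hk
  have hmu : 0 < mu k := by
    rw [mu]; apply div_pos one_pos; linarith
  have hmu3 : mu k ≤ 1 / 3 := by
    rw [mu]
    apply one_div_le_one_div_of_le (by norm_num)
    linarith
  have hkmu : (k : ℝ) * mu k ≤ 4 / 3 := by
    rw [mu, mul_one_div, div_le_iff₀ (by linarith)]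
    linarith
  refine ⟨(mu k / 2) ^ (tot T + k), by positivity, ?_⟩
  intro e d he hd V _ _ W Vi A1 A2 hW hn hTyp
  have hn' : (0 : ℝ) < (Fintype.card V : ℝ) := by exact_mod_cast hn
  -- a branch
  obtain ⟨j0, A, B, hj0⟩ : ∃ (j0 : Fin k) (A B : Tr), T j0 = Tr.br A B := by
    by_contra hc
    push Not at hc
    have : ∀ j, (T j).sz = 0 := by
      intro j
      cases hj : T j with
      | pt => rfl
      | br A B => exact absurd hj (hc j A B)
    simp [tot, this] at hT
  -- sizes
  have hsz : ∀ i, (mu k - d) * (Fintype.card V : ℝ) ≤ ((Vi i).card : ℝ) := by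
    intro i
    have h1 := (abs_le.mp (hTyp.size i)).1
    rw [ms, le_sub_iff_add_le, le_div_iff₀ hn'] at h1
    linarith
  have hd1 : d ≤ mu k / 48 := by nlinarith
  have he1 : e ≤ mu k / 48 := by nlinarith
  have hke : (k : ℝ) * e ≤ mu k / 12 := by
    calc (k : ℝ) * e ≤ (k : ℝ) * (mu k ^ 2 / 16) := by
          apply mul_le_mul_of_nonneg_left he; positivity
      _ = (k : ℝ) * mu k * mu k / 16 := by ring
      _ ≤ 4 / 3 * mu k / 16 := by
          apply div_le_div_of_nonneg_right _ (by norm_num)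
          exact mul_le_mul_of_nonneg_right hkmu hmu.le
      _ = mu k / 12 := by ring
  have hpos : ∀ i, 0 < (Vi i).card := by
    intro i
    have h1 := hsz i
    have h2 : (0 : ℝ) < (mu k - d) * (Fintype.card V : ℝ) := mul_pos (by linarith) hn'
    exact_mod_cast lt_of_lt_of_le h2 h1
  have he0 : 0 ≤ e := by
    obtain ⟨x, hx⟩ := Finset.card_pos.mp (hpos ⟨0, by omega⟩)
    have h1 := hTyp.typ _ x hx
    have h2 : 0 ≤ ∑ y ∈ Vi ⟨0, by omega⟩, co W x y := sum_nonneg fun y _ => by
      simp only [co]; linarith [Pool.Agent.W604.LP.ker_le_one hW x y]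
    by_contra hc
    push Not at hc
    have := mul_neg_of_neg_of_pos hc hn'
    linarith
  have hdeg : ∀ i, ∀ x ∈ Vi i, (mu k / 2) * (Fintype.card V : ℝ) ≤ ∑ y ∈ Vi i, W x y := by
    intro i x hx
    have h1 := hTyp.typ i x hx
    have h2 : ∑ y ∈ Vi i, co W x y = ((Vi i).card : ℝ) - ∑ y ∈ Vi i, W x y := by
      simp only [co]
      rw [sum_sub_distrib, sum_const, nsmul_eq_mul, mul_one]
    have h3 := hsz i
    rw [h2] at h1
    nlinarith
  have hfib : ∀ i, ∀ v ∈ Vi i, ((mu k / 2) * (Fintype.card V : ℝ)) ^ (k - 1) ≤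
      ((fb W (Vi i) k j0 v).card : ℝ) := by
    intro i v hv
    obtain ⟨k', rfl⟩ : ∃ k', k = k' + 1 := ⟨k - 1, by omega⟩
    refine le_trans ?_ (cl_fib hW (Vi i) v hv k' j0)
    refine cv_card hW (Vi i) (e * (Fintype.card V : ℝ)) _ (by positivity) (hTyp.typ i) v hv
      (k' + 1) ?_ (by positivity) (k' + 1 - 1) (by omega)
    have h3 := hsz i
    have h4 : ((k' + 1 : ℕ) : ℝ) * (e * (Fintype.card V : ℝ)) =
        (((k' + 1 : ℕ) : ℝ) * e) * (Fintype.card V : ℝ) := by ring
    rw [h4]
    nlinarith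
  have hone := fun i => one_part hk T j0 A B hj0 hW hn Vi hTyp.disj (mu k / 2) (by positivity)
    (by linarith) hdeg i (hpos i) (hfib i)
  have hsum := sum_le_sum fun i (_ : i ∈ (univ : Finset (Fin (k - 1)))) => hone i
  rw [sum_add_distrib, sum_sub_distrib, ← mul_sum, ← mul_sum, ← sum_div] at hsum
  refine le_trans (le_trans (le_of_eq ?_) hsum) ?_
  · rfl
  · rw [lol]
    apply div_le_div_of_nonneg_right _ (by positivity)
    have hbU : ∑ x ∈ univ.biUnion (fun i => cl W (Vi i) k), ∏ j, td W (T j) (x j) =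
        ∑ i, ∑ x ∈ cl W (Vi i) k, ∏ j, td W (T j) (x j) := by
      apply sum_biUnion
      intro a _ b _ hab
      rw [Function.onFun, Finset.disjoint_left]
      intro x hxa hxb
      simp only [cl, mem_filter, mem_univ, true_and] at hxa hxb
      exact (Finset.disjoint_left.mp (hTyp.disj a b hab)) (hxa.1 j0) (hxb.1 j0)
    rw [← hbU]
    apply sum_le_sum_of_subset_of_nonneg
    · intro x hx
      simp only [mem_biUnion, cl, mem_filter, mem_univ, true_and] at hx ⊢
      obtain ⟨i, hi⟩ := hx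
      exact ⟨fun _ => trivial, hi.2⟩
    · intro x _ _
      exact prod_nonneg fun j _ => Pool.Agent.W604.LP.td_nonneg hW (T j) (x j)

end Pool.Agent.N412.LB
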