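import Pool.Agent.N412.LB.Stm

/-!
Project LB (helper412), problem MP_f2e3c0_co, part PAT: the pattern at every vertex of an optimal
colouring.
-/

set_option autoImplicit false

open Finset

namespace Pool.Agent.N412.LB

open Pool.Agent.W297.LP

namespace PatAux

theorem mu_pos {k : ℕ} (hk : 4 ≤ k) : 0 < mu k := by
  have h : (4 : ℝ) ≤ k := by exact_mod_cast hk
  unfold mu
  apply one_div_pos.2
  linarith

theorem mu_le {k : ℕ} (hk : 4 ≤ k) : mu k ≤ 1 / 3 := by
  have h : (4 : ℝ) ≤ k := by exact_mod_cast hk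
  unfold mu
  rw [div_le_div_iff₀ (by linarith) (by norm_num)]
  linarith

theorem near_mono {k n : ℕ} {d d' : ℝ} (hd : d ≤ d') {G : SimpleGraph (Fin n)}
    {P : Fin n → Fin (k - 1)} (h : NearP k d G P) : NearP k d' G P := by
  refine ⟨fun i => (h.1 i).trans ?_, h.2.trans ?_⟩
  · exact mul_le_mul_of_nonneg_right hd (Nat.cast_nonneg _)
  · exact mul_le_mul_of_nonneg_right hd (by positivity)

/-- Sum of the red degrees into the parts. -/
theorem sum_rp {n r : ℕ} (G : SimpleGraph (Fin n)) (P : Fin n → Fin r) (x : Fin n) :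
    ∑ i, rp G P i x = rd G x := by
  classical
  unfold rp rd
  rw [Finset.card_eq_sum_card_fiberwise (f := P) (t := univ) (fun _ _ => Finset.mem_coe.2 (mem_univ _))]
  refine Finset.sum_congr rfl fun i _ => ?_
  congr 1
  ext y
  simp only [mem_filter, mem_univ, true_and]
  tauto

/-- Size of a part. -/
theorem card_pt {n r : ℕ} (G : SimpleGraph (Fin n)) (P : Fin n → Fin r) (i : Fin r) (x : Fin n) :
    (pt P i).card ≤ rp G P i x + bp G P i x + 1 := by
  classical
  have h : pt P i ⊆ (univ.filter (fun y => P y = i ∧ G.Adj x y) ∪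
      univ.filter (fun y => P y = i ∧ y ≠ x ∧ ¬ G.Adj x y)) ∪ {x} := by
    intro y hy
    simp only [pt, mem_filter, mem_univ, true_and] at hy
    simp only [mem_union, mem_filter, mem_univ, true_and, mem_singleton]
    by_cases h1 : y = x
    · exact Or.inr h1
    · by_cases h2 : G.Adj x y
      · exact Or.inl (Or.inl ⟨hy, h2⟩)
      · exact Or.inl (Or.inr ⟨hy, h1, h2⟩)
  refine (Finset.card_le_card h).trans ?_
  refine (Finset.card_union_le _ _).trans ?_
  rw [Finset.card_singleton]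
  refine Nat.add_le_add_right ((Finset.card_union_le _ _).trans ?_) 1
  unfold rp bp
  exact le_of_eq (by congr!)

/-- Bound for the number of copies through a vertex. -/
theorem cx_le (h0 : SClone) (k t n : ℕ) (ht : 2 ≤ t) (e : ℝ) (G : SimpleGraph (Fin n))
    (hG : Opt (Lp k t) G) (G' : SimpleGraph (Fin n))
    (hG' : (MC (Lp k t) G' : ℝ) ≤ (mu k ^ (t - 1) + e) * (n : ℝ) ^ t) (hn : 0 < n)
    (hne : (t : ℝ) ≤ e * n) (x : Fin n) :
    (cx (Lp k t) G x : ℝ) ≤ t * (mu k ^ (t - 1) + 2 * e) * (n : ℝ) ^ (t - 1) := by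
  have h1 := h0 t n (Lp k t) G ht hG x
  have h2 : (MC (Lp k t) G : ℝ) ≤ MC (Lp k t) G' := by exact_mod_cast hG G'
  have hn' : (0 : ℝ) < n := by exact_mod_cast hn
  have h3 : (n : ℝ) ^ t = n * (n : ℝ) ^ (t - 1) := by
    rw [← pow_succ']
    congr 1
    omega
  have hp : (0 : ℝ) < (n : ℝ) ^ (t - 1) := by positivity
  have h4 : (n : ℝ) * cx (Lp k t) G x ≤
      n * (t * (mu k ^ (t - 1) + 2 * e) * (n : ℝ) ^ (t - 1)) := by
    calc (n : ℝ) * cx (Lp k t) G x ≤ t * MC (Lp k t) G + (t : ℝ) ^ 2 * (n : ℝ) ^ (t - 1) := h1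
      _ ≤ t * ((mu k ^ (t - 1) + e) * (n : ℝ) ^ t) + (t : ℝ) * (e * n) * (n : ℝ) ^ (t - 1) := by
          refine add_le_add (mul_le_mul_of_nonneg_left (h2.trans hG') (Nat.cast_nonneg _)) ?_
          refine mul_le_mul_of_nonneg_right ?_ hp.le
          rw [sq]
          exact mul_le_mul_of_nonneg_left hne (Nat.cast_nonneg _)
      _ = _ := by rw [h3]; ring
  exact le_of_mul_le_mul_left h4 hn'

/-- (a): some blue degree is small. -/
theorem stepA {k t n : ℕ} (hk : 4 ≤ k) (ht : k + 2 ≤ t) (b e c : ℝ) (hb : 0 < b)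
    (hb1 : b ≤ 1 / 100)
    (he : 2 * e ≤ mu k ^ (t - 1)) (hn : 0 < n)
    (hbt : 6 * ((t : ℝ) * (5 / 9 : ℝ) ^ t) < (b / 2) ^ (k - 1)) (G : SimpleGraph (Fin n))
    (P : Fin n → Fin (k - 1)) (x : Fin n) (hall : ∀ j, b * n < bp G P j x)
    (h1 : (∏ j, ((bp G P j x : ℝ) - b / 2 * n)) * ((1 - mu k - b / 2) * n) ^ (t - k) ≤ c)
    (h2 : c ≤ t * (mu k ^ (t - 1) + 2 * e) * (n : ℝ) ^ (t - 1)) : False := by
  have hm0 := mu_pos hk
  have hm3 := mu_le hk
  have hn' : (0 : ℝ) < n := by exact_mod_cast hn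
  have h3 : (b / 2 * n) ^ (k - 1) ≤ ∏ j : Fin (k - 1), ((bp G P j x : ℝ) - b / 2 * n) := by
    have : (b / 2 * n) ^ (k - 1) = ∏ _j : Fin (k - 1), (b / 2 * (n : ℝ)) := by simp
    rw [this]
    refine Finset.prod_le_prod (fun _ _ => by positivity) fun j _ => ?_
    have := hall j
    linarith
  have h4 : (6 / 10 * (n : ℝ)) ^ (t - k) ≤ ((1 - mu k - b / 2) * n) ^ (t - k) := by
    refine pow_le_pow_left₀ (by positivity) ?_ _
    refine mul_le_mul_of_nonneg_right ?_ hn'.le
    linarith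
  have h5 : (b / 2 * n) ^ (k - 1) * (6 / 10 * (n : ℝ)) ^ (t - k)
      ≤ t * (mu k ^ (t - 1) + 2 * e) * (n : ℝ) ^ (t - 1) := by
    refine le_trans ?_ (h1.trans h2)
    exact mul_le_mul h3 h4 (by positivity) (le_trans (by positivity) h3)
  have h6 : (b / 2 * n) ^ (k - 1) * (6 / 10 * (n : ℝ)) ^ (t - k)
      = (b / 2) ^ (k - 1) * (6 / 10) ^ (t - k) * (n : ℝ) ^ (t - 1) := by
    have : t - 1 = (k - 1) + (t - k) := by omega
    rw [mul_pow, mul_pow, this, pow_add]
    ring
  rw [h6] at h5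
  have h7 : (b / 2) ^ (k - 1) * (6 / 10) ^ (t - k) ≤ t * (mu k ^ (t - 1) + 2 * e) :=
    le_of_mul_le_mul_right h5 (by positivity)
  have h8 : (t : ℝ) * (mu k ^ (t - 1) + 2 * e) ≤ 6 * (t * (1 / 3 : ℝ) ^ t) := by
    have e1 : mu k ^ (t - 1) ≤ (1 / 3 : ℝ) ^ (t - 1) := pow_le_pow_left₀ hm0.le hm3 _
    have e2 : (1 / 3 : ℝ) ^ (t - 1) = 3 * (1 / 3 : ℝ) ^ t := by
      have : t = (t - 1) + 1 := by omega
      conv_rhs => rw [this, pow_succ]
      ring
    have e3 : mu k ^ (t - 1) + 2 * e ≤ 6 * (1 / 3 : ℝ) ^ t := by linarith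
    calc (t : ℝ) * (mu k ^ (t - 1) + 2 * e) ≤ t * (6 * (1 / 3 : ℝ) ^ t) :=
          mul_le_mul_of_nonneg_left e3 (Nat.cast_nonneg _)
      _ = _ := by ring
  have h9 : (b / 2) ^ (k - 1) * (6 / 10 : ℝ) ^ t ≤ (b / 2) ^ (k - 1) * (6 / 10) ^ (t - k) := by
    refine mul_le_mul_of_nonneg_left ?_ (by positivity)
    exact pow_le_pow_of_le_one (by norm_num) (by norm_num) (Nat.sub_le _ _)
  have h10 : (1 / 3 : ℝ) ^ t = (5 / 9 : ℝ) ^ t * (6 / 10 : ℝ) ^ t := by
    rw [← mul_pow]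
    norm_num
  have h11 : (b / 2) ^ (k - 1) * (6 / 10 : ℝ) ^ t
      ≤ 6 * ((t : ℝ) * (5 / 9 : ℝ) ^ t) * (6 / 10 : ℝ) ^ t := by
    calc _ ≤ 6 * ((t : ℝ) * (1 / 3 : ℝ) ^ t) := (h9.trans h7).trans h8
      _ = _ := by rw [h10]; ring
  have h12 := le_of_mul_le_mul_right h11 (by positivity)
  linarith

/-- (b): the red degree is not large. -/
theorem stepB {k t n : ℕ} (hk : 4 ≤ k) (ht : k + 2 ≤ t) (h e c R : ℝ) (hh : 0 < h) (hh1 : h ≤ 1)
    (hn : 0 < n) (he : 2 * e ≤ mu k ^ (t - 1) * (h / 4))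
    (hkt : (k : ℝ) + 1 ≤ h / 4 * t)
    (hR : mu k * (1 + 2 * h) * n < R)
    (h1 : ((t : ℝ) - k - 1) * (R - mu k * h / (4 * t) * n) ^ 2
      * ((mu k - mu k * h / (4 * t)) * n) ^ (t - 3) ≤ c)
    (h2 : c ≤ t * (mu k ^ (t - 1) + 2 * e) * (n : ℝ) ^ (t - 1)) : False := by
  have hm0 := mu_pos hk
  have hn' : (0 : ℝ) < n := by exact_mod_cast hn
  have ht0 : (0 : ℝ) < t := by
    have : 0 < t := by omega
    exact_mod_cast this
  have ht3 : 3 ≤ t := by omega
  have ht1 : (1 : ℝ) ≤ t := by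
    have : 1 ≤ t := by omega
    exact_mod_cast this
  set s : ℝ := h / (4 * t) with hs
  have hs0 : 0 < s := by positivity
  have hst : s * t = h / 4 := by rw [hs]; field_simp
  have hs1 : s ≤ h / 4 := by
    rw [← hst]
    nlinarith
  have hms : mu k * h / (4 * t) = mu k * s := by rw [hs]; ring
  rw [hms] at h1
  -- lower bound for the square
  have e1 : mu k * (1 + h) * n ≤ R - mu k * s * n := by
    have : mu k * s * n ≤ mu k * h * n := by gcongr; linarith
    nlinarith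
  have e2 : (mu k * (1 + h) * n) ^ 2 ≤ (R - mu k * s * n) ^ 2 :=
    pow_le_pow_left₀ (by positivity) e1 2
  -- lower bound for the power
  have e3 : (1 - h / 4) ≤ (1 - s) ^ (t - 3) := by
    have hb := one_add_mul_le_pow (a := -s) (by linarith) (t - 3)
    have : ((t - 3 : ℕ) : ℝ) * s ≤ h / 4 := by
      rw [← hst, mul_comm s]
      refine mul_le_mul_of_nonneg_right ?_ hs0.le
      exact_mod_cast Nat.sub_le _ _
    have e : (1 + -s) ^ (t - 3) = (1 - s) ^ (t - 3) := by ring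
    rw [← e]
    linarith
  have e4 : mu k ^ (t - 3) * (1 - h / 4) * (n : ℝ) ^ (t - 3)
      ≤ ((mu k - mu k * s) * n) ^ (t - 3) := by
    have : (mu k - mu k * s) * n = mu k * (1 - s) * n := by ring
    rw [this, mul_pow, mul_pow]
    gcongr
  have e5 : t * (1 - h / 4) ≤ (t : ℝ) - k - 1 := by linarith
  have h14 : 0 ≤ 1 - h / 4 := by linarith
  have e6 : t * (1 - h / 4) * (mu k * (1 + h) * n) ^ 2
      * (mu k ^ (t - 3) * (1 - h / 4) * (n : ℝ) ^ (t - 3))
      ≤ t * (mu k ^ (t - 1) + 2 * e) * (n : ℝ) ^ (t - 1) := by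
    refine le_trans ?_ (h1.trans h2)
    have e7 : 0 ≤ (t : ℝ) - k - 1 := le_trans (by positivity) e5
    refine mul_le_mul (mul_le_mul e5 e2 (by positivity) e7) e4 (by positivity) (by positivity)
  have e8 : t * (1 - h / 4) * (mu k * (1 + h) * n) ^ 2
      * (mu k ^ (t - 3) * (1 - h / 4) * (n : ℝ) ^ (t - 3))
      = (t * mu k ^ (t - 1) * ((1 - h / 4) ^ 2 * (1 + h) ^ 2)) * (n : ℝ) ^ (t - 1) := by
    have : t - 1 = (t - 3) + 2 := by omega
    rw [this, pow_add, pow_add]
    ring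
  rw [e8] at e6
  have e9 := le_of_mul_le_mul_right e6 (by positivity)
  have e10 : t * (mu k ^ (t - 1) + 2 * e) ≤ t * mu k ^ (t - 1) * (1 + h / 4) := by
    calc (t : ℝ) * (mu k ^ (t - 1) + 2 * e) ≤ t * (mu k ^ (t - 1) + mu k ^ (t - 1) * (h / 4)) := by
          gcongr
      _ = _ := by ring
  have e11 : (1 - h / 4) ^ 2 * (1 + h) ^ 2 ≤ 1 + h / 4 :=
    le_of_mul_le_mul_left (e9.trans e10) (by positivity)
  have e12 : 1 + h / 4 < (1 - h / 4) ^ 2 * (1 + h) ^ 2 := by
    have : 1 + h / 2 ≤ (1 - h / 4) * (1 + h) := by nlinarith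
    have : (1 + h / 2) ^ 2 ≤ ((1 - h / 4) * (1 + h)) ^ 2 := pow_le_pow_left₀ (by positivity) this 2
    nlinarith
  linarith

end PatAux

open PatAux in
theorem pat (h0 : SClone) (h1 : SUpb) (h2 : SCntR) (h3 : SCntB) : SPat := by
  intro k hk
  have hm0 := mu_pos hk
  have hm3 := mu_le hk
  have hk4 : (4 : ℝ) ≤ k := by exact_mod_cast hk
  have hk0 : (0 : ℝ) < k := by linarith
  set m : ℝ := mu k with hm
  set b : ℝ := m / (64 * k) with hb
  have hb0 : 0 < b := by positivity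
  have hb1 : b ≤ 1 / 100 := by
    rw [hb, div_le_div_iff₀ (by positivity) (by norm_num)]
    nlinarith
  set h : ℝ := 1 / (200 * k) with hh
  have hh0 : 0 < h := by positivity
  have hh1 : h ≤ 1 := by
    rw [hh, div_le_one (by positivity)]
    nlinarith
  obtain ⟨Ma, hMa⟩ : ∃ Ma : ℕ, ∀ t : ℕ, Ma ≤ t →
      6 * ((t : ℝ) * (5 / 9 : ℝ) ^ t) < (b / 2) ^ (k - 1) := by
    have e1 := tendsto_self_mul_const_pow_of_lt_one (r := (5 / 9 : ℝ)) (by norm_num) (by norm_num)
    have e2 := (e1.const_mul 6).eventually_lt_const (u := (b / 2) ^ (k - 1))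
      (by rw [mul_zero]; positivity)
    exact Filter.eventually_atTop.1 e2
  refine ⟨max Ma (800 * k * (k + 1)), fun t ht => ?_⟩
  have hta : Ma ≤ t := (le_max_left _ _).trans ht
  have htb : 800 * k * (k + 1) ≤ t := (le_max_right _ _).trans ht
  have htk : k + 2 ≤ t := by nlinarith
  have ht0 : (0 : ℝ) < t := by
    have : 0 < t := by omega
    exact_mod_cast this
  have ht1 : (1 : ℝ) ≤ t := by
    have : 1 ≤ t := by omega
    exact_mod_cast this
  have hkt : (k : ℝ) + 1 ≤ h / 4 * t := by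
    have : (800 : ℝ) * k * (k + 1) ≤ t := by exact_mod_cast htb
    have e : h / 4 * t = t / (800 * k) := by rw [hh]; field_simp; norm_num
    rw [e, le_div_iff₀ (by positivity)]
    linarith
  -- the small numbers
  set e : ℝ := m ^ (t - 1) * (h / 8) with he
  have he0 : 0 < e := by positivity
  set s : ℝ := m * h / (4 * t) with hs
  have hs0 : 0 < s := by positivity
  have hsm : s ≤ m := by
    rw [hs, div_le_iff₀ (by positivity)]
    have : m * h ≤ m * 1 := by gcongr
    have : m * 1 ≤ m * (4 * t) := by gcongr; linarith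
    linarith
  obtain ⟨N1, hN1⟩ := h1 k t hk (by omega) e he0
  obtain ⟨δ2, N2, hδ2, hN2⟩ := h2 k t hk htk s hs0 hsm
  obtain ⟨δ3, N3, hδ3, hN3⟩ := h3 k t hk htk (b / 2) (by positivity) (by linarith)
  obtain ⟨N4, hN4⟩ := exists_nat_ge ((t : ℝ) / e)
  obtain ⟨N5, hN5⟩ := exists_nat_ge (1000 * (k : ℝ) / m)
  refine ⟨min (min δ2 δ3) (m / (1000 * k)), max (max N1 N2) (max (max N3 N4) (max N5 1)),
    lt_min (lt_min hδ2 hδ3) (by positivity), ?_⟩
  intro n hn G P hG hP x
  have n1 : N1 ≤ n := le_trans (le_trans (le_max_left _ _) (le_max_left _ _)) hn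
  have n2 : N2 ≤ n := le_trans (le_trans (le_max_right _ _) (le_max_left _ _)) hn
  have n3 : N3 ≤ n :=
    le_trans (le_trans (le_trans (le_max_left _ _) (le_max_left _ _)) (le_max_right _ _)) hn
  have n4 : N4 ≤ n :=
    le_trans (le_trans (le_trans (le_max_right _ _) (le_max_left _ _)) (le_max_right _ _)) hn
  have n5 : N5 ≤ n :=
    le_trans (le_trans (le_trans (le_max_left _ _) (le_max_right _ _)) (le_max_right _ _)) hn
  have n6 : 1 ≤ n :=
    le_trans (le_trans (le_trans (le_max_right _ _) (le_max_right _ _)) (le_max_right _ _)) hn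
  have hn0 : (0 : ℝ) < n := by exact_mod_cast n6
  have hne : (t : ℝ) ≤ e * n := by
    have : (t : ℝ) / e ≤ n := hN4.trans (by exact_mod_cast n4)
    rw [div_le_iff₀ he0] at this
    linarith
  have hnm : 1 ≤ m / (1000 * k) * n := by
    have : 1000 * (k : ℝ) / m ≤ n := hN5.trans (by exact_mod_cast n5)
    rw [div_le_iff₀ hm0] at this
    have e : m / (1000 * k) * n = (n * m) / (1000 * k) := by ring
    rw [e, le_div_iff₀ (by positivity)]
    linarith
  obtain ⟨G', hG'⟩ := hN1 n n1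
  have hcx := cx_le h0 k t n (by omega) e G hG G' hG' n6 hne x
  -- (a)
  have hA : ∃ j, (bp G P j x : ℝ) ≤ b * n := by
    by_contra hcon
    push Not at hcon
    have hc3 := hN3 n n3 G P (near_mono ((min_le_left _ _).trans (min_le_right _ _)) hP) x
      (fun j => by have := hcon j; nlinarith)
    refine stepA hk htk b e _ hb0 hb1 ?_ n6 (hMa t hta) G P x hcon hc3 hcx
    rw [he]
    have : 0 < m ^ (t - 1) := by positivity
    nlinarith
  -- (b)
  have hB : (rd G x : ℝ) ≤ m * (1 + 2 * h) * n := by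
    by_contra hcon
    push Not at hcon
    have hsr : s * n ≤ rd G x := by
      refine le_trans ?_ hcon.le
      refine mul_le_mul_of_nonneg_right (hsm.trans ?_) hn0.le
      nlinarith
    have hc2 := hN2 n n2 G P (near_mono ((min_le_left _ _).trans (min_le_left _ _)) hP) x hsr
    refine stepB hk htk h e _ (rd G x) hh0 hh1 n6 ?_ hkt hcon hc2 hcx
    rw [he]
    exact le_of_eq (by ring)
  obtain ⟨j, hj⟩ := hA
  refine ⟨j, hj.trans ?_, ?_⟩
  · refine mul_le_mul_of_nonneg_right ?_ hn0.le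
    rw [hb]
    gcongr
    norm_num
  · have hpt : m * n - m / (1000 * k) * n ≤ (pt P j).card := by
      have e1 := (abs_le.1 (hP.1 j)).1
      have e2 : min (min δ2 δ3) (m / (1000 * k)) * n ≤ m / (1000 * k) * n :=
        mul_le_mul_of_nonneg_right (min_le_right _ _) hn0.le
      linarith
    have hcp : ((pt P j).card : ℝ) ≤ rp G P j x + bp G P j x + 1 := by
      exact_mod_cast card_pt G P j x
    have hsum : (rp G P j x : ℝ) + ∑ i ∈ univ.erase j, (rp G P i x : ℝ) = rd G x := by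
      rw [← sum_rp G P x]
      push_cast
      exact Finset.add_sum_erase univ (fun i => (rp G P i x : ℝ)) (mem_univ j)
    have hmh : m * (1 + 2 * h) * n = m * n + m / (100 * k) * n := by
      rw [hh]
      field_simp
      ring
    have hfin : m / (100 * k) * n + b * n + 2 * (m / (1000 * k) * n) ≤ m / (32 * k) * n := by
      have : m / (32 * k) * n - (m / (100 * k) * n + b * n + 2 * (m / (1000 * k) * n))
          = m * n / k * (1 / 32 - 1 / 100 - 1 / 64 - 1 / 500) := by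
        rw [hb]
        field_simp
        ring
      have h' : 0 ≤ m * n / k * (1 / 32 - 1 / 100 - 1 / 64 - 1 / 500) := by positivity
      linarith
    linarith

end Pool.Agent.N412.LB
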