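import Pool.Agent.N412.LB.Stm

/-!
BONBON/SETS2: the sets of vertices with large tree counts (adapted from `Pool.Agent.W397.LP.Sets`).
-/

set_option autoImplicit false

open Finset

namespace Pool.Agent.N412.LB.Sets2Aux

open Pool.Agent.W297.LP

theorem Ker.co {V : Type} {W : V → V → ℝ} (h : Ker W) : Ker (co W) where
  symm x y := by
    unfold Pool.Agent.W297.LP.co
    rw [h.symm]
  zo x y := by
    unfold Pool.Agent.W297.LP.co
    rcases h.zo x y with h1 | h1
    · right; rw [h1]; ring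
    · left; rw [h1]; ring

theorem Ker.nonneg {V : Type} {W : V → V → ℝ} (h : Ker W) (x y : V) : 0 ≤ W x y := by
  rcases h.zo x y with h1 | h1 <;> rw [h1]
  norm_num

theorem Ker.le_one {V : Type} {W : V → V → ℝ} (h : Ker W) (x y : V) : W x y ≤ 1 := by
  rcases h.zo x y with h1 | h1 <;> rw [h1]
  norm_num

theorem dg_nonneg {V : Type} [Fintype V] {W : V → V → ℝ} (h : Ker W) (x : V) : 0 ≤ dg W x := by
  unfold dg
  exact div_nonneg (sum_nonneg fun y _ => Ker.nonneg h x y) (Nat.cast_nonneg _)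

theorem dg_le_one {V : Type} [Fintype V] {W : V → V → ℝ} (h : Ker W) (x : V) : dg W x ≤ 1 := by
  unfold dg
  refine div_le_one_of_le₀ ?_ (Nat.cast_nonneg _)
  calc ∑ y, W x y ≤ ∑ _y : V, (1 : ℝ) := sum_le_sum fun y _ => Ker.le_one h x y
    _ = (Fintype.card V : ℝ) := by simp

theorem cl_mono {V : Type} [Fintype V] (W : V → V → ℝ) {D D' : Finset V} (h : D ⊆ D') (s : ℕ) :
    cl W D s ⊆ cl W D' s := by
  classical
  intro x hx
  unfold cl at hx ⊢
  rw [mem_filter] at hx ⊢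
  exact ⟨hx.1, fun i => h (hx.2.1 i), hx.2.2⟩

theorem mu_pos {k : ℕ} (hk : 4 ≤ k) : 0 < mu k := by
  unfold mu
  have : (4 : ℝ) ≤ k := by exact_mod_cast hk
  apply one_div_pos.2
  linarith

theorem mu_le {k : ℕ} (hk : 4 ≤ k) : mu k ≤ 1 := by
  unfold mu
  have : (4 : ℝ) ≤ k := by exact_mod_cast hk
  rw [div_le_one (by linarith)]
  linarith

/-- the bound for the walk functional outside of the set -/
theorem gt_bound (hWalk : SWalk) {V : Type} [Fintype V] {W : V → V → ℝ} (h : Ker W) {m e' : ℝ}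
    (hm : 0 < m) (he' : 0 < e') (T0 : Tr) (x : V)
    (hx : td W T0 x < ((1 + e') * m) ^ T0.sz) : dg W x * gt W m T0 x ≤ (T0.sz : ℝ) * e' := by
  have hN : 0 ≤ (T0.sz : ℝ) * e' := by positivity
  rcases (dg_nonneg h x).eq_or_lt with h0 | h0
  · rw [← h0, zero_mul]
    exact hN
  · obtain ⟨h1, h2⟩ := hWalk V W h m hm T0 x h0
    have h3 : Real.log (td W T0 x) ≤ Real.log (((1 + e') * m) ^ T0.sz) :=
      Real.log_le_log h1 hx.le
    rw [Real.log_pow, Real.log_mul (by linarith) hm.ne'] at h3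
    have h4 : Real.log (1 + e') ≤ e' := by
      have := Real.log_le_sub_one_of_pos (show 0 < 1 + e' by linarith)
      linarith
    have h5 : gt W m T0 x ≤ (T0.sz : ℝ) * e' := by
      have h6 : (T0.sz : ℝ) * Real.log (1 + e') ≤ (T0.sz : ℝ) * e' :=
        mul_le_mul_of_nonneg_left h4 (Nat.cast_nonneg _)
      nlinarith
    calc dg W x * gt W m T0 x ≤ dg W x * ((T0.sz : ℝ) * e') :=
          mul_le_mul_of_nonneg_left h5 h0.le
      _ ≤ 1 * ((T0.sz : ℝ) * e') := mul_le_mul_of_nonneg_right (dg_le_one h x) hN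
      _ = (T0.sz : ℝ) * e' := one_mul _

/-- few cliques in the set of vertices with a large tree count -/
theorem few (hA : SAMGM) {k : ℕ} (hk : 4 ≤ k) {V : Type} [Fintype V] {W : V → V → ℝ} (h : Ker W)
    (T : Fin k → Tr) {e' e2 : ℝ} (he' : 0 < e') (hN : (1 / (1 + e')) ^ (tot T) ≤ e2)
    (hl : lol W T ≤ 2 * mu k ^ (tot T + (k - 1))) (D : Finset V)
    (hD : ∀ x ∈ D, ((1 + e') * mu k) ^ (tot T) ≤ ∏ i, td W (T i) x) :
    ((cl W D k).card : ℝ) ≤ e2 * (Fintype.card V : ℝ) ^ k := by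
  have hm := mu_pos hk
  have h1 := hA k (by omega) V W h T D (((1 + e') * mu k) ^ (tot T)) (by positivity) hD
  have hn : (0 : ℝ) ≤ (Fintype.card V : ℝ) ^ k := by positivity
  have h2 : (Fintype.card V : ℝ) ^ k * lol W T ≤ (Fintype.card V : ℝ) ^ k * mu k ^ (tot T) := by
    refine mul_le_mul_of_nonneg_left (hl.trans ?_) hn
    rw [pow_add]
    have h3 : 2 * mu k ^ (k - 1) ≤ 1 := by
      have a1 : mu k ≤ 1 / 3 := by
        unfold mu
        have : (4 : ℝ) ≤ k := by exact_mod_cast hk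
        rw [div_le_div_iff₀ (by linarith) (by norm_num)]
        linarith
      have a2 : mu k ^ (k - 1) ≤ mu k ^ 1 := pow_le_pow_of_le_one hm.le (mu_le hk) (by omega)
      rw [pow_one] at a2
      linarith
    have h4 : 0 < mu k ^ (tot T) := by positivity
    nlinarith
  have h5 : ((cl W D k).card : ℝ) * (1 + e') ^ (tot T) ≤ (Fintype.card V : ℝ) ^ k := by
    rw [mul_pow, ← mul_assoc] at h1
    exact le_of_mul_le_mul_right (h1.trans h2) (by positivity)
  have h6 : ((cl W D k).card : ℝ) ≤ (1 / (1 + e')) ^ (tot T) * (Fintype.card V : ℝ) ^ k := by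
    rw [one_div, inv_pow, inv_mul_eq_div, le_div_iff₀ (by positivity)]
    exact h5
  exact h6.trans (mul_le_mul_of_nonneg_right hN hn)

theorem sets : SAMGM → SGlue → SCore → SWalk → SCert → SRam → SSets2 := by
  intro hA hG hC hWalk hCert hR k hk e he
  obtain ⟨c, hc, hR⟩ := hR k
  have hm := mu_pos hk
  obtain ⟨e', he'⟩ : ∃ e' : ℝ, e' = e / 4 := ⟨_, rfl⟩
  have he'0 : 0 < e' := by rw [he']; positivity
  obtain ⟨e2, he2⟩ : ∃ e2 : ℝ, e2 = min e (c * e ^ k / 2) := ⟨_, rfl⟩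
  have he20 : 0 < e2 := by rw [he2]; exact lt_min he (by positivity)
  have he2e : e2 ≤ e := by rw [he2]; exact min_le_left _ _
  have he2c : 2 * e2 ≤ c * e ^ k := by
    have : e2 ≤ c * e ^ k / 2 := by rw [he2]; exact min_le_right _ _
    linarith
  obtain ⟨N1, hN1⟩ := exists_pow_lt_of_lt_one he20
    (show 1 / (1 + e') < 1 by rw [div_lt_one (by linarith)]; linarith)
  refine ⟨max N1 1, ?_⟩
  intro V _ _ W hW T hN hl1 hl2
  have hN1' : N1 ≤ tot T := (le_max_left _ _).trans hN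
  have hN0 : 1 ≤ tot T := (le_max_right _ _).trans hN
  have hpow : (1 / (1 + e')) ^ (tot T) ≤ e2 := by
    refine le_trans ?_ hN1.le
    refine pow_le_pow_of_le_one (by positivity) ?_ hN1'
    rw [div_le_one (by linarith)]
    linarith
  obtain ⟨T0, hT0, htd⟩ := hG k T
  classical
  have hW' := Ker.co hW
  obtain ⟨DD, hDD⟩ : ∃ DD : (V → V → ℝ) → Finset V, ∀ U x, x ∈ DD U ↔
      ((1 + e') * mu k) ^ (tot T) ≤ td U T0 x :=
    ⟨fun U => univ.filter fun x => ((1 + e') * mu k) ^ (tot T) ≤ td U T0 x, fun U x => by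
      simp⟩
  have hn0 : (0 : ℝ) ≤ (Fintype.card V : ℝ) := Nat.cast_nonneg _
  have hTpos : (0 : ℝ) < (T0.sz : ℝ) := by
    rw [hT0]; exact_mod_cast hN0
  -- few cliques
  have c1 : ∀ U : V → V → ℝ, Ker U → lol U T ≤ 2 * mu k ^ (tot T + (k - 1)) →
      ((cl U (DD U) k).card : ℝ) ≤ e2 * (Fintype.card V : ℝ) ^ k := by
    intro U hU hlU
    refine few hA hk hU T he'0 hpow hlU (DD U) fun x hx => ?_
    rw [← htd]
    exact (hDD U x).1 hx
  -- cores
  have core : ∀ U : V → V → ℝ, Ker U → ∀ S : Finset V,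
      (∀ x ∈ S, (1 + e) * mu k * (Fintype.card V : ℝ) ≤ ∑ y ∈ S, U x y) → S ⊆ DD U := by
    intro U hU S hS x hx
    rw [hDD]
    have h1 := hC V U hU S ((1 + e) * mu k) (by positivity) hS T0 x (hS x hx)
    refine le_trans ?_ h1
    rw [hT0]
    refine pow_le_pow_left₀ (by positivity) ?_ _
    refine mul_le_mul_of_nonneg_right ?_ hm.le
    linarith
  -- the measures
  have hm1 : ∀ U : V → V → ℝ, Ker U → ∀ x, 0 ≤ (if x ∈ (DD U)ᶜ then dg U x else 0) := by
    intro U hU x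
    split_ifs
    · exact dg_nonneg hU x
    · exact le_rfl
  have hm2 : ∀ U : V → V → ℝ, Ker U → ∀ x, (if x ∈ (DD U)ᶜ then dg U x else 0) ≤ dg U x := by
    intro U hU x
    split_ifs
    · exact le_rfl
    · exact dg_nonneg hU x
  have hsum : ∀ U : V → V → ℝ, ∑ x, (if x ∈ (DD U)ᶜ then dg U x else 0) =
      ∑ x ∈ (DD U)ᶜ, dg U x := by
    intro U
    rw [sum_ite_mem, univ_inter]
  have hgt : ∀ U : V → V → ℝ, Ker U →
      ∑ x, (if x ∈ (DD U)ᶜ then dg U x else 0) * gt U (mu k) T0 x ≤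
        (T0.sz : ℝ) * (e' * (Fintype.card V : ℝ)) := by
    intro U hU
    calc ∑ x, (if x ∈ (DD U)ᶜ then dg U x else 0) * gt U (mu k) T0 x
        ≤ ∑ _x : V, (T0.sz : ℝ) * e' := by
          refine sum_le_sum fun x _ => ?_
          split_ifs with hx
          · rw [mem_compl, hDD, not_le, ← hT0] at hx
            exact gt_bound hWalk hU hm he'0 T0 x hx
          · rw [zero_mul]
            positivity
      _ = (T0.sz : ℝ) * (e' * (Fintype.card V : ℝ)) := by
          rw [sum_const, card_univ, nsmul_eq_mul]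
          ring
  have one : ∀ U : V → V → ℝ, Ker U → ∀ (l : ℝ) (Ph : ℝ → ℝ), Cert1 (mu k) l Ph →
      l * (∑ x ∈ (DD U)ᶜ, dg U x) + ∑ x, Ph (dg U x) ≤ e * (Fintype.card V : ℝ) := by
    intro U hU l Ph hcert
    have h1 := hCert.2 (mu k) l Ph hm hcert V U hU
      (fun x => if x ∈ (DD U)ᶜ then dg U x else 0) (hm1 U hU) (hm2 U hU) T0
    rw [hsum] at h1
    have h2 := le_of_mul_le_mul_left (h1.trans (hgt U hU)) hTpos
    refine h2.trans (mul_le_mul_of_nonneg_right ?_ hn0)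
    linarith
  refine ⟨DD W, DD (Pool.Agent.W297.LP.co W), ?_, ?_, ?_, core W hW, core _ hW', ?_, one W hW,
    one _ hW'⟩
  · exact (c1 W hW hl1).trans (mul_le_mul_of_nonneg_right he2e (by positivity))
  · exact (c1 _ hW' hl2).trans (mul_le_mul_of_nonneg_right he2e (by positivity))
  · have h1 := hR V W hW (DD W ∩ DD (Pool.Agent.W297.LP.co W))
    have h2 : ((cl W (DD W ∩ DD (Pool.Agent.W297.LP.co W)) k).card : ℝ) ≤
        e2 * (Fintype.card V : ℝ) ^ k := by
      refine le_trans ?_ (c1 W hW hl1)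
      exact_mod_cast card_le_card (cl_mono W inter_subset_left k)
    have h3 : ((cl (Pool.Agent.W297.LP.co W) (DD W ∩ DD (Pool.Agent.W297.LP.co W)) k).card : ℝ) ≤
        e2 * (Fintype.card V : ℝ) ^ k := by
      refine le_trans ?_ (c1 _ hW' hl2)
      exact_mod_cast card_le_card (cl_mono _ inter_subset_right k)
    have h4 : c * ((DD W ∩ DD (Pool.Agent.W297.LP.co W)).card : ℝ) ^ k ≤
        c * (e * (Fintype.card V : ℝ)) ^ k := by
      calc c * ((DD W ∩ DD (Pool.Agent.W297.LP.co W)).card : ℝ) ^ k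
          ≤ 2 * e2 * (Fintype.card V : ℝ) ^ k := by linarith
        _ ≤ c * e ^ k * (Fintype.card V : ℝ) ^ k :=
            mul_le_mul_of_nonneg_right he2c (by positivity)
        _ = c * (e * (Fintype.card V : ℝ)) ^ k := by rw [mul_pow]; ring
    have h5 := le_of_mul_le_mul_left h4 hc
    have h6 : ((DD W ∩ DD (Pool.Agent.W297.LP.co W)).card : ℝ) ≤ e * (Fintype.card V : ℝ) :=
      le_of_pow_le_pow_left₀ (by omega) (by positivity) h5
    unfold ms
    exact div_le_of_le_mul₀ hn0 he.le h6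
  · intro l1 l2 Ph hcert
    have h1 := hCert.1 (mu k) l1 l2 Ph hm hcert V W hW
      (fun x => if x ∈ (DD W)ᶜ then dg W x else 0)
      (fun x => if x ∈ (DD (Pool.Agent.W297.LP.co W))ᶜ then dg (Pool.Agent.W297.LP.co W) x else 0)
      (hm1 W hW) (hm2 W hW) (hm1 _ hW') (hm2 _ hW') T0
    rw [hsum, hsum] at h1
    have h2 : (T0.sz : ℝ) * (l1 * (∑ x ∈ (DD W)ᶜ, dg W x) +
        l2 * (∑ x ∈ (DD (Pool.Agent.W297.LP.co W))ᶜ, dg (Pool.Agent.W297.LP.co W) x) +
        ∑ x, Ph (dg W x)) ≤ (T0.sz : ℝ) * (2 * e' * (Fintype.card V : ℝ)) := by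
      have h3 := hgt W hW
      have h4 := hgt _ hW'
      linarith
    have h5 := le_of_mul_le_mul_left h2 hTpos
    refine h5.trans (mul_le_mul_of_nonneg_right ?_ hn0)
    linarith

end Pool.Agent.N412.LB.Sets2Aux
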