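import Pool.Agent.N412.LB.Stm

/-!
Project LB (helper412), part SIZE: convexity.
-/

set_option autoImplicit false

open Finset

namespace Pool.Agent.N412.LB

open Pool.Agent.W297.LP

namespace SizeAux

lemma conv_ineq (p m : ℝ) (hp : 0 ≤ p) (hm : 0 ≤ m) (s : ℕ) :
    ((s : ℝ) + 1) * m ^ s * (p - m) ^ 2 ≤
      p ^ (s + 2) - m ^ (s + 2) - ((s : ℝ) + 2) * m ^ (s + 1) * (p - m) := by
  induction s with
  | zero =>
    push_cast
    nlinarith [sq_nonneg (p - m)]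
  | succ s ih =>
    have h1 : p ^ (s + 1 + 2) - m ^ (s + 1 + 2) -
        (((s + 1 : ℕ) : ℝ) + 2) * m ^ (s + 1 + 1) * (p - m) =
        p * (p ^ (s + 2) - m ^ (s + 2) - ((s : ℝ) + 2) * m ^ (s + 1) * (p - m)) +
          ((s : ℝ) + 2) * m ^ (s + 1) * (p - m) ^ 2 := by
      push_cast; ring
    rw [h1]
    have h2 : 0 ≤ p ^ (s + 2) - m ^ (s + 2) - ((s : ℝ) + 2) * m ^ (s + 1) * (p - m) :=
      le_trans (by positivity) ih
    have h3 := mul_nonneg hp h2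
    have h5 : (((s + 1 : ℕ) : ℝ) + 1) * m ^ (s + 1) * (p - m) ^ 2 =
        ((s : ℝ) + 2) * m ^ (s + 1) * (p - m) ^ 2 := by
      push_cast; ring
    rw [h5]
    linarith

lemma small (s : ℕ) : ((s : ℝ) + 2) ≤ 3 ^ (s + 1) := by
  induction s with
  | zero => norm_num
  | succ s ih =>
    rw [pow_succ]
    push_cast
    have : (0 : ℝ) ≤ s := Nat.cast_nonneg s
    linarith

end SizeAux

open SizeAux

theorem size : SSize := by
  intro k s hk hs δ hδ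
  obtain ⟨s, rfl⟩ : ∃ s', s = s' + 2 := ⟨s - 2, by omega⟩
  have hk1 : (0 : ℝ) < ((k - 1 : ℕ) : ℝ) := by
    have : 0 < k - 1 := by omega
    exact_mod_cast this
  obtain ⟨m, hm⟩ : ∃ m, m = mu k := ⟨_, rfl⟩
  have hmk : ((k - 1 : ℕ) : ℝ) * m = 1 := by
    have e : ((k - 1 : ℕ) : ℝ) = (k : ℝ) - 1 := by
      rw [Nat.cast_sub (by omega), Nat.cast_one]
    rw [hm, mu, ← e]
    field_simp
  rw [← hm]
  have hm0 : 0 < m := by
    by_contra h
    push Not at h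
    nlinarith
  have hk3 : (3 : ℝ) ≤ ((k - 1 : ℕ) : ℝ) := by
    have : 3 ≤ k - 1 := by omega
    exact_mod_cast this
  have hm3 : m ≤ 1 / 3 := by nlinarith
  have hsm : ((s : ℝ) + 2) * m ^ (s + 1) ≤ 1 := by
    have h1 : m ^ (s + 1) ≤ (1 / 3) ^ (s + 1) := pow_le_pow_left₀ hm0.le hm3 _
    have h2 := small s
    have h3 : ((s : ℝ) + 2) * m ^ (s + 1) ≤ 3 ^ (s + 1) * (1 / 3) ^ (s + 1) :=
      mul_le_mul h2 h1 (by positivity) (by positivity)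
    rw [← mul_pow] at h3
    norm_num at h3
    exact h3
  refine ⟨((s : ℝ) + 1) * m ^ s * δ ^ 2 / 2, by positivity, ?_⟩
  intro p hp h1 h2
  obtain ⟨ξ, hξ⟩ : ∃ ξ, ξ = ((s : ℝ) + 1) * m ^ s * δ ^ 2 / 2 := ⟨_, rfl⟩
  rw [← hξ] at h1 ⊢
  have hξ0 : 0 < ξ := by rw [hξ]; positivity
  have key : m ^ (s + 1) - ξ + ((s : ℝ) + 1) * m ^ s * ∑ i, (p i - m) ^ 2 ≤ ∑ i, p i ^ (s + 2) := by
    have a1 : ∑ i, ((s : ℝ) + 1) * m ^ s * (p i - m) ^ 2 ≤
        ∑ i, (p i ^ (s + 2) - m ^ (s + 2) - ((s : ℝ) + 2) * m ^ (s + 1) * (p i - m)) :=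
      Finset.sum_le_sum fun i _ => conv_ineq (p i) m (hp i) hm0.le s
    rw [← Finset.mul_sum, Finset.sum_sub_distrib, Finset.sum_sub_distrib, ← Finset.mul_sum,
      Finset.sum_sub_distrib, Finset.sum_const, Finset.sum_const, Finset.card_univ,
      Fintype.card_fin, nsmul_eq_mul, nsmul_eq_mul, hmk] at a1
    have a2 : ((k - 1 : ℕ) : ℝ) * m ^ (s + 2) = m ^ (s + 1) := by
      rw [pow_succ m (s + 1)]
      calc ((k - 1 : ℕ) : ℝ) * (m ^ (s + 1) * m) = m ^ (s + 1) * (((k - 1 : ℕ) : ℝ) * m) := by ring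
        _ = m ^ (s + 1) := by rw [hmk, mul_one]
    rw [a2] at a1
    have a3 : -ξ ≤ ((s : ℝ) + 2) * m ^ (s + 1) * (∑ i, p i - 1) := by
      have b1 : 0 ≤ ((s : ℝ) + 2) * m ^ (s + 1) := by positivity
      nlinarith
    linarith
  have hpos : 0 ≤ ((s : ℝ) + 1) * m ^ s := by positivity
  refine ⟨?_, ?_⟩
  · have : 0 ≤ ∑ i, (p i - m) ^ 2 := Finset.sum_nonneg fun i _ => sq_nonneg _
    have := mul_nonneg hpos this
    show m ^ (s + 1) - ξ ≤ _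
    linarith
  · intro h3 i
    have h3' : ∑ i, p i ^ (s + 2) ≤ m ^ (s + 1) + ξ := h3
    have h4 : ((s : ℝ) + 1) * m ^ s * ∑ i, (p i - m) ^ 2 ≤ ((s : ℝ) + 1) * m ^ s * δ ^ 2 := by
      have : 2 * ξ = ((s : ℝ) + 1) * m ^ s * δ ^ 2 := by rw [hξ]; ring
      linarith
    have hpos' : 0 < ((s : ℝ) + 1) * m ^ s := by positivity
    have h5 : ∑ i, (p i - m) ^ 2 ≤ δ ^ 2 := le_of_mul_le_mul_left h4 hpos'
    have h6 : (p i - m) ^ 2 ≤ ∑ i, (p i - m) ^ 2 :=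
      Finset.single_le_sum (f := fun i => (p i - m) ^ 2) (fun j _ => sq_nonneg _)
        (Finset.mem_univ i)
    exact abs_le_of_sq_le_sq (h6.trans h5) hδ.le

end Pool.Agent.N412.LB
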