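import Pool.Agent.N412.LB.Stm

/-!
BONBON/STAB2 (helper412): near-optimal colourings are close to the Turan colouring.
-/

set_option autoImplicit false

open Finset

namespace Pool.Agent.N412.LB

namespace Stab2Aux

open Pool.Agent.W297.LP

theorem co_co {V : Type} (W : V → V → ℝ) : co (co W) = W := by
  funext x y; simp [co]

theorem ker_co {V : Type} {W : V → V → ℝ} (h : Ker W) : Ker (co W) where
  symm x y := by unfold co; rw [h.symm x y]
  zo x y := by
    unfold co
    rcases h.zo x y with h1 | h1 <;> rw [h1] <;> norm_num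

theorem nn {V : Type} {W : V → V → ℝ} (h : Ker W) (x y : V) : 0 ≤ W x y := by
  rcases h.zo x y with h1 | h1 <;> rw [h1]
  exact zero_le_one

theorem le1 {V : Type} {W : V → V → ℝ} (h : Ker W) (x y : V) : W x y ≤ 1 := by
  rcases h.zo x y with h1 | h1 <;> rw [h1]
  exact zero_le_one

theorem td_nonneg {V : Type} [Fintype V] {W : V → V → ℝ} (h : Ker W) (T : Tr) (x : V) :
    0 ≤ td W T x := by
  induction T generalizing x with
  | pt => exact zero_le_one
  | br A B ihA ihB =>
    exact mul_nonneg (ihA x) (div_nonneg (Finset.sum_nonneg fun y _ =>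
      mul_nonneg (nn h x y) (ihB y)) (Nat.cast_nonneg _))

theorem lol_nonneg {V : Type} [Fintype V] {k : ℕ} {W : V → V → ℝ} (h : Ker W)
    (T : Fin k → Tr) : 0 ≤ lol W T :=
  div_nonneg (Finset.sum_nonneg fun x _ => Finset.prod_nonneg fun i _ => td_nonneg h _ _)
    (pow_nonneg (Nat.cast_nonneg _) _)

theorem ms_nonneg {V : Type} [Fintype V] (D : Finset V) : 0 ≤ ms D :=
  div_nonneg (Nat.cast_nonneg _) (Nat.cast_nonneg _)

theorem ee_nonneg {V : Type} [Fintype V] {W : V → V → ℝ} (h : ∀ x y, 0 ≤ W x y) (P Q : Finset V) :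
    0 ≤ ee W P Q :=
  div_nonneg (sum_nonneg fun x _ => sum_nonneg fun y _ => h x y) (by positivity)

theorem bl_nonneg {k : ℕ} {V : Type} [Fintype V] {W : V → V → ℝ} (h : Ker W)
    (Vi : Fin (k - 1) → Finset V) : 0 ≤ bl W Vi :=
  Finset.sum_nonneg fun i _ => ee_nonneg (nn (ker_co h)) _ _

theorem mu_pos {k : ℕ} (hk : 4 ≤ k) : 0 < mu k := by
  have : (4 : ℝ) ≤ k := by exact_mod_cast hk
  unfold mu
  apply one_div_pos.2
  linarith

theorem mu_le {k : ℕ} (hk : 4 ≤ k) : mu k ≤ 1 / 3 := by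
  have : (4 : ℝ) ≤ k := by exact_mod_cast hk
  unfold mu
  exact one_div_le_one_div_of_le (by norm_num) (by linarith)

theorem powlow {k s : ℕ} (hk : 4 ≤ k) (hs : 1 ≤ s) (p : Fin (k - 1) → ℝ) (hp : ∀ i, 0 ≤ p i)
    {a : ℝ} (ha1 : a ≤ 1) (h : 1 - a ≤ ∑ i, p i) :
    mu k ^ (s - 1) * (1 - s * a) ≤ ∑ i, p i ^ s := by
  have hk' : (4 : ℝ) ≤ k := by exact_mod_cast hk
  have hm := mu_pos hk
  obtain ⟨n, rfl⟩ : ∃ n, s = n + 1 := ⟨s - 1, by omega⟩
  have h1 := pow_sum_div_card_le_sum_pow (s := (univ : Finset (Fin (k - 1))))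
    (f := p) (fun i _ => hp i) n
  rw [card_univ, Fintype.card_fin] at h1
  refine le_trans ?_ h1
  have h3 : ((k - 1 : ℕ) : ℝ) = (k : ℝ) - 1 := by
    rw [Nat.cast_sub (by omega)]
    simp
  rw [h3]
  have h4 : (mu k) ^ n = 1 / ((k : ℝ) - 1) ^ n := by
    unfold mu
    rw [div_pow, one_pow]
  have hber : 1 - ((n + 1 : ℕ) : ℝ) * a ≤ (1 - a) ^ (n + 1) := by
    have h1 := one_add_mul_le_pow (a := -a) (by linarith) (n + 1)
    have h2 : 1 + ((n + 1 : ℕ) : ℝ) * -a = 1 - ((n + 1 : ℕ) : ℝ) * a := by ring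
    rw [h2] at h1
    exact h1
  have hle : (1 - a) ^ (n + 1) ≤ (∑ i, p i) ^ (n + 1) :=
    pow_le_pow_left₀ (by linarith) h _
  rw [Nat.add_sub_cancel, h4, one_div_mul_eq_div]
  apply div_le_div_of_nonneg_right (hber.trans hle) (pow_nonneg (by linarith) _)

/-- from typical parts back to a partition -/
theorem back {k : ℕ} (hk : 4 ≤ k) {e d δ : ℝ} {V : Type} [Fintype V] [DecidableEq V]
    {W : V → V → ℝ}
    {Vi : Fin (k - 1) → Finset V} {A1 A2 : Finset V} (hW : Ker W) (hV : 0 < Fintype.card V)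
    (ht : Typ k e d W Vi A1 A2) (hs : ∀ i, |ms (Vi i) - mu k| ≤ δ / 2)
    (ha : bl W Vi + ms A1 + ms A2 ≤ δ / 8)
    (hc : ∑ i, ∑ j ∈ univ.erase i, ee W (Vi i) (Vi j) ≤ δ / 4) : Near k δ W := by
  classical
  have hn : (0 : ℝ) < (Fintype.card V : ℝ) := by exact_mod_cast hV
  have hk1 : 0 < k - 1 := by omega
  have hb := bl_nonneg hW Vi
  have ha1 := ms_nonneg A1
  have ha2 := ms_nonneg A2
  obtain ⟨P, hP⟩ : ∃ P : V → Fin (k - 1), ∀ i, ∀ x ∈ Vi i, P x = i := by
    refine ⟨fun x => if h : ∃ i, x ∈ Vi i then h.choose else ⟨0, hk1⟩, fun i x hx => ?_⟩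
    have h : ∃ i, x ∈ Vi i := ⟨i, hx⟩
    simp only [h, dif_pos]
    by_contra hne
    exact Finset.disjoint_left.1 (ht.disj _ _ hne) h.choose_spec hx
  refine ⟨P, fun i => ?_, ?_⟩
  · have h1 : Vi i ⊆ univ.filter (fun x => P x = i) := by
      intro x hx
      rw [mem_filter]
      exact ⟨mem_univ _, hP i x hx⟩
    have h2 : univ.filter (fun x => P x = i) ⊆ Vi i ∪ (A1 ∪ A2) := by
      intro x hx
      rw [mem_filter] at hx
      rcases ht.cov x with h | h | ⟨j, h⟩
      · exact mem_union_right _ (mem_union_left _ h)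
      · exact mem_union_right _ (mem_union_right _ h)
      · have := hP j x h
        rw [hx.2] at this
        subst this
        exact mem_union_left _ h
    have c1 : ((Vi i).card : ℝ) ≤ ((univ.filter (fun x => P x = i)).card : ℝ) := by
      exact_mod_cast card_le_card h1
    have c2 : ((univ.filter (fun x => P x = i)).card : ℝ) ≤
        ((Vi i).card : ℝ) + ((A1.card : ℝ) + (A2.card : ℝ)) := by
      have := (card_le_card h2).trans ((card_union_le _ _).trans
        (Nat.add_le_add_left (card_union_le A1 A2) _))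
      exact_mod_cast this
    have d1 : ms (Vi i) ≤ ms (univ.filter (fun x => P x = i)) :=
      div_le_div_of_nonneg_right c1 hn.le
    have d2 : ms (univ.filter (fun x => P x = i)) ≤ ms (Vi i) + (ms A1 + ms A2) := by
      unfold ms
      rw [← add_div, ← add_div]
      exact div_le_div_of_nonneg_right c2 hn.le
    have h3 := abs_le.1 (hs i)
    rw [abs_le]
    constructor <;> linarith [h3.1, h3.2]
  · have hpt : ∀ x y, (if P x = P y then 1 - W x y else W x y) ≤
        (∑ i, (if x ∈ Vi i then (if y ∈ Vi i then co W x y else 0) else 0)) +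
        (∑ i, ∑ j ∈ univ.erase i, (if x ∈ Vi i then (if y ∈ Vi j then W x y else 0) else 0)) +
        (if x ∈ A1 ∪ A2 then 1 else 0) + (if y ∈ A1 ∪ A2 then 1 else 0) := by
      intro x y
      have hco := nn (ker_co hW) x y
      have hww := nn hW x y
      have n1 : 0 ≤ (∑ i, (if x ∈ Vi i then (if y ∈ Vi i then co W x y else 0) else 0)) :=
        sum_nonneg fun i _ => by split_ifs <;> first | exact hco | exact le_rfl
      have n2 : 0 ≤ (∑ i, ∑ j ∈ univ.erase i,
          (if x ∈ Vi i then (if y ∈ Vi j then W x y else 0) else 0)) :=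
        sum_nonneg fun i _ => sum_nonneg fun j _ => by
          split_ifs <;> first | exact hww | exact le_rfl
      have n3 : (0 : ℝ) ≤ (if x ∈ A1 ∪ A2 then 1 else 0) := by split_ifs <;> norm_num
      have n4 : (0 : ℝ) ≤ (if y ∈ A1 ∪ A2 then 1 else 0) := by split_ifs <;> norm_num
      have hle : (if P x = P y then 1 - W x y else W x y) ≤ 1 := by
        split_ifs
        · linarith
        · exact le1 hW x y
      by_cases hx : x ∈ A1 ∪ A2
      · rw [if_pos hx]
        linarith
      by_cases hy : y ∈ A1 ∪ A2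
      · rw [if_pos hy]
        linarith
      rw [mem_union, not_or] at hx hy
      obtain ⟨i, hi⟩ : ∃ i, x ∈ Vi i := by
        rcases ht.cov x with h | h | h
        · exact absurd h hx.1
        · exact absurd h hx.2
        · exact h
      obtain ⟨j, hj⟩ : ∃ j, y ∈ Vi j := by
        rcases ht.cov y with h | h | h
        · exact absurd h hy.1
        · exact absurd h hy.2
        · exact h
      rw [hP i x hi, hP j y hj]
      by_cases hij : i = j
      · subst hij
        rw [if_pos rfl]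
        have : co W x y ≤ (∑ i, (if x ∈ Vi i then (if y ∈ Vi i then co W x y else 0) else 0)) := by
          refine le_trans ?_ (single_le_sum (f := fun i =>
            (if x ∈ Vi i then (if y ∈ Vi i then co W x y else 0) else 0))
            (fun i _ => ?_) (mem_univ i))
          · simp only [if_pos hi, if_pos hj]
            exact le_rfl
          · try dsimp only
            split_ifs <;> first | exact hco | exact le_rfl
        have h0 : co W x y = 1 - W x y := rfl
        linarith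
      · rw [if_neg hij]
        have : W x y ≤ (∑ i, ∑ j ∈ univ.erase i,
            (if x ∈ Vi i then (if y ∈ Vi j then W x y else 0) else 0)) := by
          refine le_trans ?_ (single_le_sum (f := fun i => ∑ j ∈ univ.erase i,
            (if x ∈ Vi i then (if y ∈ Vi j then W x y else 0) else 0))
            (fun i _ => ?_) (mem_univ i))
          · refine le_trans ?_ (single_le_sum (f := fun j =>
              (if x ∈ Vi i then (if y ∈ Vi j then W x y else 0) else 0))
              (fun i _ => ?_) (mem_erase.2 ⟨fun h => hij h.symm, mem_univ j⟩))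
            · simp only [if_pos hi, if_pos hj]
              exact le_rfl
            · try dsimp only
              split_ifs <;> first | exact hww | exact le_rfl
          · exact sum_nonneg fun j _ => by
              split_ifs <;> first | exact hww | exact le_rfl
        linarith
    have hsum := sum_le_sum fun (x : V) (_ : x ∈ univ) =>
      sum_le_sum fun (y : V) (_ : y ∈ univ) => hpt x y
    refine hsum.trans ?_
    simp only [sum_add_distrib]
    have t1 : ∑ x : V, ∑ y : V, ∑ i, (if x ∈ Vi i then (if y ∈ Vi i then co W x y else 0) else 0) =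
        bl W Vi * (Fintype.card V : ℝ) ^ 2 := by
      have : ∀ i, ∑ x : V, ∑ y : V, (if x ∈ Vi i then (if y ∈ Vi i then co W x y else 0) else 0) =
          ee (co W) (Vi i) (Vi i) * (Fintype.card V : ℝ) ^ 2 := by
        intro i
        unfold ee
        rw [div_mul_cancel₀ _ (by positivity)]
        rw [← sum_filter_add_sum_filter_not univ (fun x => x ∈ Vi i)]
        rw [filter_mem_eq_inter, univ_inter]
        rw [sum_eq_zero (s := univ.filter (fun x => ¬ x ∈ Vi i)), add_zero]
        · refine sum_congr rfl fun x hx => ?_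
          simp only [if_pos hx]
          rw [sum_ite_mem, univ_inter]
        · intro x hx
          rw [mem_filter] at hx
          simp only [if_neg hx.2, sum_const_zero]
      unfold bl
      rw [sum_mul, ← sum_congr rfl fun i _ => this i]
      rw [sum_comm]
      rw [← sum_comm]
      rw [sum_congr rfl fun x _ => sum_comm]
      rw [sum_comm]
    have t2 : ∑ x : V, ∑ y : V, ∑ i, ∑ j ∈ univ.erase i,
        (if x ∈ Vi i then (if y ∈ Vi j then W x y else 0) else 0) =
        (∑ i, ∑ j ∈ univ.erase i, ee W (Vi i) (Vi j)) * (Fintype.card V : ℝ) ^ 2 := by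
      have : ∀ i j, ∑ x : V, ∑ y : V, (if x ∈ Vi i then (if y ∈ Vi j then W x y else 0) else 0) =
          ee W (Vi i) (Vi j) * (Fintype.card V : ℝ) ^ 2 := by
        intro i j
        unfold ee
        rw [div_mul_cancel₀ _ (by positivity)]
        rw [← sum_filter_add_sum_filter_not univ (fun x => x ∈ Vi i)]
        rw [filter_mem_eq_inter, univ_inter]
        rw [sum_eq_zero (s := univ.filter (fun x => ¬ x ∈ Vi i)), add_zero]
        · refine sum_congr rfl fun x hx => ?_
          simp only [if_pos hx]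
          rw [sum_ite_mem, univ_inter]
        · intro x hx
          rw [mem_filter] at hx
          simp only [if_neg hx.2, sum_const_zero]
      rw [sum_mul]
      rw [sum_congr rfl fun i _ => sum_mul _ _ _]
      rw [← sum_congr rfl fun i _ => sum_congr rfl fun j _ => this i j]
      rw [sum_congr rfl fun x _ => sum_comm]
      rw [sum_comm]
      refine sum_congr rfl fun i _ => ?_
      rw [sum_congr rfl fun x _ => sum_comm]
      rw [sum_comm]
    have hA : ∑ x : V, (if x ∈ A1 ∪ A2 then (1 : ℝ) else 0) ≤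
        (ms A1 + ms A2) * (Fintype.card V : ℝ) := by
      rw [sum_ite_mem, univ_inter, sum_const, nsmul_eq_mul, mul_one]
      have : ((A1 ∪ A2).card : ℝ) ≤ (A1.card : ℝ) + (A2.card : ℝ) := by
        exact_mod_cast card_union_le A1 A2
      refine this.trans (le_of_eq ?_)
      unfold ms
      field_simp
    have t3 : ∑ x : V, ∑ _y : V, (if x ∈ A1 ∪ A2 then (1 : ℝ) else 0) ≤
        (ms A1 + ms A2) * (Fintype.card V : ℝ) ^ 2 := by
      simp only [sum_const, card_univ, nsmul_eq_mul]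
      rw [← mul_sum]
      calc (Fintype.card V : ℝ) * ∑ x : V, (if x ∈ A1 ∪ A2 then (1 : ℝ) else 0) ≤
          (Fintype.card V : ℝ) * ((ms A1 + ms A2) * (Fintype.card V : ℝ)) :=
            mul_le_mul_of_nonneg_left hA hn.le
        _ = _ := by ring
    have t4 : ∑ _x : V, ∑ y : V, (if y ∈ A1 ∪ A2 then (1 : ℝ) else 0) ≤
        (ms A1 + ms A2) * (Fintype.card V : ℝ) ^ 2 := by
      simp only [sum_const, card_univ, nsmul_eq_mul]
      calc (Fintype.card V : ℝ) * ∑ x : V, (if x ∈ A1 ∪ A2 then (1 : ℝ) else 0) ≤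
          (Fintype.card V : ℝ) * ((ms A1 + ms A2) * (Fintype.card V : ℝ)) :=
            mul_le_mul_of_nonneg_left hA hn.le
        _ = _ := by ring
    rw [t1, t2]
    have hn2 : (0 : ℝ) < (Fintype.card V : ℝ) ^ 2 := by positivity
    have q : bl W Vi + (∑ i, ∑ j ∈ univ.erase i, ee W (Vi i) (Vi j)) + (ms A1 + ms A2) +
        (ms A1 + ms A2) ≤ δ := by
      have : 0 ≤ δ / 8 := by linarith
      linarith
    have q2 := mul_le_mul_of_nonneg_right q hn2.le
    nlinarith [q2, t3, t4]

/-- the local part -/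
theorem locs (hTyp : STyp) (hCost : SCost) (hU : SUnion2) (hG : SGain2) (hP : SPart2)
    (hZ : SSize) : ∀ k : ℕ, 4 ≤ k → ∃ (δ0 : ℝ) (N0 : ℕ), 0 < δ0 ∧ ∀ T : Fin k → Tr, N0 ≤ tot T →
      ∀ δ : ℝ, 0 < δ → ∃ η : ℝ, 0 < η ∧ ∀ (V : Type) [Fintype V] (W : V → V → ℝ), Ker W →
        0 < Fintype.card V → Near k δ0 W →
        lol W T + lol (co W) T ≤ mu k ^ (tot T + (k - 1)) + η → Near k δ W := by
  intro k hk
  have hm := mu_pos hk
  have hm1 := mu_le hk
  obtain ⟨e, d0, c3, N1, he, he1, hd0, hc3, hG⟩ := hG k hk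
  obtain ⟨d0', c, hd0', hc, hC⟩ := hCost k hk e he he1
  set d : ℝ := min d0 (min d0' (mu k ^ 2 / 16)) with hd
  have hdpos : 0 < d := lt_min hd0 (lt_min hd0' (by positivity))
  have hda : d ≤ d0 := min_le_left _ _
  have hdb : d ≤ d0' := (min_le_right _ _).trans (min_le_left _ _)
  have hdc : d ≤ mu k ^ 2 / 16 := (min_le_right _ _).trans (min_le_right _ _)
  obtain ⟨δ0, hδ0, hT⟩ := hTyp k hk e d he (he1.trans (by nlinarith)) hdpos
  obtain ⟨c', hc'⟩ : ∃ c' : ℝ, c' = c * (c3 / (1 + c3)) / 2 := ⟨_, rfl⟩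
  have hcc : 0 < c' := by rw [hc']; positivity
  obtain ⟨N2, hU⟩ := hU k hk _ hcc
  refine ⟨δ0, max (max N1 N2) 1, hδ0, ?_⟩
  intro T hNT δ hδ
  have hN1 : N1 ≤ tot T := (le_max_left _ _).trans ((le_max_left _ _).trans hNT)
  have hN2 : N2 ≤ tot T := (le_max_right _ _).trans ((le_max_left _ _).trans hNT)
  have hN3 : 0 < tot T := lt_of_lt_of_le Nat.one_pos ((le_max_right _ _).trans hNT)
  obtain ⟨cP, hcP, hP⟩ := hP k hk T hN3
  obtain ⟨ξ, hξ, hZ⟩ := hZ k (tot T + k) hk (by omega) (δ / 2) (by linarith)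
  obtain ⟨M, hM⟩ : ∃ M : ℝ, M = mu k ^ (tot T + (k - 1)) := ⟨_, rfl⟩
  have hM0 : 0 < M := by rw [hM]; positivity
  have hM' : mu k ^ (tot T + k - 1) = M := by
    rw [hM]; congr 1; omega
  obtain ⟨K, hK⟩ : ∃ K : ℝ, K = (k : ℝ) ^ 2 + (tot T : ℝ) := ⟨_, rfl⟩
  have hK0 : 0 ≤ K := by rw [hK]; positivity
  obtain ⟨F, hF⟩ : ∃ F : ℝ, F = (3 / 5 : ℝ) ^ (tot T) := ⟨_, rfl⟩
  have hF0 : 0 < F := by rw [hF]; positivity
  obtain ⟨B, hB⟩ : ∃ B : ℝ, B = (1 + c3) / M + 1 / (c' * F) := ⟨_, rfl⟩
  have hB0 : 0 < B := by rw [hB]; positivity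
  obtain ⟨Z, hZdef⟩ : ∃ Z : ℝ, Z = 1 + (M * (tot T + k : ℕ) + K) * B := ⟨_, rfl⟩
  have hZ0 : 0 < Z := by rw [hZdef]; positivity
  obtain ⟨η, hη, e1, e2, e3, e4⟩ : ∃ η : ℝ, 0 < η ∧ B * η ≤ 1 ∧ B * η ≤ δ / 8 ∧
      B * η + Z * η ≤ ξ ∧ Z * η ≤ cP * (δ / 4) := by
    have r1 : 0 < 1 / B := by positivity
    have r2 : 0 < δ / 8 / B := by positivity
    have r3 : 0 < ξ / (B + Z) := by positivity
    have r4 : 0 < cP * (δ / 4) / Z := by positivity
    refine ⟨min (min (1 / B) (δ / 8 / B)) (min (ξ / (B + Z)) (cP * (δ / 4) / Z)),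
      lt_min (lt_min r1 r2) (lt_min r3 r4), ?_, ?_, ?_, ?_⟩
    · have := (min_le_left (min (1 / B) (δ / 8 / B)) (min (ξ / (B + Z)) (cP * (δ / 4) / Z))).trans
        (min_le_left _ _)
      rw [le_div_iff₀ hB0] at this
      linarith
    · have := (min_le_left (min (1 / B) (δ / 8 / B)) (min (ξ / (B + Z)) (cP * (δ / 4) / Z))).trans
        (min_le_right _ _)
      rw [le_div_iff₀ hB0] at this
      linarith
    · have := (min_le_right (min (1 / B) (δ / 8 / B)) (min (ξ / (B + Z)) (cP * (δ / 4) / Z))).trans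
        (min_le_left _ _)
      rw [le_div_iff₀ (by positivity)] at this
      linarith
    · have := (min_le_right (min (1 / B) (δ / 8 / B)) (min (ξ / (B + Z)) (cP * (δ / 4) / Z))).trans
        (min_le_right _ _)
      rw [le_div_iff₀ hZ0] at this
      linarith
  refine ⟨η, hη, ?_⟩
  intro V _ W hW hV hN hopt
  classical
  rw [← hM] at hopt
  obtain ⟨Vi, A1, A2, ht⟩ := hT V W hW hV hN
  have hb := bl_nonneg hW Vi
  have ha1 := ms_nonneg A1
  have ha2 := ms_nonneg A2
  have hl := lol_nonneg (ker_co hW) T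
  have hl2 := lol_nonneg hW T
  -- the defect is small
  have hdef : bl W Vi + ms A1 + ms A2 ≤ B * η := by
    by_cases hcase : bl W Vi + ms A2 ≤ c3 * ms A1 ∧ 0 < ms A1
    · have h1 := hG d hdpos hda V W Vi A1 A2 hW hV ht hcase.1 hcase.2 T hN1
      rw [← hM] at h1
      have h2 : M * ms A1 ≤ η := by nlinarith
      have h3 : ms A1 ≤ η / M := by
        rw [le_div_iff₀ hM0]
        linarith
      have h4 : bl W Vi + ms A1 + ms A2 ≤ (1 + c3) * ms A1 := by
        have := hcase.1
        linarith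
      have h5 : (1 + c3) * ms A1 ≤ (1 + c3) * (η / M) := mul_le_mul_of_nonneg_left h3 (by linarith)
      have h6 : B * η = (1 + c3) * (η / M) + 1 / (c' * F) * η := by rw [hB]; ring
      have h7 : 0 ≤ 1 / (c' * F) * η := by positivity
      linarith
    · have h1 : c3 * ms A1 ≤ bl W Vi + ms A2 := by
        rcases lt_or_ge 0 (ms A1) with h | h
        · by_contra h2
          exact hcase ⟨(not_le.1 h2).le, h⟩
        · have : ms A1 = 0 := le_antisymm h ha1
          rw [this, mul_zero]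
          linarith
      have h2 : c3 / (1 + c3) * (bl W Vi + ms A1 + ms A2) ≤ bl W Vi + ms A2 := by
        rw [div_mul_eq_mul_div, div_le_iff₀ (by linarith)]
        nlinarith
      have h3 := hC d hdpos hdb V W Vi A1 A2 hW hV ht T
      rw [← hF] at h3
      have h4 := hU e d hdc V W Vi A1 A2 hW hV ht T hN2
      rw [← hM, ← hF] at h4
      have h5 : 2 * (c' * (bl W Vi + ms A1 + ms A2) * F) ≤ lol (co W) T := by
        refine le_trans ?_ h3
        have h6 := mul_le_mul_of_nonneg_left h2 hc.le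
        have h7 := mul_le_mul_of_nonneg_right h6 hF0.le
        refine le_trans (le_of_eq ?_) h7
        rw [hc']; ring
      have h8 : (c' * F) * (bl W Vi + ms A1 + ms A2) ≤ η := by
        have : c' * (bl W Vi + ms A1 + ms A2) * F = (c' * F) * (bl W Vi + ms A1 + ms A2) := by ring
        linarith
      have h9 : bl W Vi + ms A1 + ms A2 ≤ 1 / (c' * F) * η := by
        rw [one_div, inv_mul_eq_div, le_div_iff₀ (by positivity)]
        linarith
      have h6 : B * η = (1 + c3) / M * η + 1 / (c' * F) * η := by rw [hB]; ring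
      have h7 : 0 ≤ (1 + c3) / M * η := by positivity
      linarith
  -- sizes
  have hp := hP e d he1 hdc V W Vi A1 A2 hW hV ht
  rw [← hK] at hp
  have hcov : 1 - (ms A1 + ms A2) ≤ ∑ i, ms (Vi i) := by
    have hn' : (0 : ℝ) < Fintype.card V := by exact_mod_cast hV
    have h1 : (univ : Finset V) ⊆ (A1 ∪ A2) ∪ univ.biUnion Vi := by
      intro x _
      rcases ht.cov x with h | h | ⟨i, h⟩
      · exact mem_union_left _ (mem_union_left _ h)
      · exact mem_union_left _ (mem_union_right _ h)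
      · exact mem_union_right _ (mem_biUnion.2 ⟨i, mem_univ _, h⟩)
    have h2 : Fintype.card V ≤ (A1.card + A2.card) + ∑ i, (Vi i).card := by
      calc Fintype.card V = (univ : Finset V).card := rfl
        _ ≤ ((A1 ∪ A2) ∪ univ.biUnion Vi).card := card_le_card h1
        _ ≤ (A1 ∪ A2).card + (univ.biUnion Vi).card := card_union_le _ _
        _ ≤ _ := add_le_add (card_union_le _ _) card_biUnion_le
    have h3 : (Fintype.card V : ℝ) ≤ ((A1.card : ℝ) + A2.card) + ∑ i, ((Vi i).card : ℝ) := by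
      exact_mod_cast h2
    have h4 : (ms A1 + ms A2) + ∑ i, ms (Vi i) =
        (((A1.card : ℝ) + A2.card) + ∑ i, ((Vi i).card : ℝ)) / Fintype.card V := by
      unfold ms
      rw [← sum_div]
      ring
    have h5 : 1 ≤ (ms A1 + ms A2) + ∑ i, ms (Vi i) := by
      rw [h4, le_div_iff₀ hn']
      linarith
    linarith
  have hle : ∑ i, ms (Vi i) ≤ 1 := by
    have hn' : (0 : ℝ) < Fintype.card V := by exact_mod_cast hV
    have h1 : ∑ i, (Vi i).card = (univ.biUnion Vi).card := by
      rw [card_biUnion]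
      intro i _ j _ hij
      exact ht.disj i j hij
    have h2 : ((∑ i, (Vi i).card : ℕ) : ℝ) ≤ (Fintype.card V : ℝ) := by
      rw [h1]
      exact_mod_cast card_le_univ _
    unfold ms
    rw [← sum_div, div_le_one hn']
    push_cast at h2
    exact h2
  have hs1 : ms A1 + ms A2 ≤ B * η := by linarith
  have hs2 : 1 - ξ ≤ ∑ i, ms (Vi i) := by
    have : 0 ≤ Z * η := by positivity
    linarith
  obtain ⟨-, z2⟩ := hZ (fun i => ms (Vi i)) (fun i => ms_nonneg _) hs2 hle
  have hee : 0 ≤ ∑ i, ∑ j ∈ univ.erase i, ee W (Vi i) (Vi j) :=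
    sum_nonneg fun i _ => sum_nonneg fun j _ => ee_nonneg (nn hW) _ _
  have hKb : K * bl W Vi ≤ K * (B * η) := mul_le_mul_of_nonneg_left (by linarith) hK0
  have hMs : 0 ≤ M * (tot T + k : ℕ) * (B * η) := by positivity
  have hZη : Z * η = η + M * (tot T + k : ℕ) * (B * η) + K * (B * η) := by rw [hZdef]; ring
  have hcee : 0 ≤ cP * ∑ i, ∑ j ∈ univ.erase i, ee W (Vi i) (Vi j) := mul_nonneg hcP.le hee
  have hsz := z2 (by
    rw [hM']
    have : 0 ≤ B * η := by positivity
    linarith)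
  have hlow := powlow (s := tot T + k) hk (by omega) (fun i => ms (Vi i)) (fun i => ms_nonneg _)
    (a := B * η) e1 (by linarith)
  rw [hM'] at hlow
  refine back hk hW hV ht hsz (by linarith) ?_
  have hfin : cP * ∑ i, ∑ j ∈ univ.erase i, ee W (Vi i) (Vi j) ≤ cP * (δ / 4) := by
    refine le_trans ?_ e4
    rw [hZη]
    have : M * (1 - ((tot T + k : ℕ) : ℝ) * (B * η)) = M - M * (tot T + k : ℕ) * (B * η) := by ring
    rw [this] at hlow
    linarith
  exact le_of_mul_le_mul_left hfin hcP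

end Stab2Aux


open Pool.Agent.W297.LP

theorem stab2 (hsets : SSets2) (hsym : SSym) (h5 : SDich5) (h4 : SDich4) (halm : SAlmost)
    (hst : SStab) (hTyp : STyp) (hCost : SCost) (hU : SUnion2) (hG : SGain2) (hP : SPart2)
    (hZ : SSize) : SStab2 := by
  intro k hk
  obtain ⟨δ0, N1, hδ0, hL⟩ := Stab2Aux.locs hTyp hCost hU hG hP hZ k hk
  obtain ⟨δ1, hδ1, hS⟩ := hst k hk δ0 hδ0
  obtain ⟨e1, δ2, he1, hδ2, hA⟩ := halm k hk δ1 hδ1
  have hD : ∃ (e : ℝ) (n0 : ℕ), 0 < e ∧
      ∀ (V : Type) [Fintype V] [DecidableEq V] (W : V → V → ℝ) (D1 D2 : Finset V), Ker W →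
        0 < Fintype.card V → n0 ≤ Fintype.card V → Ext k e W D1 D2 →
        1 - δ2 ≤ ms D2 ∨ 1 - δ2 ≤ ms D1 := by
    rcases Nat.lt_or_ge k 5 with hk5 | hk5
    · obtain rfl : k = 4 := by omega
      exact h4 δ2 hδ2
    · obtain ⟨e, he, h⟩ := h5 k hk5 δ2 hδ2
      exact ⟨e, 0, he, fun V _ _ W D1 D2 hW hc _ hE => h V W D1 D2 hW hc hE⟩
  obtain ⟨e2, n0, he2, hD⟩ := hD
  obtain ⟨N2, hN2⟩ := hsets k hk (min e1 e2) (lt_min he1 he2)
  refine ⟨max N1 N2, fun T hT δ hδ => ?_⟩
  obtain ⟨η, hη, hL⟩ := hL T (le_trans (le_max_left _ _) hT) δ hδ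
  have hM0 : 0 < mu k ^ (tot T + (k - 1)) := pow_pos (Stab2Aux.mu_pos hk) _
  refine ⟨min η (mu k ^ (tot T + (k - 1))), max n0 1, lt_min hη hM0, fun V _ W hW hn hopt => ?_⟩
  classical
  have hn0 : n0 ≤ Fintype.card V := le_trans (le_max_left _ _) hn
  have hn1 : 0 < Fintype.card V := lt_of_lt_of_le Nat.one_pos (le_trans (le_max_right _ _) hn)
  have hl1 := Stab2Aux.lol_nonneg hW T
  have hl2 := Stab2Aux.lol_nonneg (Stab2Aux.ker_co hW) T
  have m1 := min_le_left η (mu k ^ (tot T + (k - 1)))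
  have m2 := min_le_right η (mu k ^ (tot T + (k - 1)))
  obtain ⟨D1, D2, hE⟩ := hN2 V W hW T (le_trans (le_max_right _ _) hT) (by linarith) (by linarith)
  have hE1 : Ext k e1 W D1 D2 := hsym.2 k _ _ V W D1 D2 hk (min_le_left _ _) hE
  have hE2 : Ext k e2 W D1 D2 := hsym.2 k _ _ V W D1 D2 hk (min_le_right _ _) hE
  rcases hD V W D1 D2 hW hn1 hn0 hE2 with hc | hc
  · exact Or.inl (hL V W hW hn1 (hS V W hW hn1 (hA V W D1 D2 hW hn1 hE1 hc)) (by linarith))
  · have hE1' := hsym.1 k e1 V W D1 D2 hW hE1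
    refine Or.inr (hL V (co W) (Stab2Aux.ker_co hW) hn1 (hS V (co W) (Stab2Aux.ker_co hW) hn1
      (hA V (co W) D2 D1 (Stab2Aux.ker_co hW) hn1 hE1' hc)) ?_)
    rw [Stab2Aux.co_co]
    linarith

end Pool.Agent.N412.LB
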