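import Pool.Agent.N412.LB.Stm

set_option autoImplicit false

/-!
BONBON/UNION2 (adapted from `Pool.Agent.W15.LP.UNION`).
-/

open Finset Filter Topology

namespace Pool.Agent.N412.LB.Union2Aux

open Pool.Agent.W297.LP

theorem ker_nonneg {V : Type} {W : V → V → ℝ} (hW : Ker W) (x y : V) : 0 ≤ W x y := by
  rcases hW.zo x y with h | h <;> rw [h]
  norm_num

theorem co_nonneg {V : Type} {W : V → V → ℝ} (hW : Ker W) (x y : V) : 0 ≤ co W x y := by
  unfold co
  rcases hW.zo x y with h | h <;> rw [h] <;> norm_num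

theorem td_nonneg {V : Type} [Fintype V] {W : V → V → ℝ} (hW : Ker W) (T : Tr) (x : V) :
    0 ≤ td W T x := by
  induction T generalizing x with
  | pt => simp [td]
  | br A B hA hB =>
    simp only [td]
    exact mul_nonneg (hA x) (div_nonneg (sum_nonneg fun y _ =>
      mul_nonneg (ker_nonneg hW x y) (hB y)) (Nat.cast_nonneg _))

theorem ee_nonneg {V : Type} [Fintype V] {W : V → V → ℝ} (h : ∀ x y, 0 ≤ W x y) (P Q : Finset V) :
    0 ≤ ee W P Q :=
  div_nonneg (sum_nonneg fun x _ => sum_nonneg fun y _ => h x y) (by positivity)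

theorem ms_nonneg {V : Type} [Fintype V] (D : Finset V) : 0 ≤ ms D :=
  div_nonneg (Nat.cast_nonneg _) (Nat.cast_nonneg _)

theorem mem_cl {V : Type} [Fintype V] (W : V → V → ℝ) (D : Finset V) (s : ℕ) (x : Fin s → V) :
    x ∈ cl W D s ↔ (∀ i, x i ∈ D) ∧ ∀ i j, i ≠ j → W (x i) (x j) = 1 := by
  simp only [cl, mem_filter, mem_univ, true_and]

theorem num (k : ℕ) (c : ℝ) (hc : 0 < c) : ∃ N0 : ℕ, ∀ N : ℕ, N0 ≤ N →
    ((k : ℝ) ^ 2 + N) * (2 / 5 : ℝ) ^ N ≤ c * (3 / 5 : ℝ) ^ N := by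
  have h1 : Tendsto (fun n : ℕ => (n : ℝ) * (2 / 3 : ℝ) ^ n) atTop (𝓝 0) :=
    tendsto_self_mul_const_pow_of_lt_one (by norm_num) (by norm_num)
  have h2 : Tendsto (fun n : ℕ => (k : ℝ) ^ 2 * (2 / 3 : ℝ) ^ n) atTop (𝓝 ((k : ℝ) ^ 2 * 0)) :=
    (tendsto_pow_atTop_nhds_zero_of_lt_one (by norm_num) (by norm_num)).const_mul _
  have h3 := h2.add h1
  rw [mul_zero, add_zero] at h3
  obtain ⟨N0, hN0⟩ := eventually_atTop.1 (h3.eventually (gt_mem_nhds hc))
  refine ⟨N0, fun N hN => ?_⟩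
  have h4 := hN0 N hN
  have h5 : (2 / 5 : ℝ) ^ N = (2 / 3) ^ N * (3 / 5) ^ N := by
    rw [← mul_pow]; norm_num
  rw [h5]
  have h6 : 0 < (3 / 5 : ℝ) ^ N := by positivity
  nlinarith

theorem union : SPart → SUnion2 := by
  classical
  intro hP k hk c hc
  obtain ⟨N0, hN0⟩ := num k c hc
  refine ⟨N0, ?_⟩
  intro e d hd V _ _ W Vi A1 A2 hW hn hT T hN
  have hnum := hN0 _ hN
  set N := tot T with hNdef
  have hk' : (4 : ℝ) ≤ k := by exact_mod_cast hk
  have hm0 : 0 < mu k := by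
    unfold mu
    apply div_pos one_pos
    linarith
  have hm1 : mu k ≤ 1 / 3 := by
    unfold mu
    rw [div_le_div_iff₀ (by linarith) (by norm_num)]
    linarith
  have hd1 : d ≤ 1 / 144 := by nlinarith
  have hn' : (0 : ℝ) < Fintype.card V := by exact_mod_cast hn
  set a := ms A1 + ms A2 with ha
  have ha0 : 0 ≤ a := add_nonneg (ms_nonneg _) (ms_nonneg _)
  have ha1 : a ≤ 1 / 144 := hT.small.trans hd1
  have hv : ∀ i, ms (Vi i) ≤ 2 / 5 := by
    intro i
    have := (abs_le.1 (hT.size i)).2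
    linarith
  set b := bl W Vi with hb
  have hb0 : 0 ≤ b := sum_nonneg fun i _ => ee_nonneg (co_nonneg hW) _ _
  -- cover
  have hcov : 1 - a ≤ ∑ i, ms (Vi i) := by
    have h1 : (univ : Finset V) ⊆ (A1 ∪ A2) ∪ univ.biUnion Vi := by
      intro x _
      rcases hT.cov x with h | h | ⟨i, h⟩
      · exact mem_union_left _ (mem_union_left _ h)
      · exact mem_union_left _ (mem_union_right _ h)
      · exact mem_union_right _ (mem_biUnion.2 ⟨i, mem_univ _, h⟩)
    have h2 : Fintype.card V ≤ (A1.card + A2.card) + ∑ i, (Vi i).card := by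
      calc Fintype.card V = (univ : Finset V).card := rfl
        _ ≤ ((A1 ∪ A2) ∪ univ.biUnion Vi).card := card_le_card h1
        _ ≤ (A1 ∪ A2).card + (univ.biUnion Vi).card := card_union_le _ _
        _ ≤ _ := add_le_add (card_union_le _ _) card_biUnion_le
    have h3 : (Fintype.card V : ℝ) ≤ ((A1.card : ℝ) + A2.card) + ∑ i, ((Vi i).card : ℝ) := by
      exact_mod_cast h2
    have h4 : a + ∑ i, ms (Vi i) =
        (((A1.card : ℝ) + A2.card) + ∑ i, ((Vi i).card : ℝ)) / Fintype.card V := by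
      rw [ha]
      unfold ms
      rw [← sum_div]
      ring
    have h5 : 1 ≤ a + ∑ i, ms (Vi i) := by
      rw [h4, le_div_iff₀ hn']
      linarith
    linarith
  -- the lower bound for the red count
  have hlow : ∑ i, (∑ x ∈ cl W (Vi i) k, ∏ j, td W (T j) (x j)) / (Fintype.card V : ℝ) ^ k ≤
      lol W T := by
    rw [← sum_div]
    unfold lol
    apply div_le_div_of_nonneg_right _ (by positivity)
    have hdis : ((univ : Finset (Fin (k - 1))) : Set (Fin (k - 1))).PairwiseDisjoint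
        (fun i => cl W (Vi i) k) := by
      intro i _ j _ hij
      refine Finset.disjoint_left.2 fun x hx hy => ?_
      rw [mem_cl] at hx hy
      have hk0 : 0 < k := by omega
      exact Finset.disjoint_left.1 (hT.disj i j hij) (hx.1 ⟨0, hk0⟩) (hy.1 ⟨0, hk0⟩)
    rw [← sum_biUnion hdis]
    apply sum_le_sum_of_subset_of_nonneg
    · intro x hx
      obtain ⟨i, -, hx⟩ := mem_biUnion.1 hx
      rw [mem_cl] at hx ⊢
      exact ⟨fun _ => mem_univ _, hx.2⟩
    · intro x _ _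
      exact prod_nonneg fun j _ => td_nonneg hW _ _
  have hpart : ∀ i, ms (Vi i) ^ (N + k) - ((k : ℝ) ^ 2 + N) * (ee (co W) (Vi i) (Vi i)) *
      (2 / 5 : ℝ) ^ N ≤
      (∑ x ∈ cl W (Vi i) k, ∏ j, td W (T j) (x j)) / (Fintype.card V : ℝ) ^ k := by
    intro i
    refine le_trans ?_ (hP k (by omega) V W hW (Vi i) T)
    have h1 : ms (Vi i) ^ (N + k - 2) ≤ (2 / 5 : ℝ) ^ N := by
      calc ms (Vi i) ^ (N + k - 2) ≤ (2 / 5 : ℝ) ^ (N + k - 2) :=
            pow_le_pow_left₀ (ms_nonneg _) (hv i) _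
        _ ≤ (2 / 5 : ℝ) ^ N := pow_le_pow_of_le_one (by norm_num) (by norm_num) (by omega)
    have h2 : 0 ≤ ((k : ℝ) ^ 2 + N) * (ee (co W) (Vi i) (Vi i)) :=
      mul_nonneg (by positivity) (ee_nonneg (co_nonneg hW) _ _)
    have h3 := mul_le_mul_of_nonneg_left h1 h2
    linarith
  have hsum : ∑ i, ms (Vi i) ^ (N + k) - ((k : ℝ) ^ 2 + N) * b * (2 / 5 : ℝ) ^ N ≤ lol W T := by
    refine le_trans (le_of_eq ?_) ((sum_le_sum fun i _ => hpart i).trans hlow)
    rw [sum_sub_distrib, ← sum_mul, ← mul_sum, hb]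
    rfl
  -- power mean
  have hpow : (mu k) ^ (N + (k - 1)) * (1 - a) ^ (N + k) ≤ ∑ i, ms (Vi i) ^ (N + k) := by
    have h1 := pow_sum_div_card_le_sum_pow (s := (univ : Finset (Fin (k - 1))))
      (f := fun i => ms (Vi i)) (fun i _ => ms_nonneg _) (N + (k - 1))
    have h2 : N + (k - 1) + 1 = N + k := by omega
    rw [h2, card_univ, Fintype.card_fin] at h1
    refine le_trans ?_ h1
    have h3 : ((k - 1 : ℕ) : ℝ) = (k : ℝ) - 1 := by
      rw [Nat.cast_sub (by omega)]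
      simp
    rw [h3]
    have h4 : (mu k) ^ (N + (k - 1)) = 1 / ((k : ℝ) - 1) ^ (N + (k - 1)) := by
      unfold mu
      rw [div_pow, one_pow]
    rw [h4, one_div_mul_eq_div]
    apply div_le_div_of_nonneg_right _ (pow_nonneg (by linarith) _)
    exact pow_le_pow_left₀ (by linarith) hcov _
  have hber : 1 - ((N : ℝ) + k) * a ≤ (1 - a) ^ (N + k) := by
    have h1 := one_add_mul_le_pow (a := -a) (by linarith) (N + k)
    push_cast at h1
    have h2 : 1 + ((N : ℝ) + k) * -a = 1 - ((N : ℝ) + k) * a := by ring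
    rw [h2] at h1
    exact h1
  have hmp : (mu k) ^ (N + (k - 1)) ≤ (2 / 5 : ℝ) ^ N := by
    calc (mu k) ^ (N + (k - 1)) ≤ (2 / 5 : ℝ) ^ (N + (k - 1)) :=
          pow_le_pow_left₀ hm0.le (by linarith) _
      _ ≤ (2 / 5 : ℝ) ^ N := pow_le_pow_of_le_one (by norm_num) (by norm_num) (by omega)
  have hmp0 : 0 ≤ (mu k) ^ (N + (k - 1)) := pow_nonneg hm0.le _
  set M := (mu k) ^ (N + (k - 1)) with hM
  have hNk : (N : ℝ) + k ≤ (k : ℝ) ^ 2 + N := by nlinarith
  have hP0 : 0 ≤ (2 / 5 : ℝ) ^ N := by positivity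
  have e1 : M * (1 - ((N : ℝ) + k) * a) ≤ M * (1 - a) ^ (N + k) :=
    mul_le_mul_of_nonneg_left hber hmp0
  have e2 : M * (((N : ℝ) + k) * a) ≤ (c * (3 / 5 : ℝ) ^ N) * a := by
    have h1 : M * ((N : ℝ) + k) ≤ (2 / 5 : ℝ) ^ N * ((k : ℝ) ^ 2 + N) :=
      mul_le_mul hmp hNk (by positivity) hP0
    have h2 : M * ((N : ℝ) + k) ≤ c * (3 / 5 : ℝ) ^ N := by linarith
    have h3 := mul_le_mul_of_nonneg_right h2 ha0
    linarith
  have e3 : ((k : ℝ) ^ 2 + N) * b * (2 / 5 : ℝ) ^ N ≤ (c * (3 / 5 : ℝ) ^ N) * b := by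
    have h3 := mul_le_mul_of_nonneg_right hnum hb0
    linarith
  have e4 : c * (b + ms A1 + ms A2) * (3 / 5 : ℝ) ^ N =
      (c * (3 / 5 : ℝ) ^ N) * a + (c * (3 / 5 : ℝ) ^ N) * b := by
    rw [ha]; ring
  rw [e4]
  linarith

end Pool.Agent.N412.LB.Union2Aux
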