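import Pool.Agent.W297.LP.Fin
import Pool.Agent.W797.LP.Stab
import Pool.Agent.W962.LP.Marg
import Pool.Agent.N412.LB.Sets2
import Pool.Agent.N412.LB.Union2
import Pool.Agent.N412.LB.Gain2
import Pool.Agent.N412.LB.Stab2
import Pool.Agent.N412.LB.Part2
import Pool.Agent.N412.LB.Size
import Pool.Agent.N412.LB.Lpf
import Pool.Agent.N412.LB.Homc
import Pool.Agent.N412.LB.Upb
import Pool.Agent.N412.LB.Clone
import Pool.Agent.N412.LB.CntR
import Pool.Agent.N412.LB.CntB
import Pool.Agent.N412.LB.Pat
import Pool.Agent.N412.LB.Rep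
import Pool.Agent.N412.LB.CompR
import Pool.Agent.N412.LB.CompB
import Pool.Agent.N412.LB.Comp
import Pool.Agent.N412.LB.EmbP
import Pool.Agent.N412.LB.Bal
import Pool.Agent.N412.LB.Iso
import Pool.Agent.N412.LB.Inv
import Pool.Agent.N412.LB.Fin

/-! BONBON: everything together. -/

set_option autoImplicit false

open Finset

namespace Pool.Agent.N412.LB

open Pool.Agent.W297.LP

theorem all_of (hCompB : SCompB) : SMainB := by
  have hMoon : SMoon := Pool.Agent.W790.LP.moon
  have hDens : SDens := Pool.Agent.W440.LP.dens hMoon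
  have hTur : STur := Pool.Agent.W174.LP.Tur.tur hDens
  have hMany : SManyK := Pool.Agent.W174.LP.Tur.many hDens
  have hRam : SRam := Pool.Agent.W688.LP.ram
  have hElim : SElim := Pool.Agent.W688.LP.elim
  have hAmgm : SAMGM := Pool.Agent.W371.LL.amgm
  have hGlue : SGlue := Pool.Agent.W315.LPGlue.glue
  have hCore : SCore := Pool.Agent.W315.LPGlue.core
  have hWalk : SWalk := Pool.Agent.W371.LL.walk
  have hCert : SCert := Pool.Agent.W371.LL.cert
  have hNum : Pool.Agent.W297.LP.SNum := Pool.Agent.W371.LL.num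
  have hSets : SSets2 := Sets2Aux.sets hAmgm hGlue hCore hWalk hCert hRam
  have hSym : SSym := Pool.Agent.W371.LL.sym
  have hFacts : SFacts := Pool.Agent.W696.LPF.facts hTur
  have hDich5 : SDich5 := Pool.Agent.W947.LP.dich5 hFacts hNum hSym
  have hDich4 : SDich4 := Pool.Agent.W135.LP.dich4 hFacts hNum hSym hElim hTur
  have hAlm : SAlmost := Pool.Agent.W50.LP.alm hNum hTur
  have hStab : SStab := Pool.Agent.W797.LP.stab hMany
  have hTyp : STyp := Pool.Agent.W977.LPT.typ
  have hCost : SCost := Pool.Agent.W28.LP.cost hCore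
  have hPart : SPart := Pool.Agent.W604.LP.part
  have hUnion : SUnion2 := Union2Aux.union hPart
  have hQk : SQk := Pool.Agent.W405.LP.QK.qkf
  have hWalk2 : SWalk2 := Pool.Agent.W654.LPW.walk2
  have hStart : SStart := Pool.Agent.W597.LP.start hWalk2
  have hJen : SJen := Pool.Agent.W54.LP.jen hWalk
  have hEnt : SEnt := Pool.Agent.W672.LP.ent
  have hGain : SGain2 := Gain2Aux.gain hWalk hQk hStart hJen Pool.Agent.W962.LP.marg hEnt
  have hStab2 : SStab2 := stab2 hSets hSym hDich5 hDich4 hAlm hStab hTyp hCost hUnion hGain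
    part2 size
  have hHom : SHom := Pool.Agent.W999.LPH.hom
  have hUp : SUp := Pool.Agent.W465.LPUp.up
  exact mainB hStab2 lpf (homc hHom lpf) (upb hUp lpf) (pat clone (upb hUp lpf) cntR cntB) rep
    (comp compR hCompB) embP bal iso inv

theorem all : SMainB := all_of compB

end Pool.Agent.N412.LB
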