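import Pool.Agent.N412.LB.Stm

/-!
Project LB (helper412), part REP: the new partition (helper152).
-/

set_option autoImplicit false

open Finset

namespace Pool.Agent.N412.LB

open Pool.Agent.W297.LP

namespace RepAux

open Classical in
/-- the red degree out of a part -/
theorem sum_rp {n r : ℕ} (G : SimpleGraph (Fin n)) (P : Fin n → Fin r) (j : Fin r) (x : Fin n) :
    ∑ i ∈ univ.erase j, (rp G P i x : ℝ) =
      ((univ.filter (fun y => P y ≠ j ∧ G.Adj x y)).card : ℝ) := by
  have h1 : (univ.filter (fun y => P y ≠ j ∧ G.Adj x y)).card =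
      ∑ i ∈ univ.erase j, ((univ.filter (fun y => P y ≠ j ∧ G.Adj x y)).filter (fun y => P y = i)).card := by
    apply Finset.card_eq_sum_card_fiberwise
    intro y hy
    have hy' := (Finset.mem_filter.1 (Finset.mem_coe.1 hy)).2
    exact Finset.mem_coe.2 (Finset.mem_erase.2 ⟨hy'.1, mem_univ _⟩)
  rw [h1, Nat.cast_sum]
  refine sum_congr rfl fun i hi => ?_
  have hij := (Finset.mem_erase.1 hi).1
  unfold rp
  congr 2
  ext y
  simp only [mem_filter, mem_univ, true_and]
  constructor
  · rintro ⟨h2, h3⟩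
    exact ⟨⟨fun h4 => hij (h2.symm.trans h4), h3⟩, h2⟩
  · rintro ⟨⟨_, h3⟩, h2⟩
    exact ⟨h2, h3⟩

/-- sizes of nearly equal sets -/
theorem card_close {n : ℕ} (A A' B : Finset (Fin n)) (h : A ⊆ A' ∪ B) :
    (A.card : ℝ) ≤ A'.card + B.card := by
  have h1 := (Finset.card_le_card h).trans (Finset.card_union_le A' B)
  exact_mod_cast h1

end RepAux

open Classical RepAux in
/-- REP -/
theorem rep : SRep := by
  intro k hk
  have hk4 : (4 : ℝ) ≤ k := by exact_mod_cast hk
  have hmu0 : 0 < mu k := by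
    unfold mu
    apply one_div_pos.2
    linarith
  obtain ⟨m, hm⟩ : ∃ m, m = mu k := ⟨_, rfl⟩
  rw [← hm] at hmu0
  obtain ⟨s, hs⟩ : ∃ s : ℝ, s = m / (1000 * k) := ⟨_, rfl⟩
  have hs0 : 0 < s := by
    rw [hs]
    positivity
  have hsk : s * (1000 * k) = m := by
    rw [hs]
    field_simp
  have hm1 : m ≤ 1 := by
    rw [hm]
    unfold mu
    rw [div_le_one (by linarith)]
    linarith
  have hs1 : s ≤ 1 := by nlinarith
  have hss : s ^ 2 ≤ s := by nlinarith
  refine ⟨s ^ 2, 1, by positivity, ?_⟩
  intro n hn G P hP hx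
  have hn0 : (0 : ℝ) < n := by exact_mod_cast hn
  obtain ⟨hP1, hP2⟩ := hP
  simp only [← hm] at hP1 hx
  choose P' hP'1 hP'2 using hx
  -- small constants
  have c1 : m / (32 * k) = m * (1 / (32 * k)) := by ring
  have hmk : m / (32 * k) = 1000 / 32 * s := by
    rw [hs]
    field_simp
  have hmk2 : m / (16 * k) = 1000 / 16 * s := by
    rw [hs]
    field_simp
  have hm4 : 4000 * s ≤ m := by nlinarith
  -- the exceptional set
  obtain ⟨D, hD⟩ : ∃ D : Fin n → ℝ, D = fun x => ∑ y, (if P x = P y then 1 - ad G x y else ad G x y) :=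
    ⟨_, rfl⟩
  have had : ∀ x y, 0 ≤ (if P x = P y then 1 - ad G x y else ad G x y) := by
    intro x y
    unfold ad
    split_ifs <;> norm_num
  have hD0 : ∀ x, 0 ≤ D x := by
    intro x
    rw [hD]
    exact sum_nonneg fun y _ => had x y
  have hDs : ∑ x, D x ≤ s ^ 2 * (n : ℝ) ^ 2 := by
    rw [hD]
    exact hP2
  obtain ⟨B, hB⟩ : ∃ B : Finset (Fin n), B = univ.filter (fun x => s * n < D x) := ⟨_, rfl⟩
  have hBc : (B.card : ℝ) ≤ s * n := by
    have h1 : (B.card : ℝ) * (s * n) ≤ ∑ x ∈ B, D x := by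
      rw [← nsmul_eq_mul, ← sum_const]
      refine sum_le_sum fun x hx => ?_
      rw [hB, mem_filter] at hx
      exact hx.2.le
    have h2 : ∑ x ∈ B, D x ≤ ∑ x, D x := sum_le_sum_of_subset_of_nonneg (subset_univ _) fun x _ _ => hD0 x
    have h3 : (B.card : ℝ) * (s * n) ≤ (s * n) * (s * n) := by
      calc (B.card : ℝ) * (s * n) ≤ s ^ 2 * (n : ℝ) ^ 2 := h1.trans (h2.trans hDs)
        _ = _ := by ring
    exact le_of_mul_le_mul_right h3 (by positivity)
  have hPP : ∀ x, x ∉ B → P' x = P x := by
    intro x hxB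
    have hDx : D x ≤ s * n := by
      by_contra h
      push Not at h
      apply hxB
      rw [hB, mem_filter]
      exact ⟨mem_univ _, h⟩
    by_contra hne
    have h1 : (rp G P (P x) x : ℝ) ≤ ∑ i ∈ univ.erase (P' x), (rp G P i x : ℝ) :=
      single_le_sum (f := fun i => (rp G P i x : ℝ)) (fun i _ => Nat.cast_nonneg _)
        (mem_erase.2 ⟨fun h => hne h.symm, mem_univ _⟩)
    have h2 := h1.trans (hP'2 x)
    have h3 := (abs_le.1 (hP1 (P x))).1
    have h4 : ((pt P (P x)).card : ℝ) ≤ rp G P (P x) x + D x := by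
      have e1 : ((pt P (P x)).card : ℝ) = ∑ y, if P y = P x then (1 : ℝ) else 0 := by
        rw [sum_boole]
        rfl
      have e2 : (rp G P (P x) x : ℝ) = ∑ y, if P y = P x ∧ G.Adj x y then (1 : ℝ) else 0 := by
        rw [sum_boole]
        rfl
      rw [e1, e2, hD, ← sum_add_distrib]
      refine sum_le_sum fun y _ => ?_
      by_cases h5 : P y = P x
      · by_cases h6 : G.Adj x y
        · rw [if_pos h5, if_pos ⟨h5, h6⟩, if_pos h5.symm]
          unfold ad
          rw [if_pos h6]
          norm_num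
        · rw [if_pos h5, if_neg (fun h => h6 h.2), if_pos h5.symm]
          unfold ad
          rw [if_neg h6]
          norm_num
      · rw [if_neg h5]
        have h7 := had x y
        have h8 : (0 : ℝ) ≤ if P y = P x ∧ G.Adj x y then (1 : ℝ) else 0 := by
          split_ifs <;> norm_num
        linarith
    rw [hmk] at h2
    have h9 : s ^ 2 * (n : ℝ) ≤ s * n := mul_le_mul_of_nonneg_right hss hn0.le
    have h10 : 4000 * s * (n : ℝ) ≤ m * n := mul_le_mul_of_nonneg_right hm4 hn0.le
    have h11 : 0 < s * (n : ℝ) := by positivity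
    linarith
  have hsn : 0 < s * (n : ℝ) := by positivity
  have h9 : s ^ 2 * (n : ℝ) ≤ s * n := mul_le_mul_of_nonneg_right hss hn0.le
  have h10 : 4000 * s * (n : ℝ) ≤ m * n := mul_le_mul_of_nonneg_right hm4 hn0.le
  refine ⟨P', ?_, ?_, ?_⟩
  · intro i
    rw [← hm]
    have g1 : ((pt P' i).card : ℝ) ≤ (pt P i).card + B.card := by
      apply card_close
      intro x hx
      rw [mem_union]
      by_cases hxB : x ∈ B
      · exact Or.inr hxB
      · left
        have hx2 := (mem_filter.1 hx).2
        exact mem_filter.2 ⟨mem_univ _, (hPP x hxB).symm.trans hx2⟩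
    have g2 : ((pt P i).card : ℝ) ≤ (pt P' i).card + B.card := by
      apply card_close
      intro x hx
      rw [mem_union]
      by_cases hxB : x ∈ B
      · exact Or.inr hxB
      · left
        have hx2 := (mem_filter.1 hx).2
        exact mem_filter.2 ⟨mem_univ _, (hPP x hxB).trans hx2⟩
    have g3 := abs_le.1 (hP1 i)
    rw [abs_le]
    constructor
    · linarith [g3.1]
    · linarith [g3.2]
  · intro x
    rw [← hm, hmk2]
    have g1 : (bp G P' (P' x) x : ℝ) ≤ bp G P (P' x) x + B.card := by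
      apply card_close
      intro y hy
      rw [mem_union]
      by_cases hyB : y ∈ B
      · exact Or.inr hyB
      · left
        have hy2 := (mem_filter.1 hy).2
        exact mem_filter.2 ⟨mem_univ _, (hPP y hyB).symm.trans hy2.1, hy2.2⟩
    have g2 := hP'1 x
    rw [hmk] at g2
    linarith
  · intro x
    rw [← hm, hmk2, sum_rp]
    have g2 := hP'2 x
    rw [hmk, sum_rp] at g2
    have g1 : ((univ.filter (fun y => P' y ≠ P' x ∧ G.Adj x y)).card : ℝ) ≤
        ((univ.filter (fun y => P y ≠ P' x ∧ G.Adj x y)).card : ℝ) + B.card := by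
      apply card_close
      intro y hy
      rw [mem_union]
      by_cases hyB : y ∈ B
      · exact Or.inr hyB
      · left
        have hy2 := (mem_filter.1 hy).2
        exact mem_filter.2 ⟨mem_univ _, fun h => hy2.1 ((hPP y hyB).trans h), hy2.2⟩
    linarith

end Pool.Agent.N412.LB
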