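import Pool.Agent.W297.LP.Stm

/-!
Project LB (helper412), problem MP_f2e3c0_co: the lollipops `L_{k,t}` are two-colour bonbons for
large `t`: definitions and statements of the parts.  Built on project LP (namespace
`Pool.Agent.W297.LP`, frozen statement S09215).
-/

set_option autoImplicit false

open Finset

namespace Pool.Agent.N412.LB

open Pool.Agent.W297.LP

section Graphs

open Classical in
/-- number of red copies (labelled, injective) -/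
noncomputable def ER {t n : ℕ} (H : SimpleGraph (Fin t)) (G : SimpleGraph (Fin n)) : ℕ :=
  ((Finset.univ : Finset (Fin t ↪ Fin n)).filter
    (fun f => ∀ u v, H.Adj u v → G.Adj (f u) (f v))).card

open Classical in
/-- number of monochromatic labelled copies; `G` is the red graph, `Gᶜ` the blue graph -/
noncomputable def MC {t n : ℕ} (H : SimpleGraph (Fin t)) (G : SimpleGraph (Fin n)) : ℕ :=
  ((Finset.univ : Finset (Fin t ↪ Fin n)).filter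
    (fun f => (∀ u v, H.Adj u v → G.Adj (f u) (f v)) ∨
      (∀ u v, H.Adj u v → Gᶜ.Adj (f u) (f v)))).card

open Classical in
/-- number of monochromatic labelled copies containing the vertex `x` -/
noncomputable def cx {t n : ℕ} (H : SimpleGraph (Fin t)) (G : SimpleGraph (Fin n)) (x : Fin n) : ℕ :=
  ((Finset.univ : Finset (Fin t ↪ Fin n)).filter
    (fun f => ((∀ u v, H.Adj u v → G.Adj (f u) (f v)) ∨
      (∀ u v, H.Adj u v → Gᶜ.Adj (f u) (f v))) ∧ ∃ v, f v = x)).card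

/-- the lollipop `L_{k,t}`: clique on `0,…,k-1`, path `k-1,k,…,t-1` -/
def Lp (k t : ℕ) : SimpleGraph (Fin t) where
  Adj i j := (i ≠ j ∧ i.val < k ∧ j.val < k) ∨ (i.val + 1 = j.val ∧ k ≤ j.val) ∨
    (j.val + 1 = i.val ∧ k ≤ i.val)
  symm := ⟨by
    intro i j h
    rcases h with h | h | h
    · exact Or.inl ⟨h.1.symm, h.2.2, h.2.1⟩
    · exact Or.inr (Or.inr h)
    · exact Or.inr (Or.inl h)⟩
  loopless := ⟨by
    intro i h
    rcases h with h | h | h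
    · exact h.1 rfl
    · omega
    · omega⟩

open Classical in
/-- the adjacency kernel -/
noncomputable def ad {n : ℕ} (G : SimpleGraph (Fin n)) : Fin n → Fin n → ℝ :=
  fun x y => if G.Adj x y then 1 else 0

open Classical in
/-- the part `i` of a partition -/
noncomputable def pt {n r : ℕ} (P : Fin n → Fin r) (i : Fin r) : Finset (Fin n) :=
  univ.filter (fun x => P x = i)

open Classical in
/-- red degree -/
noncomputable def rd {n : ℕ} (G : SimpleGraph (Fin n)) (x : Fin n) : ℕ :=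
  (univ.filter (fun y => G.Adj x y)).card

open Classical in
/-- red degree into the part `i` -/
noncomputable def rp {n r : ℕ} (G : SimpleGraph (Fin n)) (P : Fin n → Fin r) (i : Fin r)
    (x : Fin n) : ℕ := (univ.filter (fun y => P y = i ∧ G.Adj x y)).card

open Classical in
/-- blue degree into the part `i` -/
noncomputable def bp {n r : ℕ} (G : SimpleGraph (Fin n)) (P : Fin n → Fin r) (i : Fin r)
    (x : Fin n) : ℕ := (univ.filter (fun y => P y = i ∧ y ≠ x ∧ ¬ G.Adj x y)).card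

open Classical in
/-- close to the Turan colouring, with a given partition (compare `Near`) -/
def NearP (k : ℕ) (d : ℝ) {n : ℕ} (G : SimpleGraph (Fin n)) (P : Fin n → Fin (k - 1)) : Prop :=
  (∀ i, |((pt P i).card : ℝ) - mu k * n| ≤ d * n) ∧
    ∑ x, ∑ y, (if P x = P y then 1 - ad G x y else ad G x y) ≤ d * (n : ℝ) ^ 2

/-- structure at every vertex -/
def Str (k : ℕ) {n : ℕ} (G : SimpleGraph (Fin n)) (P : Fin n → Fin (k - 1)) : Prop :=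
  (∀ i, |((pt P i).card : ℝ) - mu k * n| ≤ mu k / 20 * n) ∧
  (∀ x, (bp G P (P x) x : ℝ) ≤ mu k / (16 * k) * n) ∧
  (∀ x, ∑ i ∈ univ.erase (P x), (rp G P i x : ℝ) ≤ mu k / (16 * k) * n)

open Classical in
/-- ordered blue pairs inside the parts -/
noncomputable def na {n r : ℕ} (G : SimpleGraph (Fin n)) (P : Fin n → Fin r) : ℕ :=
  (univ.filter (fun p : Fin n × Fin n => p.1 ≠ p.2 ∧ P p.1 = P p.2 ∧ ¬ G.Adj p.1 p.2)).card

open Classical in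
/-- ordered red pairs between the parts -/
noncomputable def nb {n r : ℕ} (G : SimpleGraph (Fin n)) (P : Fin n → Fin r) : ℕ :=
  (univ.filter (fun p : Fin n × Fin n => P p.1 ≠ P p.2 ∧ G.Adj p.1 p.2)).card

/-- number of copies in disjoint red cliques -/
noncomputable def SD {n r : ℕ} (t : ℕ) (P : Fin n → Fin r) : ℕ :=
  ∑ i, ((pt P i).card).descFactorial t

/-- optimal colouring -/
def Opt {t n : ℕ} (H : SimpleGraph (Fin t)) (G : SimpleGraph (Fin n)) : Prop :=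
  ∀ G' : SimpleGraph (Fin n), MC H G ≤ MC H G'

/-- two-colour bonbons -/
def Bonbon {t : ℕ} (H : SimpleGraph (Fin t)) : Prop :=
  H.Connected ∧ ∃ r : ℕ, H.chromaticNumber = ((r + 1 : ℕ) : ℕ∞) ∧ ∃ N : ℕ, ∀ n : ℕ, N ≤ n →
    ∀ G : SimpleGraph (Fin n), Opt H G ↔
      (Nonempty (G ≃g SimpleGraph.turanGraph n r) ∨ Nonempty (Gᶜ ≃g SimpleGraph.turanGraph n r))

end Graphs

/-! ### Stability of the weighted problem -/

/-- SETS2: as SETS, with a factor two -/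
def SSets2 : Prop :=
  ∀ k : ℕ, 4 ≤ k → ∀ e : ℝ, 0 < e → ∃ N0 : ℕ,
    ∀ (V : Type) [Fintype V] [DecidableEq V] (W : V → V → ℝ), Ker W → ∀ T : Fin k → Tr,
      N0 ≤ tot T → lol W T ≤ 2 * mu k ^ (tot T + (k - 1)) →
      lol (co W) T ≤ 2 * mu k ^ (tot T + (k - 1)) → ∃ D1 D2 : Finset V, Ext k e W D1 D2

/-- UNION2 -/
def SUnion2 : Prop :=
  ∀ k : ℕ, 4 ≤ k → ∀ c : ℝ, 0 < c → ∃ N0 : ℕ, ∀ e d : ℝ, d ≤ mu k ^ 2 / 16 →
    ∀ (V : Type) [Fintype V] [DecidableEq V] (W : V → V → ℝ) (Vi : Fin (k - 1) → Finset V)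
      (A1 A2 : Finset V), Ker W → 0 < Fintype.card V → Typ k e d W Vi A1 A2 →
      ∀ T : Fin k → Tr, N0 ≤ tot T →
        mu k ^ (tot T + (k - 1)) ≤ lol W T + c * (bl W Vi + ms A1 + ms A2) * (3 / 5 : ℝ) ^ (tot T)

/-- GAIN2 -/
def SGain2 : Prop :=
  ∀ k : ℕ, 4 ≤ k → ∃ (e d0 c3 : ℝ) (N0 : ℕ), 0 < e ∧ e ≤ mu k ^ 2 / 16 ∧ 0 < d0 ∧ 0 < c3 ∧
    ∀ d : ℝ, 0 < d → d ≤ d0 →
    ∀ (V : Type) [Fintype V] [DecidableEq V] (W : V → V → ℝ) (Vi : Fin (k - 1) → Finset V)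
      (A1 A2 : Finset V), Ker W → 0 < Fintype.card V → Typ k e d W Vi A1 A2 →
      bl W Vi + ms A2 ≤ c3 * ms A1 → 0 < ms A1 → ∀ T : Fin k → Tr, N0 ≤ tot T →
      mu k ^ (tot T + (k - 1)) * (1 + ms A1) ≤ lol W T

/-- PART2: lower bound with the red pairs between the parts -/
def SPart2 : Prop :=
  ∀ k : ℕ, 4 ≤ k → ∀ T : Fin k → Tr, 0 < tot T → ∃ c : ℝ, 0 < c ∧ ∀ e d : ℝ,
    e ≤ mu k ^ 2 / 16 → d ≤ mu k ^ 2 / 16 →
    ∀ (V : Type) [Fintype V] [DecidableEq V] (W : V → V → ℝ) (Vi : Fin (k - 1) → Finset V)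
      (A1 A2 : Finset V), Ker W → 0 < Fintype.card V → Typ k e d W Vi A1 A2 →
      ∑ i, (ms (Vi i)) ^ (tot T + k) - ((k : ℝ) ^ 2 + (tot T : ℝ)) * bl W Vi +
        c * ∑ i, ∑ j ∈ univ.erase i, ee W (Vi i) (Vi j) ≤ lol W T

/-- SIZE: convexity -/
def SSize : Prop :=
  ∀ k s : ℕ, 4 ≤ k → 2 ≤ s → ∀ δ : ℝ, 0 < δ → ∃ ξ : ℝ, 0 < ξ ∧ ∀ p : Fin (k - 1) → ℝ,
    (∀ i, 0 ≤ p i) → 1 - ξ ≤ ∑ i, p i → ∑ i, p i ≤ 1 →
      mu k ^ (s - 1) - ξ ≤ ∑ i, p i ^ s ∧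
      (∑ i, p i ^ s ≤ mu k ^ (s - 1) + ξ → ∀ i, |p i - mu k| ≤ δ)

/-- STAB2: near-optimal colourings are close to the Turan colouring -/
def SStab2 : Prop :=
  ∀ k : ℕ, 4 ≤ k → ∃ N0 : ℕ, ∀ T : Fin k → Tr, N0 ≤ tot T → ∀ δ : ℝ, 0 < δ →
    ∃ (η : ℝ) (n0 : ℕ), 0 < η ∧ ∀ (V : Type) [Fintype V] (W : V → V → ℝ), Ker W →
      n0 ≤ Fintype.card V → lol W T + lol (co W) T ≤ mu k ^ (tot T + (k - 1)) + η →
        Near k δ W ∨ Near k δ (co W)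

/-! ### The finite part -/

/-- LPF: the lollipop -/
def SLpf : Prop := ∀ k t : ℕ, 4 ≤ k → k < t → (Lp k t).Connected ∧
  (Lp k t).chromaticNumber = (k : ℕ∞) ∧
  ∃ S : Finset (Fin t), S.card = k ∧ (∀ u ∈ S, ∀ v ∈ S, u ≠ v → (Lp k t).Adj u v) ∧
    (Lp k t).edgeSet.ncard = k.choose 2 + (t - k)

/-- HOMC: weighted homomorphisms against copies -/
def SHomc : Prop := ∀ k t : ℕ, 4 ≤ k → k < t → ∃ T : Fin k → Tr, tot T + k = t ∧
  ∀ n : ℕ, 0 < n → ∀ G : SimpleGraph (Fin n),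
    (lol (ad G) T + lol (co (ad G)) T) * (n : ℝ) ^ t ≤
      (MC (Lp k t) G : ℝ) + 2 * (t : ℝ) ^ 2 * (n : ℝ) ^ (t - 1)

/-- UPB: upper bound for the minimum -/
def SUpb : Prop := ∀ k t : ℕ, 4 ≤ k → k < t → ∀ ε : ℝ, 0 < ε → ∃ N : ℕ, ∀ n : ℕ, N ≤ n →
  ∃ G : SimpleGraph (Fin n), (MC (Lp k t) G : ℝ) ≤ (mu k ^ (t - 1) + ε) * (n : ℝ) ^ t

/-- CLONE: in an optimal colouring no vertex is in too many copies -/
def SClone : Prop := ∀ (t n : ℕ) (H : SimpleGraph (Fin t)) (G : SimpleGraph (Fin n)), 2 ≤ t →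
  Opt H G → ∀ x, (n : ℝ) * cx H G x ≤ t * MC H G + (t : ℝ) ^ 2 * (n : ℝ) ^ (t - 1)

/-- CNTR: red copies through a vertex, on the path -/
def SCntR : Prop := ∀ k t : ℕ, 4 ≤ k → k + 2 ≤ t → ∀ ε : ℝ, 0 < ε → ε ≤ mu k →
  ∃ (δ : ℝ) (N : ℕ), 0 < δ ∧ ∀ n : ℕ, N ≤ n → ∀ (G : SimpleGraph (Fin n))
    (P : Fin n → Fin (k - 1)), NearP k δ G P → ∀ x, ε * n ≤ rd G x →
      ((t : ℝ) - k - 1) * ((rd G x : ℝ) - ε * n) ^ 2 * ((mu k - ε) * n) ^ (t - 3) ≤ cx (Lp k t) G x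

/-- CNTB: blue copies through a vertex of the clique -/
def SCntB : Prop := ∀ k t : ℕ, 4 ≤ k → k + 2 ≤ t → ∀ ε : ℝ, 0 < ε → ε ≤ 1 / 3 →
  ∃ (δ : ℝ) (N : ℕ), 0 < δ ∧ ∀ n : ℕ, N ≤ n → ∀ (G : SimpleGraph (Fin n))
    (P : Fin n → Fin (k - 1)), NearP k δ G P → ∀ x, (∀ j, ε * n ≤ bp G P j x) →
      (∏ j, ((bp G P j x : ℝ) - ε * n)) * ((1 - mu k - ε) * n) ^ (t - k) ≤ cx (Lp k t) G x

/-- PAT: the pattern at every vertex of an optimal colouring -/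
def SPat : Prop := ∀ k : ℕ, 4 ≤ k → ∃ M : ℕ, ∀ t : ℕ, M ≤ t → ∃ (δ : ℝ) (N : ℕ), 0 < δ ∧
  ∀ n : ℕ, N ≤ n → ∀ (G : SimpleGraph (Fin n)) (P : Fin n → Fin (k - 1)), Opt (Lp k t) G →
    NearP k δ G P → ∀ x, ∃ j, (bp G P j x : ℝ) ≤ mu k / (32 * k) * n ∧
      ∑ i ∈ univ.erase j, (rp G P i x : ℝ) ≤ mu k / (32 * k) * n

/-- REP: the new partition -/
def SRep : Prop := ∀ k : ℕ, 4 ≤ k → ∃ (δ : ℝ) (N : ℕ), 0 < δ ∧ ∀ n : ℕ, N ≤ n →
  ∀ (G : SimpleGraph (Fin n)) (P : Fin n → Fin (k - 1)), NearP k δ G P →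
    (∀ x, ∃ j, (bp G P j x : ℝ) ≤ mu k / (32 * k) * n ∧
      ∑ i ∈ univ.erase j, (rp G P i x : ℝ) ≤ mu k / (32 * k) * n) →
    ∃ P' : Fin n → Fin (k - 1), Str k G P'

/-- COMPR: red copies in a structured colouring -/
def SCompR : Prop := ∀ k t : ℕ, 4 ≤ k → k < t → ∃ N : ℕ, ∀ n : ℕ, N ≤ n →
  ∀ (G : SimpleGraph (Fin n)) (P : Fin n → Fin (k - 1)), Str k G P →
    (SD t P : ℝ) + nb G P ≤
      ER (Lp k t) G + (t : ℝ) ^ 2 * na G P * ((21 / 20 * mu k) * n) ^ (t - 2)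

/-- COMPB: blue copies in a structured colouring -/
def SCompB : Prop := ∀ k t : ℕ, 4 ≤ k → k < t → ∃ N : ℕ, ∀ n : ℕ, N ≤ n →
  ∀ (G : SimpleGraph (Fin n)) (P : Fin n → Fin (k - 1)), Str k G P →
    (na G P : ℝ) * ((mu k / 2) * n) ^ (k - 2) * ((1 - 5 / 4 * mu k) * n) ^ (t - k) ≤
      ER (Lp k t) Gᶜ

/-- COMP: comparison with the completed colouring -/
def SComp : Prop := ∀ k : ℕ, 4 ≤ k → ∃ M : ℕ, ∀ t : ℕ, M ≤ t → ∃ N : ℕ, ∀ n : ℕ, N ≤ n →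
  ∀ (G : SimpleGraph (Fin n)) (P : Fin n → Fin (k - 1)), Str k G P →
    SD t P ≤ MC (Lp k t) G ∧
    (MC (Lp k t) G ≤ SD t P → ∀ x y, x ≠ y → (G.Adj x y ↔ P x = P y))

/-- EMBP: copies in disjoint red cliques -/
def SEmbP : Prop := ∀ k t n : ℕ, 4 ≤ k → k < t → ∀ (G : SimpleGraph (Fin n))
  (P : Fin n → Fin (k - 1)), (∀ x y, x ≠ y → (G.Adj x y ↔ P x = P y)) → MC (Lp k t) G = SD t P

/-- BAL: an optimal partition is balanced -/
def SBal : Prop := ∀ k t : ℕ, 4 ≤ k → 2 ≤ t → ∃ N : ℕ, ∀ n : ℕ, N ≤ n →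
  ∀ P : Fin n → Fin (k - 1), (∀ i, |((pt P i).card : ℝ) - mu k * n| ≤ mu k / 20 * n) →
    (∀ P' : Fin n → Fin (k - 1), SD t P ≤ SD t P') → ∀ i j, (pt P i).card ≤ (pt P j).card + 1

/-- ISO: balanced partitions give Turan graphs -/
def SIso : Prop := ∀ (r n : ℕ), 0 < r → ∀ P : Fin n → Fin r,
  (∀ i j, (pt P i).card ≤ (pt P j).card + 1) → ∀ G : SimpleGraph (Fin n),
    (∀ x y, x ≠ y → (G.Adj x y ↔ P x = P y)) → Nonempty (Gᶜ ≃g SimpleGraph.turanGraph n r)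

/-- INV: copies are invariant under isomorphism and complement -/
def SInv : Prop := ∀ (t n : ℕ) (H : SimpleGraph (Fin t)) (G G' : SimpleGraph (Fin n)),
  MC H Gᶜ = MC H G ∧ (Nonempty (G ≃g G') → MC H G = MC H G')

/-- MAIN -/
def SMainB : Prop := ∀ k : ℕ, 4 ≤ k → ∃ T0 : ℕ, ∀ t : ℕ, T0 ≤ t → Bonbon (Lp k t)

end Pool.Agent.N412.LB
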